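import Pool.Agent.H95.GN.Targets

/-!
# (AJ) the quotient by the elements which are not large has no atoms
-/

set_option autoImplicit false

open Filter Topology Set

namespace H95.GN

universe u

theorem aj_bot {A : Type u} [BooleanAlgebra A] {μ : A → ℝ} (h : IsMeas μ) : μ ⊥ = 0 := by
  have h1 := h.1 ⊥ ⊥ disjoint_bot_left
  rw [sup_bot_eq] at h1
  linarith

theorem aj_mono {A : Type u} [BooleanAlgebra A] {μ : A → ℝ} {U V : A} {C D : ℝ}
    (hVU : V ≤ U) (hCD : C ≤ D) (h : VarLE μ U C) : VarLE μ V D := by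
  intro s hs hd
  exact (h s (fun a ha => (hs a ha).trans hVU) hd).trans hCD

theorem aj_img {A : Type u} [BooleanAlgebra A] {μ : A → ℝ} (hm : IsMeas μ) {E : A} {C : ℝ}
    (hE : VarLE μ E C) (s : Finset A)
    (hd : ∀ a ∈ s, ∀ b ∈ s, a ≠ b → Disjoint a b) (φ : A → A) (h1 : ∀ a ∈ s, φ a ≤ a)
    (h2 : ∀ a ∈ s, φ a ≤ E) : ∑ a ∈ s, |μ (φ a)| ≤ C := by
  classical
  have e : ∑ c ∈ s.image φ, |μ c| = ∑ a ∈ s, |μ (φ a)| := by
    apply Finset.sum_image_of_pairwise_eq_zero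
    intro a ha b hb hab heq
    have h3 : Disjoint (φ a) (φ b) := (hd a ha b hb hab).mono (h1 a ha) (h1 b hb)
    rw [← heq, disjoint_self] at h3
    rw [h3, aj_bot hm, abs_zero]
  rw [← e]
  apply hE
  · intro c hc
    obtain ⟨a, ha, rfl⟩ := Finset.mem_image.mp hc
    exact h2 a ha
  · intro c hc c' hc' hne
    obtain ⟨a, ha, rfl⟩ := Finset.mem_image.mp hc
    obtain ⟨b, hb, rfl⟩ := Finset.mem_image.mp hc'
    have h3 : a ≠ b := by
      rintro rfl
      exact hne rfl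
    exact (hd a ha b hb h3).mono (h1 a ha) (h1 b hb)

theorem aj_sup {A : Type u} [BooleanAlgebra A] {μ : A → ℝ} (hm : IsMeas μ) {e f : A} {C D : ℝ}
    (he : VarLE μ e C) (hf : VarLE μ f D) : VarLE μ (e ⊔ f) (C + D) := by
  intro s hs hd
  have h1 := aj_img hm he s hd (fun a => a ⊓ e) (fun a _ => inf_le_left) (fun a _ => inf_le_right)
  have h2 := aj_img hm hf s hd (fun a => a \ e) (fun a _ => sdiff_le)
    (fun a ha => sdiff_le_iff.mpr (hs a ha))
  calc ∑ a ∈ s, |μ a| ≤ ∑ a ∈ s, (|μ (a ⊓ e)| + |μ (a \ e)|) := by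
        apply Finset.sum_le_sum
        intro a _
        have h3 := hm.1 (a ⊓ e) (a \ e) disjoint_inf_sdiff
        rw [sup_inf_sdiff] at h3
        rw [h3]
        exact abs_add_le _ _
    _ = ∑ a ∈ s, |μ (a ⊓ e)| + ∑ a ∈ s, |μ (a \ e)| := Finset.sum_add_distrib
    _ ≤ C + D := add_le_add h1 h2

/-- not large -/
def AjSm {A : Type u} [BooleanAlgebra A] (μ : ℕ → A → ℝ) (e : A) : Prop :=
  ∃ C : ℝ, ∀ n, VarLE (μ n) e C

theorem aj_sm_sup {A : Type u} [BooleanAlgebra A] {μ : ℕ → A → ℝ} (hm : ∀ n, IsMeas (μ n))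
    {e f : A} (he : AjSm μ e) (hf : AjSm μ f) : AjSm μ (e ⊔ f) := by
  obtain ⟨C, hC⟩ := he
  obtain ⟨D, hD⟩ := hf
  exact ⟨C + D, fun n => aj_sup (hm n) (hC n) (hD n)⟩

theorem aj_sm_bot {A : Type u} [BooleanAlgebra A] {μ : ℕ → A → ℝ} (hm : ∀ n, IsMeas (μ n)) :
    AjSm μ (⊥ : A) := by
  refine ⟨0, fun n s hs _ => ?_⟩
  apply le_of_eq
  apply Finset.sum_eq_zero
  intro a ha
  have : a = ⊥ := le_bot_iff.mp (hs a ha)
  rw [this, aj_bot (hm n), abs_zero]

theorem aj_sm_fin {A : Type u} [BooleanAlgebra A] {μ : ℕ → A → ℝ} (hm : ∀ n, IsMeas (μ n))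
    (s : Finset A) (hs : ∀ a ∈ s, AjSm μ a) : AjSm μ (s.sup id) := by
  classical
  induction s using Finset.induction_on with
  | empty => simpa using aj_sm_bot hm
  | insert a s ha ih =>
    rw [Finset.sup_insert]
    exact aj_sm_sup hm (hs a (Finset.mem_insert_self a s))
      (ih fun b hb => hs b (Finset.mem_insert_of_mem hb))

theorem pf_AJ (hEX : T_EX.{u}) (hBV : T_BV.{u}) (hVW : T_VW.{u}) (hSC : T_SC)
    (hNW : T_NW.{u}) (hTC : T_TC.{u}) : T_AJ.{u} := by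
  intro A _ μ U hG hm hb hU
  by_contra hcon
  push Not at hcon
  have hcon' : ∀ V, V ≤ U → AjSm μ V ∨ AjSm μ (U \ V) := by
    intro V hV
    by_contra h
    push Not at h
    have := hcon V hV h.1
    exact this h.2
  choose nn K hK1 hK0 hK2 hK3 hK4 using fun i : ℕ => hBV A μ U hm hU (i : ℝ)
  let θ : ℕ → A → ℝ := fun i a => (2 * K i)⁻¹ * μ (nn i) (a ⊓ U)
  have hθm : ∀ i, IsMeas (θ i) := hK3
  have hθ1 : ∀ i, VarLE (θ i) ⊤ 1 := hK4
  have hpos : ∀ i, 0 < (2 * K i)⁻¹ := fun i => inv_pos.mpr (by linarith [hK0 i])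
  have hθabs : ∀ i a, |θ i a| = (2 * K i)⁻¹ * |μ (nn i) (a ⊓ U)| := by
    intro i a
    show |(2 * K i)⁻¹ * μ (nn i) (a ⊓ U)| = _
    rw [abs_mul, abs_of_pos (hpos i)]
  -- the small elements
  have hsmall : ∀ e, e ≤ U → AjSm μ e → ∀ δ : ℝ, 0 < δ → ∃ i1 : ℕ, ∀ i, i1 ≤ i →
      VarLE (θ i) e δ := by
    intro e he ⟨C, hC⟩ δ hδ
    refine ⟨⌈C / δ⌉₊, fun i hi s hs hd => ?_⟩
    have h1 : ∑ a ∈ s, |θ i a| = (2 * K i)⁻¹ * ∑ a ∈ s, |μ (nn i) a| := by
      rw [Finset.mul_sum]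
      apply Finset.sum_congr rfl
      intro a ha
      rw [hθabs, inf_eq_left.mpr ((hs a ha).trans he)]
    have h2 : ∑ a ∈ s, |μ (nn i) a| ≤ C := hC (nn i) s hs hd
    have h3 : C / δ ≤ K i := by
      calc C / δ ≤ (⌈C / δ⌉₊ : ℝ) := Nat.le_ceil _
        _ ≤ i := by exact_mod_cast hi
        _ ≤ K i := hK1 i
    have h4 : C ≤ K i * δ := by
      rw [div_le_iff₀ hδ] at h3
      exact h3
    rw [h1]
    have h5 : (2 * K i)⁻¹ * ∑ a ∈ s, |μ (nn i) a| ≤ (2 * K i)⁻¹ * (K i * δ) :=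
      mul_le_mul_of_nonneg_left (h2.trans h4) (hpos i).le
    have h6 : (2 * K i)⁻¹ * (K i * δ) = δ / 2 := by
      have := (hK0 i).ne'
      field_simp
    linarith
  -- the functionals
  choose L hL1 hL2 using fun i : ℕ => hEX A (θ i) 1 (hθm i) (hθ1 i)
  have hθ0 : ∀ a, Tendsto (fun i => θ i a) atTop (𝓝 0) := by
    intro a
    obtain ⟨C, hC⟩ := hb (a ⊓ U)
    have h1 : Tendsto (fun i : ℕ => |C| * (i : ℝ)⁻¹) atTop (𝓝 0) := by
      have := (tendsto_inv_atTop_nhds_zero_nat (𝕜 := ℝ)).const_mul |C|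
      rwa [mul_zero] at this
    apply squeeze_zero_norm' _ h1
    filter_upwards [eventually_ge_atTop 1] with i hi
    rw [Real.norm_eq_abs, hθabs]
    have hi' : (1 : ℝ) ≤ i := by exact_mod_cast hi
    have h2 : (2 * K i)⁻¹ ≤ (i : ℝ)⁻¹ := by
      apply inv_anti₀ (by linarith)
      linarith [hK1 i]
    have h3 : |μ (nn i) (a ⊓ U)| ≤ |C| := (hC _).trans (le_abs_self _)
    calc (2 * K i)⁻¹ * |μ (nn i) (a ⊓ U)| ≤ (i : ℝ)⁻¹ * |C| :=
          mul_le_mul h2 h3 (abs_nonneg _) (by positivity)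
      _ = |C| * (i : ℝ)⁻¹ := mul_comm _ _
  have hLw : ∀ f, Tendsto (fun k => L k f) atTop (𝓝 0) := by
    apply hTC A L hL2
    intro a
    simp only [hL1]
    exact hθ0 a
  have hLG : ∀ Φ : (C(St A, ℝ) →L[ℝ] ℝ) →L[ℝ] ℝ, Tendsto (fun n => Φ (L n)) atTop (𝓝 0) := by
    intro Φ
    have := hG L 0 (by simpa using hLw) Φ
    simpa using this
  -- elements with large variation
  obtain ⟨i0, hi0⟩ : ∃ i0 : ℕ, ∀ i, i0 ≤ i → |θ i U| < 1 / 4 := by
    have h1 := (hθ0 U).abs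
    rw [abs_zero] at h1
    have h2 := h1.eventually (gt_mem_nhds (show (0 : ℝ) < 1 / 4 by norm_num))
    exact eventually_atTop.mp h2
  have hclaim : ∀ i, i0 ≤ i → ∃ e, e ≤ U ∧ AjSm μ e ∧ ¬ VarLE (θ i) e (1 / 8) := by
    intro i hi
    classical
    have h1 : ∃ s : Finset A, (∀ a ∈ s, a ≤ U) ∧ (∀ a ∈ s, ∀ b ∈ s, a ≠ b → Disjoint a b) ∧
        1 / 2 < ∑ a ∈ s, |θ i a| := by
      have h2 := hK2 i
      unfold VarLE at h2
      push Not at h2
      obtain ⟨s, hs, hd, hlt⟩ := h2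
      refine ⟨s, hs, hd, ?_⟩
      have h3 : ∑ a ∈ s, |θ i a| = (2 * K i)⁻¹ * ∑ a ∈ s, |μ (nn i) a| := by
        rw [Finset.mul_sum]
        apply Finset.sum_congr rfl
        intro a ha
        rw [hθabs, inf_eq_left.mpr (hs a ha)]
      rw [h3]
      have h4 : (2 * K i)⁻¹ * K i < (2 * K i)⁻¹ * ∑ a ∈ s, |μ (nn i) a| :=
        mul_lt_mul_of_pos_left hlt (hpos i)
      have h5 : (2 * K i)⁻¹ * K i = 1 / 2 := by
        have := (hK0 i).ne'
        field_simp
      linarith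
    obtain ⟨s, hs, hd, hlt⟩ := h1
    by_cases hall : ∀ a ∈ s, AjSm μ a
    · refine ⟨s.sup id, Finset.sup_le fun a ha => hs a ha, aj_sm_fin hm s hall, fun hv => ?_⟩
      have := hv s (fun a ha => Finset.le_sup (f := id) ha) hd
      linarith
    · push Not at hall
      obtain ⟨c, hc, hcl⟩ := hall
      have hsm : AjSm μ (U \ c) := (hcon' c (hs c hc)).resolve_left hcl
      refine ⟨U \ c, sdiff_le, hsm, fun hv => ?_⟩
      have h2 : ∑ a ∈ s.erase c, |θ i a| ≤ 1 / 8 := by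
        apply hv
        · intro a ha
          rw [Finset.mem_erase] at ha
          exact le_sdiff.mpr ⟨hs a ha.2, (hd a ha.2 c hc ha.1)⟩
        · intro a ha b hb hab
          rw [Finset.mem_erase] at ha hb
          exact hd a ha.2 b hb.2 hab
      have h3 : |θ i (U \ c)| ≤ 1 / 8 := by
        have := hv {U \ c} (by simp) (by
          intro a ha b hb hab
          rw [Finset.mem_singleton] at ha hb
          exact absurd (ha.trans hb.symm) hab)
        simpa using this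
      have h4 : θ i U = θ i c + θ i (U \ c) := by
        have h5 := (hθm i).1 c (U \ c) disjoint_sdiff_self_right
        rw [sup_sdiff_cancel_right (hs c hc)] at h5
        exact h5
      have h5 : |θ i c| ≤ |θ i U| + |θ i (U \ c)| := by
        have h6 : θ i c = θ i U - θ i (U \ c) := by linarith
        rw [h6]
        exact abs_sub _ _
      have h6 := hi0 i hi
      have h7 := Finset.add_sum_erase s (fun a => |θ i a|) hc
      linarith
  -- the subsequence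
  let P : ℕ × A → Prop := fun p => i0 ≤ p.1 ∧ p.2 ≤ U ∧ AjSm μ p.2 ∧ VarLE (θ p.1) p.2 (1 / 16)
  have hstep : ∀ p : {p : ℕ × A // P p}, ∃ q : {p : ℕ × A // P p} × A,
      q.2 ≤ U ∧ ¬ VarLE (θ p.1.1) q.2 (1 / 8) ∧ p.1.1 < q.1.1.1 ∧ q.1.1.2 = p.1.2 ⊔ q.2 := by
    rintro ⟨⟨i, E⟩, h1, h2, h3, h4⟩
    obtain ⟨e, he1, he2, he3⟩ := hclaim i h1
    have h5 : AjSm μ (E ⊔ e) := aj_sm_sup hm h3 he2
    have h6 : E ⊔ e ≤ U := sup_le h2 he1
    obtain ⟨i1, hi1⟩ := hsmall (E ⊔ e) h6 h5 (1 / 16) (by norm_num)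
    refine ⟨⟨⟨⟨max i1 (i + 1), E ⊔ e⟩, ?_, h6, h5, hi1 _ (le_max_left _ _)⟩, e⟩, he1, he3, ?_, rfl⟩
    · exact h1.trans ((Nat.le_succ i).trans (le_max_right _ _))
    · exact lt_of_lt_of_le (Nat.lt_succ_self i) (le_max_right _ _)
  choose F hF1 hF2 hF3 hF4 using hstep
  let x0 : {p : ℕ × A // P p} := ⟨⟨i0, ⊥⟩, le_refl _, bot_le, aj_sm_bot hm, by
    obtain ⟨C, hC⟩ := aj_sm_bot (A := A) hm
    intro s hs _
    have h0 : ∑ a ∈ s, |θ i0 a| = 0 := by
      apply Finset.sum_eq_zero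
      intro a ha
      have : a = ⊥ := le_bot_iff.mp (hs a ha)
      rw [this, aj_bot (hθm i0), abs_zero]
    rw [h0]
    norm_num⟩
  let w : ℕ → {p : ℕ × A // P p} := fun n => Nat.rec x0 (fun _ p => (F p).1) n
  have hw : ∀ n, w (n + 1) = (F (w n)).1 := fun n => rfl
  let ix : ℕ → ℕ := fun n => (w n).1.1
  let EE : ℕ → A := fun n => (w n).1.2
  let ee : ℕ → A := fun n => (F (w n)).2 \ EE n
  have hix : StrictMono ix := by
    apply strictMono_nat_of_lt_succ
    intro n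
    show (w n).1.1 < (w (n + 1)).1.1
    rw [hw]
    exact hF3 (w n)
  have hEE : ∀ n, EE (n + 1) = EE n ⊔ (F (w n)).2 := by
    intro n
    show (w (n + 1)).1.2 = _
    rw [hw]
    exact hF4 (w n)
  have hEEm : Monotone EE := by
    apply monotone_nat_of_le_succ
    intro n
    rw [hEE]
    exact le_sup_left
  have hee : ∀ n, ¬ VarLE (θ (ix n)) (ee n) (1 / 16) := by
    intro n h
    apply hF2 (w n)
    have h1 : VarLE (θ (ix n)) (EE n) (1 / 16) := (w n).2.2.2.2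
    have h2 := aj_sup (hθm (ix n)) h1 h
    apply aj_mono _ _ h2
    · show (F (w n)).2 ≤ EE n ⊔ (F (w n)).2 \ EE n
      rw [sup_sdiff_self]
      exact le_sup_right
    · norm_num
  have hdis : ∀ m n, m < n → Disjoint (ee m) (ee n) := by
    intro m n hmn
    have h1 : ee m ≤ EE n := by
      calc ee m ≤ (F (w m)).2 := sdiff_le
        _ ≤ EE (m + 1) := by
          rw [hEE]
          exact le_sup_right
        _ ≤ EE n := hEEm hmn
    exact disjoint_sdiff_self_right.mono_left h1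
  have hdis' : ∀ m n, m ≠ n → Disjoint (ee m) (ee n) := by
    intro m n hmn
    rcases lt_or_gt_of_ne hmn with h | h
    · exact hdis m n h
    · exact (hdis n m h).symm
  -- test functions
  choose g hg1 hg2 hg3 hg4 using fun n : ℕ => hVW A (θ (ix n)) (ee n) (1 / 16) (hee n)
  have hgn : ∀ (s : Finset ℕ) (ε : ℕ → ℝ), (∀ k, |ε k| ≤ 1) → ‖∑ k ∈ s, ε k • g k‖ ≤ 1 := by
    intro s ε hε
    rw [ContinuousMap.norm_le _ zero_le_one]
    intro p
    rw [ContinuousMap.coe_sum, Finset.sum_apply]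
    simp only [ContinuousMap.coe_smul, Pi.smul_apply, smul_eq_mul]
    have hle : ∀ k, ‖ε k * g k p‖ ≤ 1 := by
      intro k
      rw [norm_mul]
      calc ‖ε k‖ * ‖g k p‖ ≤ 1 * 1 :=
            mul_le_mul (hε k) ((ContinuousMap.norm_coe_le_norm (g k) p).trans (hg1 k))
              (norm_nonneg _) zero_le_one
        _ = 1 := one_mul 1
    by_cases hex : ∃ k ∈ s, p.1 (ee k) = true
    · obtain ⟨k, hk, hpk⟩ := hex
      rw [Finset.sum_eq_single_of_mem k hk]
      · exact hle k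
      · intro l _ hlk
        have h1 : p.1 (ee l) = false := by
          by_contra h
          rw [Bool.not_eq_false] at h
          have h2 : p.1 (ee l ⊓ ee k) = true := by
            rw [p.2.2.1, h, hpk]
            rfl
          rw [(hdis' l k hlk).eq_bot] at h2
          have h3 : p.1 (⊤ᶜ) = !(p.1 ⊤) := p.2.2.2 ⊤
          rw [compl_top, p.2.1, h2] at h3
          simp at h3
        rw [hg2 l p h1, mul_zero]
    · push Not at hex
      rw [Finset.sum_eq_zero]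
      · simp
      · intro k hk
        rw [hg2 k p (by simpa using hex k hk), mul_zero]
  obtain ⟨hN1, hN2⟩ := hNW C(St A, ℝ) g hgn
  have hlim := hSC (fun r j => L (ix r) (g j)) (fun r => (hN1 (L (ix r))).1)
    (fun r => (hN1 (L (ix r))).2.trans (hL2 (ix r))) (by
      intro S
      obtain ⟨Φ, hΦ⟩ := hN2 S
      have h1 := (hLG Φ).comp hix.tendsto_atTop
      have h2 : (fun r => ∑' j, S.indicator (fun j => L (ix r) (g j)) j) =
          (fun n => Φ (L n)) ∘ ix := by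
        funext r
        simp only [Function.comp_apply, hΦ]
      rw [h2]
      exact h1)
  have hbig : ∀ r, 1 / 16 < L (ix r) (g r) := by
    intro r
    apply hg3 r (L (ix r))
    intro a _
    exact hL1 (ix r) a
  have hev := hlim.eventually (gt_mem_nhds (show (0 : ℝ) < 1 / 16 by norm_num))
  obtain ⟨r, hr⟩ := hev.exists
  exact absurd hr (not_lt.mpr (hbig r).le)

end H95.GN
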