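import Pool.Agent.H95.GN.Targets

set_option autoImplicit false

open Filter Topology Set

namespace H95.GN

universe u

namespace ATaux

variable {A : Type u} [BooleanAlgebra A]

/-- finitely many elements below b -/
def Sm (b : A) : Prop := {c : A | c ≤ b}.Finite

lemma Sm.mono {b b' : A} (h : Sm b') (hb : b ≤ b') : Sm b :=
  Set.Finite.subset h (fun _ hc => le_trans hc hb)

lemma Sm.sup {b b' : A} (h : Sm b) (h' : Sm b') : Sm (b ⊔ b') := by
  unfold Sm at *
  refine Set.Finite.of_finite_image (f := fun c => (c ⊓ b, c ⊓ b')) ?_ ?_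
  · refine Set.Finite.subset (h.prod h') ?_
    rintro _ ⟨c, _, rfl⟩
    exact ⟨inf_le_right, inf_le_right⟩
  · intro c hc d hd hcd
    simp only [Prod.mk.injEq] at hcd
    have hc' : c = c ⊓ (b ⊔ b') := (inf_eq_left.mpr hc).symm
    have hd' : d = d ⊓ (b ⊔ b') := (inf_eq_left.mpr hd).symm
    rw [hc', hd', inf_sup_left, inf_sup_left, hcd.1, hcd.2]

lemma Sm.bot : Sm (⊥ : A) := by
  unfold Sm
  refine Set.Finite.subset (Set.finite_singleton (⊥ : A)) ?_
  intro c hc
  exact le_bot_iff.mp hc

lemma Sm.atom {c : A} (h : IsAtom c) : Sm c := by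
  unfold Sm
  refine Set.Finite.subset (Set.toFinite ({⊥, c} : Set A)) ?_
  intro d hd
  rcases h.le_iff.mp hd with h1 | h1
  · exact Or.inl h1
  · exact Or.inr h1

lemma exists_atom {b : A} (h : Sm b) (hb : b ≠ ⊥) : ∃ c, IsAtom c ∧ c ≤ b := by
  have hfin : ({c : A | c ≤ b ∧ c ≠ ⊥}).Finite := Set.Finite.subset h (fun c hc => hc.1)
  obtain ⟨c, hc⟩ := hfin.exists_minimal ⟨b, le_refl b, hb⟩
  refine ⟨c, ⟨hc.prop.2, ?_⟩, hc.prop.1⟩
  intro d hd
  by_contra hne
  have := hc.le_of_le (y := d) ⟨hd.le.trans hc.prop.1, hne⟩ hd.le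
  exact absurd hd (not_lt_of_ge this)

lemma atom_le_compl {c b : A} (h : IsAtom c) : c ≤ bᶜ ↔ ¬ c ≤ b := by
  constructor
  · intro h1 h2
    exact h.1 (le_bot_iff.mp (by
      have := le_inf h2 h1
      rwa [inf_compl_self] at this))
  · intro h1
    rw [le_compl_iff_disjoint_right]
    rw [disjoint_iff]
    rcases h.le_iff.mp (inf_le_left : c ⊓ b ≤ c) with h2 | h2
    · exact h2
    · exact absurd (inf_eq_left.mp h2) h1

end ATaux

open ATaux

theorem pf_AT : T_AT.{u} := by
  intro A _ a ha hdich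
  classical
  have hna : ¬ Sm a := ha
  have hd : ∀ b, b ≤ a → Sm b ∨ Sm (a \ b) := hdich
  -- the atoms below a
  have hAt : {c : A | IsAtom c ∧ c ≤ a}.Infinite := by
    intro hfin
    have hs : Sm (hfin.toFinset.sup id) := by
      apply Finset.sup_induction Sm.bot (fun _ h1 _ h2 => h1.sup h2)
      intro c hc
      exact Sm.atom (hfin.mem_toFinset.mp hc).1
    set s := hfin.toFinset.sup id with hsdef
    have hnr : ¬ Sm (a \ s) := by
      intro hr
      apply hna
      refine (hs.sup hr).mono ?_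
      rw [sup_sdiff_self_right]
      exact le_sup_right
    have hnoat : ∀ c, IsAtom c → c ≤ a \ s → False := by
      intro c hc hle
      have h1 : c ≤ s := Finset.le_sup (f := id)
        (hfin.mem_toFinset.mpr ⟨hc, hle.trans sdiff_le⟩)
      have h2 : c ≤ s ⊓ (a \ s) := le_inf h1 hle
      rw [inf_sdiff_self_right] at h2
      exact hc.1 (le_bot_iff.mp h2)
    have hr0 : a \ s ≠ ⊥ := by
      intro h0
      apply hnr
      rw [h0]
      exact Sm.bot
    have hnotat : ¬ IsAtom (a \ s) := fun h1 => hnoat _ h1 le_rfl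
    have hex : ∃ b, b < a \ s ∧ b ≠ ⊥ := by
      by_contra hcon
      push Not at hcon
      exact hnotat ⟨hr0, fun b hb => hcon b hb⟩
    obtain ⟨b, hb, hb0⟩ := hex
    rcases hd b (hb.le.trans sdiff_le) with h1 | h1
    · obtain ⟨c, hc, hcb⟩ := exists_atom h1 hb0
      exact hnoat c hc (hcb.trans hb.le)
    · have h2 : Sm ((a \ s) \ b) := h1.mono (sdiff_le_sdiff_right sdiff_le)
      have h3 : (a \ s) \ b ≠ ⊥ := by
        intro h3
        rw [sdiff_eq_bot_iff] at h3
        exact absurd hb (not_lt_of_ge h3)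
      obtain ⟨c, hc, hcb⟩ := exists_atom h2 h3
      exact hnoat c hc (hcb.trans sdiff_le)
  let c : ℕ → A := fun n => (hAt.natEmbedding _ n).1
  have hc : ∀ n, IsAtom (c n) ∧ c n ≤ a := fun n => (hAt.natEmbedding _ n).2
  have hcinj : Function.Injective c := fun m n h =>
    (hAt.natEmbedding _).injective (Subtype.ext h)
  have hcle : ∀ m n, c m ≤ c n ↔ m = n := by
    intro m n
    constructor
    · intro h
      rcases (hc n).1.le_iff.mp h with h1 | h1
      · exact absurd h1 (hc m).1.1
      · exact hcinj h1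
    · rintro rfl; exact le_rfl
  -- the points
  have hp : ∀ n, IsHom (fun b : A => decide (c n ≤ b)) := by
    intro n
    refine ⟨by simp, fun b b' => by simp [le_inf_iff], fun b => ?_⟩
    simp only [atom_le_compl (hc n).1]
    by_cases h : c n ≤ b <;> simp [h]
  have hq : IsHom (fun b : A => decide (¬ Sm (b ⊓ a))) := by
    refine ⟨by simpa using hna, fun b b' => ?_, fun b => ?_⟩
    · by_cases h1 : Sm (b ⊓ a)
      · have h2 : Sm (b ⊓ b' ⊓ a) := h1.mono (inf_le_inf_right _ inf_le_left)
        simp [h1, h2]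
      · by_cases h1' : Sm (b' ⊓ a)
        · have h2 : Sm (b ⊓ b' ⊓ a) := h1'.mono (inf_le_inf_right _ inf_le_right)
          simp [h1', h2]
        · have h2 : ¬ Sm (b ⊓ b' ⊓ a) := by
            intro h2
            apply hna
            have e1 : Sm (a \ (b ⊓ a)) := (hd _ inf_le_right).resolve_left h1
            have e2 : Sm (a \ (b' ⊓ a)) := (hd _ inf_le_right).resolve_left h1'
            refine ((h2.sup e1).sup e2).mono ?_
            rw [sdiff_inf_self_right, sdiff_inf_self_right, sup_assoc, ← sdiff_inf]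
            calc a = (a ⊓ (b ⊓ b')) ⊔ (a \ (b ⊓ b')) := (by rw [_root_.sdiff_eq, ← inf_sup_left, sup_compl_eq_top, inf_top_eq])
              _ ≤ _ := sup_le_sup_right (by rw [inf_comm]) _
          simp [h1, h1', h2]
    · have h3 : bᶜ ⊓ a = a \ (b ⊓ a) := by
        rw [sdiff_inf_self_right, _root_.sdiff_eq, inf_comm]
      by_cases h1 : Sm (b ⊓ a)
      · have h2 : ¬ Sm (bᶜ ⊓ a) := by
          intro h2
          apply hna
          refine (h1.sup h2).mono ?_
          rw [← inf_sup_right, sup_compl_eq_top, top_inf_eq]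
        simp [h1, h2]
      · have h2 : Sm (bᶜ ⊓ a) := by
          rw [h3]
          exact (hd _ inf_le_right).resolve_left h1
        simp [h1, h2]
  refine ⟨c, fun n => ⟨_, hp n⟩, ⟨_, hq⟩, ?_, ?_, ?_, ?_⟩
  · intro m n
    simp only [hcle]
  · intro m n hmn
    rw [disjoint_iff]
    rcases (hc m).1.le_iff.mp (inf_le_left : c m ⊓ c n ≤ c m) with h2 | h2
    · exact h2
    · exact absurd ((hcle m n).mp (inf_eq_left.mp h2)) hmn
  · intro n
    have : Sm (c n ⊓ a) := (Sm.atom (hc n).1).mono inf_le_left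
    simp [this]
  · intro b
    by_cases h1 : Sm (b ⊓ a)
    · have hfin : {n | c n ≤ b ⊓ a}.Finite := by
        refine Set.Finite.of_finite_image (f := c) (Set.Finite.subset h1 ?_)
          (fun _ _ _ _ h => hcinj h)
        rintro _ ⟨n, hn, rfl⟩
        exact hn
      have := hfin.compl_mem_cofinite
      rw [Nat.cofinite_eq_atTop] at this
      filter_upwards [this] with n hn
      have : ¬ c n ≤ b := fun h => hn (le_inf h (hc n).2)
      simp [this, h1]
    · have h2 : Sm (a \ (b ⊓ a)) := (hd _ inf_le_right).resolve_left h1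
      have hfin : {n | c n ≤ a \ (b ⊓ a)}.Finite := by
        refine Set.Finite.of_finite_image (f := c) (Set.Finite.subset h2 ?_)
          (fun _ _ _ _ h => hcinj h)
        rintro _ ⟨n, hn, rfl⟩
        exact hn
      have := hfin.compl_mem_cofinite
      rw [Nat.cofinite_eq_atTop] at this
      filter_upwards [this] with n hn
      have h3 : c n ≤ b := by
        by_contra h
        apply hn
        show c n ≤ a \ (b ⊓ a)
        rw [sdiff_inf_self_right, _root_.sdiff_eq]
        exact le_inf (hc n).2 ((atom_le_compl (hc n).1).mpr h)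
      simp [h3, h1]

end H95.GN
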