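import Pool.Agent.H95.GN.Targets

open Filter Topology Set

namespace H95.GN

universe u

theorem size_bound (hYV : T_YV.{u}) (hNM : T_NM.{u}) (hDI : T_DI.{u}) (hAT : T_AT.{u})
    (hG1 : T_G1.{u}) (hN1 : T_N1.{u}) (hCV : T_CV.{u})
    (A : Type u) [BooleanAlgebra A] [Infinite A] (h : HasGrothendieck A ∨ HasNikodym A) :
    ∃ X : Set (ℕ → Bool), ¬ IsMeagre X ∧ Cardinal.lift.{u} (Cardinal.mk X) ≤ Cardinal.mk A := by
  by_cases hs : ∀ a : A, {b | b ≤ a}.Infinite →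
      ∃ b, b ≤ a ∧ {c | c ≤ b}.Infinite ∧ {c | c ≤ a \ b}.Infinite
  · obtain ⟨π, hπ, hπs⟩ := hDI A hs
    have key : ∃ (φ : A → ℕ → Finset ℕ) (h : ℕ → ℕ),
        (∀ i k, (φ i k).card ≤ h k) ∧ (∀ x : ℕ → ℕ, ∃ i, {k | x k ∈ φ i k}.Infinite) := by
      rcases h with h | h
      · exact hG1 A π hπ hπs h
      · exact hN1 A π hπ hπs h
    obtain ⟨φ, w, h1, h2⟩ := key
    obtain ⟨f, hf⟩ := hYV A φ w h1 h2
    exact hNM A f hf
  · exfalso
    push Not at hs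
    obtain ⟨a, ha, hb⟩ := hs
    have hb' : ∀ b, b ≤ a → {c | c ≤ b}.Finite ∨ {c | c ≤ a \ b}.Finite := by
      intro b hba
      by_cases h1 : {c | c ≤ b}.Infinite
      · exact Or.inr (hb b hba h1)
      · exact Or.inl (Set.not_infinite.mp h1)
    obtain ⟨c, p, q, h1, h2, h3, h4⟩ := hAT A a ha hb'
    obtain ⟨h5, h6⟩ := hCV A c p q h1 h2 h3 h4
    rcases h with h | h
    · exact h5 h
    · exact h6 h

end H95.GN
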