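import Pool.Agent.H95.GN.Targets

open Filter Topology Set MeasureTheory
open scoped ENNReal symmDiff

namespace H95.GN

universe u

namespace BE

variable {K : Type u} [TopologicalSpace K]

section
variable (π : K → (ℕ → Bool)) (hπ : Continuous π)

lemma rad_apply (j : ℕ) (x : K) : rad π hπ j x = if π x j = true then -1 else 1 := rfl

lemma rad_mul_self (j : ℕ) : rad π hπ j * rad π hπ j = 1 := by
  ext x
  simp only [ContinuousMap.mul_apply, rad_apply, ContinuousMap.one_apply]
  split_ifs <;> norm_num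

/-- indicator of `π x k = false` -/
noncomputable def e (k : ℕ) : C(K, ℝ) := (1 / 2 : ℝ) • (1 + rad π hπ k)

/-- indicator of `π x k = true` -/
noncomputable def d (k : ℕ) : C(K, ℝ) := (1 / 2 : ℝ) • (1 - rad π hπ k)

lemma e_apply (k : ℕ) (x : K) : e π hπ k x = if π x k = true then 0 else 1 := by
  simp only [e, ContinuousMap.smul_apply, ContinuousMap.add_apply, ContinuousMap.one_apply,
    rad_apply, smul_eq_mul]
  split_ifs <;> norm_num

lemma d_apply (k : ℕ) (x : K) : d π hπ k x = if π x k = true then 1 else 0 := by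
  simp only [d, ContinuousMap.smul_apply, ContinuousMap.sub_apply, ContinuousMap.one_apply,
    rad_apply, smul_eq_mul]
  split_ifs <;> norm_num

/-- product of the first indicators -/
noncomputable def P (k : ℕ) : C(K, ℝ) := ∏ i ∈ Finset.range k, e π hπ i

lemma P_zero : P π hπ 0 = 1 := by simp [P]

lemma P_succ (k : ℕ) : P π hπ (k + 1) = P π hπ k * e π hπ k := by
  simp [P, Finset.prod_range_succ]

/-- indicator of the set where the first `true` is at `k` -/
noncomputable def U (k : ℕ) : C(K, ℝ) := P π hπ k * d π hπ k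

lemma U_eq (k : ℕ) : U π hπ k = P π hπ k - P π hπ (k + 1) := by
  rw [P_succ, U]
  ext x
  simp only [ContinuousMap.mul_apply, ContinuousMap.sub_apply, e_apply, d_apply]
  split_ifs <;> ring

lemma P_apply_mem (k : ℕ) (x : K) : P π hπ k x = 0 ∨ P π hπ k x = 1 := by
  induction k with
  | zero => right; simp [P_zero]
  | succ k ih =>
    rw [P_succ, ContinuousMap.mul_apply, e_apply]
    split_ifs
    · left; simp
    · simpa using ih

lemma U_apply_mem (k : ℕ) (x : K) : U π hπ k x = 0 ∨ U π hπ k x = 1 := by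
  rw [U, ContinuousMap.mul_apply, d_apply]
  split_ifs
  · simpa using P_apply_mem π hπ k x
  · left; simp

lemma U_nonneg (k : ℕ) (x : K) : 0 ≤ U π hπ k x := by
  rcases U_apply_mem π hπ k x with h | h <;> rw [h]
  norm_num

lemma U_mul_self (k : ℕ) : U π hπ k * U π hπ k = U π hπ k := by
  ext x
  rw [ContinuousMap.mul_apply]
  rcases U_apply_mem π hπ k x with h | h <;> rw [h] <;> norm_num

lemma P_zero_of_le {k l : ℕ} (h : k ≤ l) (x : K) (hx : P π hπ k x = 0) : P π hπ l x = 0 := by
  induction l, h using Nat.le_induction with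
  | base => exact hx
  | succ l _ ih => rw [P_succ, ContinuousMap.mul_apply, ih, zero_mul]

lemma U_mul_lt {k l : ℕ} (h : k < l) : U π hπ k * U π hπ l = 0 := by
  ext x
  rw [ContinuousMap.mul_apply, ContinuousMap.zero_apply]
  by_cases hx : π x k = true
  · have h1 : P π hπ (k + 1) x = 0 := by
      rw [P_succ, ContinuousMap.mul_apply, e_apply, if_pos hx, mul_zero]
    have h2 := P_zero_of_le π hπ (Nat.succ_le_of_lt h) x h1
    rw [U, U, ContinuousMap.mul_apply, ContinuousMap.mul_apply, h2]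
    ring
  · rw [U, ContinuousMap.mul_apply, d_apply, if_neg hx]
    ring

lemma U_mul_ne {k l : ℕ} (h : k ≠ l) : U π hπ k * U π hπ l = 0 := by
  rcases lt_or_gt_of_ne h with h | h
  · exact U_mul_lt π hπ h
  · rw [mul_comm]; exact U_mul_lt π hπ h

lemma sum_U (n : ℕ) (x : K) : ∑ k ∈ Finset.range n, U π hπ k x = 1 - P π hπ n x := by
  induction n with
  | zero => simp [P_zero]
  | succ n ih =>
    rw [Finset.sum_range_succ, ih, U_eq, ContinuousMap.sub_apply]
    ring

lemma sum_U_le (s : Finset ℕ) (x : K) : ∑ k ∈ s, U π hπ k x ≤ 1 := by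
  obtain ⟨n, hn⟩ := s.exists_nat_subset_range
  calc ∑ k ∈ s, U π hπ k x ≤ ∑ k ∈ Finset.range n, U π hπ k x :=
        Finset.sum_le_sum_of_subset_of_nonneg hn (fun i _ _ => U_nonneg π hπ i x)
    _ = 1 - P π hπ n x := sum_U π hπ n x
    _ ≤ 1 := by
        rcases P_apply_mem π hπ n x with h | h <;> rw [h] <;> norm_num

end

section
variable [CompactSpace K] (π : K → (ℕ → Bool)) (hπ : Continuous π) (Λ : C(K, ℝ) →L[ℝ] ℝ)

lemma lam_P (h1 : Λ 1 = 1) (h0 : ∀ F : Finset ℕ, F.Nonempty → Λ (∏ j ∈ F, rad π hπ j) = 0)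
    (k : ℕ) : ∀ F : Finset ℕ, (∀ j ∈ F, k ≤ j) →
      Λ (P π hπ k * ∏ j ∈ F, rad π hπ j) = if F = ∅ then ((2 : ℝ) ^ k)⁻¹ else 0 := by
  induction k with
  | zero =>
    intro F _
    rw [P_zero, one_mul]
    split_ifs with hF
    · rw [hF, Finset.prod_empty, h1]; norm_num
    · exact h0 F (Finset.nonempty_iff_ne_empty.2 hF)
  | succ k ih =>
    intro F hF
    have hk : k ∉ F := fun h => by have := hF k h; omega
    have h2 : P π hπ (k + 1) * ∏ j ∈ F, rad π hπ j = (1 / 2 : ℝ) •
        (P π hπ k * ∏ j ∈ F, rad π hπ j + P π hπ k * ∏ j ∈ insert k F, rad π hπ j) := by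
      rw [Finset.prod_insert hk, P_succ, e]
      simp only [smul_mul_assoc, mul_smul_comm]
      congr 1
      ring
    rw [h2, map_smul, map_add, ih F (fun j hj => by have := hF j hj; omega),
      ih (insert k F) (fun j hj => by
        rcases Finset.mem_insert.1 hj with rfl | hj
        · exact le_rfl
        · have := hF j hj; omega), if_neg (Finset.insert_ne_empty k F)]
    split_ifs
    · rw [smul_eq_mul, pow_succ, mul_inv]; ring
    · simp

lemma lam_U (h1 : Λ 1 = 1) (h0 : ∀ F : Finset ℕ, F.Nonempty → Λ (∏ j ∈ F, rad π hπ j) = 0)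
    (k : ℕ) (F : Finset ℕ) (hF : ∀ j ∈ F, k + 1 ≤ j) :
      Λ (U π hπ k * ∏ j ∈ F, rad π hπ j) = if F = ∅ then ((2 : ℝ) ^ (k + 1))⁻¹ else 0 := by
  have hk : k ∉ F := fun h => by have := hF k h; omega
  have h2 : U π hπ k * ∏ j ∈ F, rad π hπ j = (1 / 2 : ℝ) •
      (P π hπ k * ∏ j ∈ F, rad π hπ j - P π hπ k * ∏ j ∈ insert k F, rad π hπ j) := by
    rw [Finset.prod_insert hk, U, d]
    simp only [smul_mul_assoc, mul_smul_comm]
    congr 1
    ring
  rw [h2, map_smul, map_sub, lam_P π hπ Λ h1 h0 k F (fun j hj => by have := hF j hj; omega),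
    lam_P π hπ Λ h1 h0 k (insert k F) (fun j hj => by
      rcases Finset.mem_insert.1 hj with rfl | hj
      · exact le_rfl
      · have := hF j hj; omega), if_neg (Finset.insert_ne_empty k F)]
  split_ifs
  · rw [smul_eq_mul, pow_succ, mul_inv]; ring
  · simp

/-- the functionals -/
noncomputable def nu (k j : ℕ) : C(K, ℝ) →L[ℝ] ℝ :=
  ((2 : ℝ) ^ (k + 1)) • (Λ.comp (ContinuousLinearMap.mul ℝ C(K, ℝ)
    (U π hπ k * rad π hπ (k + 1 + j))))

lemma nu_apply (k j : ℕ) (f : C(K, ℝ)) :
    nu π hπ Λ k j f = (2 : ℝ) ^ (k + 1) * Λ (U π hπ k * rad π hπ (k + 1 + j) * f) := rfl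

end

end BE

open BE in
theorem pf_BE (hLA : T_LA.{u}) : T_BE.{u} := by
  intro K _ _ π hπ hs
  obtain ⟨Λ, hpos, h1, h0⟩ := hLA K π hπ hs
  have hmono : ∀ f g : C(K, ℝ), (∀ x, f x ≤ g x) → Λ f ≤ Λ g := by
    intro f g h
    have h2 := hpos (g - f) (fun x => by
      rw [ContinuousMap.sub_apply]; linarith [h x])
    rw [map_sub] at h2
    linarith
  have hU : ∀ k, Λ (U π hπ k) = ((2 : ℝ) ^ (k + 1))⁻¹ := by
    intro k
    have h2 := lam_U π hπ Λ h1 h0 k ∅ (by simp)
    simpa using h2
  have hp : ∀ k : ℕ, (0 : ℝ) < (2 : ℝ) ^ (k + 1) := fun k => by positivity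
  have hUU : ∀ k, (2 : ℝ) ^ (k + 1) * Λ (U π hπ k) = 1 := by
    intro k
    rw [hU, mul_inv_cancel₀ (hp k).ne']
  have hr : ∀ (j : ℕ) (x : K), |rad π hπ j x| = 1 := by
    intro j x
    rw [rad_apply]; split_ifs <;> simp
  refine ⟨nu π hπ Λ, fun k j => U π hπ k * rad π hπ (k + 1 + j), ?_, ?_, ?_, ?_, ?_⟩
  · intro k j
    refine ContinuousLinearMap.opNorm_le_bound _ zero_le_one fun f => ?_
    rw [nu_apply, one_mul, Real.norm_eq_abs, abs_le]
    have hb : ∀ x, |(U π hπ k * rad π hπ (k + 1 + j) * f) x| ≤ ‖f‖ * U π hπ k x := by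
      intro x
      rw [ContinuousMap.mul_apply, ContinuousMap.mul_apply, abs_mul, abs_mul, hr, mul_one,
        abs_of_nonneg (U_nonneg π hπ k x), mul_comm]
      exact mul_le_mul_of_nonneg_right (f.norm_coe_le_norm x) (U_nonneg π hπ k x)
    have h3 : Λ (U π hπ k * rad π hπ (k + 1 + j) * f) ≤ ‖f‖ * ((2 : ℝ) ^ (k + 1))⁻¹ := by
      have h6 : ‖f‖ * Λ (U π hπ k) = Λ (‖f‖ • U π hπ k) := by rw [map_smul, smul_eq_mul]
      rw [← hU, h6]
      refine hmono _ _ fun x => ?_
      rw [ContinuousMap.smul_apply, smul_eq_mul]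
      exact (le_abs_self _).trans (hb x)
    have h4 : -(‖f‖ * ((2 : ℝ) ^ (k + 1))⁻¹) ≤ Λ (U π hπ k * rad π hπ (k + 1 + j) * f) := by
      have h6 : -(‖f‖ * Λ (U π hπ k)) = Λ (-(‖f‖ • U π hπ k)) := by
        rw [map_neg, map_smul, smul_eq_mul]
      rw [← hU, h6]
      refine hmono _ _ fun x => ?_
      rw [ContinuousMap.neg_apply, ContinuousMap.smul_apply, smul_eq_mul]
      have := neg_abs_le ((U π hπ k * rad π hπ (k + 1 + j) * f) x)
      have := hb x
      linarith
    have h5 : (2 : ℝ) ^ (k + 1) * (‖f‖ * ((2 : ℝ) ^ (k + 1))⁻¹) = ‖f‖ := by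
      field_simp
    constructor
    · calc -‖f‖ = (2 : ℝ) ^ (k + 1) * (-(‖f‖ * ((2 : ℝ) ^ (k + 1))⁻¹)) := by
            rw [mul_neg, h5]
        _ ≤ _ := mul_le_mul_of_nonneg_left h4 (hp k).le
    · calc _ ≤ (2 : ℝ) ^ (k + 1) * (‖f‖ * ((2 : ℝ) ^ (k + 1))⁻¹) :=
            mul_le_mul_of_nonneg_left h3 (hp k).le
        _ = ‖f‖ := h5
  · intro k j
    rw [nu_apply]
    have h2 : U π hπ k * rad π hπ (k + 1 + j) * (U π hπ k * rad π hπ (k + 1 + j)) =
        U π hπ k := by
      calc _ = (U π hπ k * U π hπ k) * (rad π hπ (k + 1 + j) * rad π hπ (k + 1 + j)) := by ring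
        _ = U π hπ k := by rw [U_mul_self, rad_mul_self, mul_one]
    rw [h2, hUU]
  · intro k k' j j' hk
    rw [nu_apply]
    have h2 : U π hπ k * rad π hπ (k + 1 + j) * (U π hπ k' * rad π hπ (k' + 1 + j')) = 0 := by
      calc _ = (U π hπ k * U π hπ k') * (rad π hπ (k + 1 + j) * rad π hπ (k' + 1 + j')) := by
            ring
        _ = 0 := by rw [U_mul_ne π hπ hk, zero_mul]
    rw [h2, map_zero, mul_zero]
  · intro x s ε hε
    rw [ContinuousMap.norm_le _ zero_le_one]
    intro p
    rw [ContinuousMap.coe_sum, Finset.sum_apply]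
    refine (norm_sum_le _ _).trans ?_
    refine (Finset.sum_le_sum fun k _ => ?_).trans (sum_U_le π hπ s p)
    rw [ContinuousMap.smul_apply, smul_eq_mul, ContinuousMap.mul_apply, Real.norm_eq_abs,
      abs_mul, abs_mul, hr, mul_one, abs_of_nonneg (U_nonneg π hπ k p)]
    calc |ε k| * U π hπ k p ≤ 1 * U π hπ k p :=
          mul_le_mul_of_nonneg_right (hε k) (U_nonneg π hπ k p)
      _ = U π hπ k p := one_mul _
  · intro k f hf F
    set c : ℕ → ℝ := fun j => nu π hπ Λ k j f with hc
    set R : ℕ → C(K, ℝ) := fun j => rad π hπ (k + 1 + j) with hR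
    set a : C(K, ℝ) := ∑ j ∈ F, c j • R j with ha
    set T : ℝ := (2 : ℝ) ^ (k + 1) with hT
    have hTp : 0 < T := hp k
    have hcj : ∀ j, T * Λ (U π hπ k * f * R j) = c j := by
      intro j
      rw [hc]
      simp only [nu_apply]
      rw [← hT]
      congr 2
      rw [hR]
      ring
    have hRR : ∀ i j, T * Λ (U π hπ k * R i * R j) = if i = j then 1 else 0 := by
      intro i j
      split_ifs with hij
      · subst hij
        rw [mul_assoc, hR]
        simp only [rad_mul_self, mul_one]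
        exact hUU k
      · have h2 := lam_U π hπ Λ h1 h0 k {k + 1 + i, k + 1 + j} (by
          intro l hl
          rcases Finset.mem_insert.1 hl with rfl | hl
          · omega
          · rw [Finset.mem_singleton] at hl; omega)
        rw [Finset.prod_pair (by omega), if_neg (Finset.insert_ne_empty _ _), ← mul_assoc] at h2
        rw [hR]
        simp only
        rw [h2, mul_zero]
    have h2 : 0 ≤ T * Λ (U π hπ k * ((f - a) * (f - a))) := by
      refine mul_nonneg hTp.le (hpos _ fun x => ?_)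
      rw [ContinuousMap.mul_apply, ContinuousMap.mul_apply]
      exact mul_nonneg (U_nonneg π hπ k x) (mul_self_nonneg _)
    have h3 : T * Λ (U π hπ k * (f * f)) ≤ 1 := by
      rw [← hUU k]
      refine mul_le_mul_of_nonneg_left (hmono _ _ fun x => ?_) hTp.le
      rw [ContinuousMap.mul_apply, ContinuousMap.mul_apply]
      have h4 : |f x| ≤ 1 := (f.norm_coe_le_norm x).trans hf
      have h5 : f x * f x ≤ 1 := by nlinarith [abs_le.1 h4]
      nlinarith [U_nonneg π hπ k x]
    have h4 : T * Λ (U π hπ k * f * a) = ∑ j ∈ F, c j ^ 2 := by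
      rw [ha, Finset.mul_sum, map_sum, Finset.mul_sum]
      refine Finset.sum_congr rfl fun j _ => ?_
      rw [mul_smul_comm, map_smul, smul_eq_mul]
      calc T * (c j * Λ (U π hπ k * f * R j)) = c j * (T * Λ (U π hπ k * f * R j)) := by ring
        _ = c j ^ 2 := by rw [hcj]; ring
    have h5 : T * Λ (U π hπ k * (a * a)) = ∑ j ∈ F, c j ^ 2 := by
      have h6 : U π hπ k * (a * a) = ∑ i ∈ F, ∑ j ∈ F, (c i * c j) • (U π hπ k * R i * R j) := by
        rw [ha, Finset.sum_mul_sum, Finset.mul_sum]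
        refine Finset.sum_congr rfl fun i _ => ?_
        rw [Finset.mul_sum]
        refine Finset.sum_congr rfl fun j _ => ?_
        rw [smul_mul_smul_comm, mul_smul_comm, mul_assoc]
      rw [h6, map_sum, Finset.mul_sum]
      refine Finset.sum_congr rfl fun i hi => ?_
      rw [map_sum, Finset.mul_sum]
      calc ∑ j ∈ F, T * Λ ((c i * c j) • (U π hπ k * R i * R j))
          = ∑ j ∈ F, if i = j then c i * c j else 0 := by
            refine Finset.sum_congr rfl fun j _ => ?_
            rw [map_smul, smul_eq_mul]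
            calc T * (c i * c j * Λ (U π hπ k * R i * R j))
                = c i * c j * (T * Λ (U π hπ k * R i * R j)) := by ring
              _ = _ := by rw [hRR]; split_ifs <;> ring
        _ = c i ^ 2 := by
            rw [Finset.sum_ite_eq, if_pos hi]; ring
    have h7 : U π hπ k * ((f - a) * (f - a)) =
        U π hπ k * (f * f) - (2 : ℝ) • (U π hπ k * f * a) + U π hπ k * (a * a) := by
      rw [two_smul]; ring
    rw [h7, map_add, map_sub, map_smul, smul_eq_mul] at h2
    have h8 : T * (Λ (U π hπ k * (f * f)) - 2 * Λ (U π hπ k * f * a) + Λ (U π hπ k * (a * a))) =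
        T * Λ (U π hπ k * (f * f)) - 2 * (T * Λ (U π hπ k * f * a)) +
          T * Λ (U π hπ k * (a * a)) := by ring
    rw [h8, h4, h5] at h2
    linarith

end H95.GN
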