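import Pool.Agent.H95.GN.Targets

open Filter Topology Set MeasureTheory
open scoped ENNReal symmDiff

namespace H95.GN

namespace BLaux

instance instLam : IsProbabilityMeasure lam := by
  unfold lam; infer_instance

lemma dn_nonneg (n : ℕ) (B : Set (ℕ → Bool)) : 0 ≤ dn n B := ENNReal.toReal_nonneg

lemma dn_compl (n : ℕ) (B : Set (ℕ → Bool)) : dn n Bᶜ = dn n B := by
  unfold dn
  congr 2
  ext x
  simp only [Set.mem_symmDiff, Set.mem_compl_iff, Set.mem_preimage]
  tauto

lemma dn_le (n : ℕ) (A B C : Set (ℕ → Bool))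
    (h : A ∆ (flip n ⁻¹' A) ⊆ (B ∆ (flip n ⁻¹' B)) ∪ (C ∆ (flip n ⁻¹' C))) :
    dn n A ≤ dn n B + dn n C := by
  unfold dn
  rw [← ENNReal.toReal_add (measure_ne_top _ _) (measure_ne_top _ _)]
  refine ENNReal.toReal_mono ?_ ?_
  · exact ENNReal.add_ne_top.2 ⟨measure_ne_top _ _, measure_ne_top _ _⟩
  · exact (measure_mono h).trans (measure_union_le _ _)

lemma bal_of_le (A B C : Set (ℕ → Bool)) (hm : MeasurableSet A) (hB : IsBal B) (hC : IsBal C)
    (h : ∀ n, dn n A ≤ dn n B + dn n C) : IsBal A := by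
  refine ⟨hm, ?_⟩
  have h2 : Tendsto (fun n : ℕ => (n : ℝ) * dn n B + (n : ℝ) * dn n C) atTop (𝓝 0) := by
    simpa using hB.2.add hC.2
  refine squeeze_zero (fun n => mul_nonneg (Nat.cast_nonneg n) (dn_nonneg n A)) (fun n => ?_) h2
  rw [← mul_add]
  exact mul_le_mul_of_nonneg_left (h n) (Nat.cast_nonneg n)

lemma dn_empty (n : ℕ) : dn n (∅ : Set (ℕ → Bool)) = 0 := by
  unfold dn
  simp

end BLaux

open BLaux in
theorem pf_BL : T_BL := by
  have hcompl : ∀ B, IsBal B → IsBal Bᶜ := by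
    intro B hB
    refine ⟨hB.1.compl, ?_⟩
    have : (fun n : ℕ => (n : ℝ) * dn n Bᶜ) = fun n : ℕ => (n : ℝ) * dn n B := by
      funext n; rw [dn_compl]
    rw [this]
    exact hB.2
  refine ⟨⟨MeasurableSet.empty, ?_⟩, hcompl, ?_, ?_⟩
  · have : (fun n : ℕ => (n : ℝ) * dn n (∅ : Set (ℕ → Bool))) = fun _ => 0 := by
      funext n; rw [dn_empty, mul_zero]
    rw [this]
    exact tendsto_const_nhds
  · intro B C hB hC
    refine bal_of_le _ B C (hB.1.union hC.1) hB hC (fun n => dn_le n _ B C ?_)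
    intro x hx
    simp only [Set.mem_symmDiff, Set.mem_preimage, Set.mem_union] at hx ⊢
    tauto
  · intro B C hB hC
    refine bal_of_le _ B C (hB.1.inter hC.1) hB hC (fun n => dn_le n _ B C ?_)
    intro x hx
    simp only [Set.mem_symmDiff, Set.mem_preimage, Set.mem_union, Set.mem_inter_iff] at hx ⊢
    tauto

end H95.GN
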