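import Pool.Agent.H95.GN.Targets

set_option autoImplicit false

open Filter Topology Set

namespace H95.GN

universe u

theorem pf_BP : T_BP.{u} := by
  intro I f hf
  let w : I → ℕ → ℕ := fun i n => n + 1 + ∑ m ∈ Finset.range (n + 1), f i m
  have hw_gt : ∀ i n, n < w i n := fun i n => by simp only [w]; omega
  have hw_mono : ∀ i, Monotone (w i) := by
    intro i a b hab
    have : ∑ m ∈ Finset.range (a + 1), f i m ≤ ∑ m ∈ Finset.range (b + 1), f i m :=
      Finset.sum_le_sum_of_subset (Finset.range_mono (by omega))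
    simp only [w]; omega
  have hw_f : ∀ i n, f i n ≤ w i n := by
    intro i n
    have : f i n ≤ ∑ m ∈ Finset.range (n + 1), f i m :=
      Finset.single_le_sum (f := fun m => f i m) (fun _ _ => Nat.zero_le _)
        (Finset.mem_range.mpr (Nat.lt_succ_self n))
    simp only [w]; omega
  let h : I → ℕ → ℕ := fun i t => (w i)^[t] 0
  have hsucc : ∀ i t, h i (t + 1) = w i (h i t) := fun i t =>
    Function.iterate_succ_apply' (w i) t 0
  have hmono : ∀ i, StrictMono (h i) := fun i =>
    strictMono_nat_of_lt_succ (fun t => by rw [hsucc]; exact hw_gt i _)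
  refine ⟨fun p m => h p.1 (2 * m + (if p.2 then 1 else 0)), ?_, ?_⟩
  · intro p a b hab
    apply hmono
    omega
  · intro e he
    have hex : ∀ x : ℕ, ∃ j, x ≤ e j := fun x => ⟨x, he.id_le x⟩
    classical
    obtain ⟨i, hi⟩ := hf (fun x => e (Nat.find (hex x) + 1))
    -- block number
    have hblk : ∀ x : ℕ, ∃ t, h i t ≤ x ∧ x < h i (t + 1) := by
      intro x
      have hex2 : ∃ t, x < h i t := ⟨x + 1, lt_of_lt_of_le (Nat.lt_succ_self x) ((hmono i).id_le _)⟩
      have h1 := Nat.find_spec hex2
      have h0 : Nat.find hex2 ≠ 0 := by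
        intro h0
        rw [h0] at h1
        simp only [h, Function.iterate_zero, id_eq] at h1
        omega
      obtain ⟨t, ht⟩ := Nat.exists_eq_succ_of_ne_zero h0
      refine ⟨t, ?_, ?_⟩
      · have := Nat.find_min hex2 (m := t) (by omega)
        omega
      · rw [← Nat.succ_eq_add_one, ← ht]; exact h1
    have key : ∀ x, f i x = e (Nat.find (hex x) + 1) → ∀ t, h i t ≤ x → x < h i (t + 1) →
        ∃ j, h i t ≤ e j ∧ e (j + 1) ≤ h i (t + 2) := by
      intro x hx t h1 h2
      refine ⟨Nat.find (hex x), h1.trans (Nat.find_spec (hex x)), ?_⟩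
      rw [← hx, hsucc]
      exact (hw_f i x).trans (hw_mono i h2.le)
    by_contra hcon
    push Not at hcon
    have hf1 : {m | ∃ j, h i (2 * m) ≤ e j ∧ e (j + 1) ≤ h i (2 * (m + 1))}.Finite := by
      have := hcon (i, false)
      simpa using this
    have hf2 : {m | ∃ j, h i (2 * m + 1) ≤ e j ∧ e (j + 1) ≤ h i (2 * (m + 1) + 1)}.Finite := by
      have := hcon (i, true)
      simpa using this
    obtain ⟨M1, hM1⟩ := hf1.bddAbove
    obtain ⟨M2, hM2⟩ := hf2.bddAbove
    apply hi
    apply Set.Finite.subset (Set.finite_Iio (h i (2 * (M1 + M2) + 2)))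
    intro x hx
    simp only [Set.mem_Iio]
    obtain ⟨t, h1, h2⟩ := hblk x
    have hk := key x hx t h1 h2
    have ht : t ≤ 2 * (M1 + M2) + 1 := by
      rcases Nat.even_or_odd' t with ⟨m, hm | hm⟩
      · have hmem : m ∈ {m | ∃ j, h i (2 * m) ≤ e j ∧ e (j + 1) ≤ h i (2 * (m + 1))} := by
          rw [hm] at hk
          exact hk
        have := hM1 hmem
        omega
      · have hmem : m ∈ {m | ∃ j, h i (2 * m + 1) ≤ e j ∧
            e (j + 1) ≤ h i (2 * (m + 1) + 1)} := by
          rw [hm] at hk
          exact hk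
        have := hM2 hmem
        omega
    exact lt_of_lt_of_le h2 ((hmono i).monotone (by omega))

end H95.GN
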