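import Pool.Agent.H95.GN.Targets

/-!
# BV: choice of the norming constant, and restriction to U
-/

set_option autoImplicit false

open Filter Topology Set

namespace H95.GN

universe u

section BV

variable {A : Type u} [BooleanAlgebra A]

theorem BV.bot {μ : A → ℝ} (h : ∀ a b, Disjoint a b → μ (a ⊔ b) = μ a + μ b) : μ ⊥ = 0 := by
  have h1 := h ⊥ ⊥ disjoint_bot_left
  rw [sup_idem] at h1
  linarith

theorem BV.sup {μ : A → ℝ} (h : ∀ a b, Disjoint a b → μ (a ⊔ b) = μ a + μ b) (s : Finset A)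
    (hs : ∀ a ∈ s, ∀ b ∈ s, a ≠ b → Disjoint a b) : μ (s.sup id) = ∑ a ∈ s, μ a := by
  classical
  induction s using Finset.induction_on with
  | empty => simp [BV.bot h]
  | insert a s ha ih =>
    rw [Finset.sum_insert ha, Finset.sup_insert, id, h, ih]
    · intro b hb c hc hbc
      exact hs b (Finset.mem_insert_of_mem hb) c (Finset.mem_insert_of_mem hc) hbc
    · rw [Finset.disjoint_sup_right]
      intro b hb
      exact hs a (Finset.mem_insert_self a s) b (Finset.mem_insert_of_mem hb)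
        (fun hab => ha (hab ▸ hb))

/-- a bounded finitely additive measure has bounded variation -/
theorem BV.var {μ : A → ℝ} {C : ℝ} (h : ∀ a b, Disjoint a b → μ (a ⊔ b) = μ a + μ b)
    (hC : ∀ a, |μ a| ≤ C) (s : Finset A) (hs : ∀ a ∈ s, ∀ b ∈ s, a ≠ b → Disjoint a b) :
    ∑ a ∈ s, |μ a| ≤ 2 * C := by
  classical
  have h1 := Finset.sum_filter_add_sum_filter_not s (fun a => 0 ≤ μ a) (fun a => |μ a|)
  have h2 : ∑ a ∈ s.filter (fun a => 0 ≤ μ a), |μ a| =
      μ ((s.filter (fun a => 0 ≤ μ a)).sup id) := by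
    rw [BV.sup h]
    · exact Finset.sum_congr rfl fun a ha => abs_of_nonneg (Finset.mem_filter.1 ha).2
    · intro a ha b hb hab
      exact hs a (Finset.mem_filter.1 ha).1 b (Finset.mem_filter.1 hb).1 hab
  have h3 : ∑ a ∈ s.filter (fun a => ¬ 0 ≤ μ a), |μ a| =
      - μ ((s.filter (fun a => ¬ 0 ≤ μ a)).sup id) := by
    rw [BV.sup h, ← Finset.sum_neg_distrib]
    · exact Finset.sum_congr rfl fun a ha =>
        abs_of_nonpos (le_of_lt (not_le.1 (Finset.mem_filter.1 ha).2))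
    · intro a ha b hb hab
      exact hs a (Finset.mem_filter.1 ha).1 b (Finset.mem_filter.1 hb).1 hab
  have h4 := le_abs_self (μ ((s.filter (fun a => 0 ≤ μ a)).sup id))
  have h5 := neg_abs_le (μ ((s.filter (fun a => ¬ 0 ≤ μ a)).sup id))
  have h6 := hC ((s.filter (fun a => 0 ≤ μ a)).sup id)
  have h7 := hC ((s.filter (fun a => ¬ 0 ≤ μ a)).sup id)
  linarith

end BV

theorem pf_BV : T_BV.{u} := by
  classical
  intro A _ μ U hμ hL R
  have hn : ∃ n, ¬ VarLE (μ n) U (2 * max R 1) := by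
    by_contra hcon
    push Not at hcon
    exact hL ⟨_, hcon⟩
  obtain ⟨n, hn⟩ := hn
  obtain ⟨hadd, C, hC⟩ := hμ n
  set V : Set ℝ := {x | ∃ s : Finset A, (∀ a ∈ s, a ≤ U) ∧
    (∀ a ∈ s, ∀ b ∈ s, a ≠ b → Disjoint a b) ∧ x = ∑ a ∈ s, |μ n a|} with hV
  have hbdd : BddAbove V := by
    refine ⟨2 * C, ?_⟩
    rintro x ⟨s, _, hs, rfl⟩
    exact BV.var hadd hC s hs
  have hne : V.Nonempty := ⟨0, ∅, by simp, by simp, by simp⟩
  set v : ℝ := sSup V with hv
  have hle : ∀ s : Finset A, (∀ a ∈ s, a ≤ U) → (∀ a ∈ s, ∀ b ∈ s, a ≠ b → Disjoint a b) →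
      ∑ a ∈ s, |μ n a| ≤ v := fun s h1 h2 => le_csSup hbdd ⟨s, h1, h2, rfl⟩
  have hv2 : 2 * max R 1 < v := by
    unfold VarLE at hn
    push Not at hn
    obtain ⟨s, h1, h2, h3⟩ := hn
    exact h3.trans_le (hle s h1 h2)
  have hR : R ≤ max R 1 := le_max_left _ _
  have h1R : 1 ≤ max R 1 := le_max_right _ _
  have hv0 : 0 < v := by linarith
  have hK0 : 0 < 2 * (2 * v / 3) := by linarith
  refine ⟨n, 2 * v / 3, by linarith, by linarith, ?_, ⟨?_, ?_⟩, ?_⟩
  · intro hvar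
    have h1 : v ≤ 2 * v / 3 := by
      apply csSup_le hne
      rintro x ⟨s, h1, h2, rfl⟩
      exact hvar s h1 h2
    linarith
  · intro a b hab
    simp only
    rw [inf_sup_right, hadd _ _ (hab.mono inf_le_left inf_le_left), mul_add]
  · refine ⟨(2 * (2 * v / 3))⁻¹ * C, fun a => ?_⟩
    simp only
    rw [abs_mul, abs_of_pos (inv_pos.2 hK0)]
    exact mul_le_mul_of_nonneg_left (hC _) (inv_pos.2 hK0).le
  · intro s _ hs
    have h1 : ∑ a ∈ s, |(2 * (2 * v / 3))⁻¹ * μ n (a ⊓ U)| =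
        (2 * (2 * v / 3))⁻¹ * ∑ a ∈ s, |μ n (a ⊓ U)| := by
      rw [Finset.mul_sum]
      exact Finset.sum_congr rfl fun a _ => by
        rw [abs_mul, abs_of_pos (inv_pos.2 hK0)]
    have h2 : ∑ a ∈ s, |μ n (a ⊓ U)| = ∑ a ∈ s.filter (fun a => a ⊓ U ≠ ⊥), |μ n (a ⊓ U)| := by
      symm
      apply Finset.sum_subset (Finset.filter_subset _ _)
      intro a ha hna
      have h3 : a ⊓ U = ⊥ := by
        by_contra hcon
        exact hna (Finset.mem_filter.2 ⟨ha, hcon⟩)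
      rw [h3, BV.bot hadd, abs_zero]
    have hinj : ∀ a ∈ s.filter (fun a => a ⊓ U ≠ ⊥), ∀ b ∈ s.filter (fun a => a ⊓ U ≠ ⊥),
        a ⊓ U = b ⊓ U → a = b := by
      intro a ha b hb hab
      by_contra hne'
      have h4 := hs a (Finset.mem_filter.1 ha).1 b (Finset.mem_filter.1 hb).1 hne'
      apply (Finset.mem_filter.1 ha).2
      rw [eq_bot_iff]
      calc a ⊓ U = (a ⊓ U) ⊓ (b ⊓ U) := by rw [← hab, inf_idem]
        _ ≤ a ⊓ b := inf_le_inf inf_le_left inf_le_left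
        _ ≤ ⊥ := h4.le_bot
    have h3 : ∑ a ∈ s.filter (fun a => a ⊓ U ≠ ⊥), |μ n (a ⊓ U)| =
        ∑ b ∈ (s.filter (fun a => a ⊓ U ≠ ⊥)).image (fun a => a ⊓ U), |μ n b| := by
      rw [Finset.sum_image]
      intro a ha b hb hab
      exact hinj a ha b hb hab
    have h4 : ∑ a ∈ s, |μ n (a ⊓ U)| ≤ v := by
      rw [h2, h3]
      apply hle
      · intro b hb
        obtain ⟨a, _, rfl⟩ := Finset.mem_image.1 hb
        exact inf_le_right
      · intro b hb c hc hbc
        obtain ⟨a, ha, rfl⟩ := Finset.mem_image.1 hb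
        obtain ⟨a', ha', rfl⟩ := Finset.mem_image.1 hc
        have h5 : a ≠ a' := fun h => hbc (by rw [h])
        exact (hs a (Finset.mem_filter.1 ha).1 a' (Finset.mem_filter.1 ha').1 h5).mono
          inf_le_left inf_le_left
    rw [h1, inv_mul_le_iff₀ hK0]
    linarith

end H95.GN
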