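import Pool.Agent.H95.GN.Targets

/-!
Board `gn_modules`, letter DI: map onto the Cantor space.
-/

open Filter Topology Set

namespace H95.GN

universe u

namespace DIx

variable {A : Type u} [BooleanAlgebra A]

theorem hom_bot {x : A → Bool} (h : IsHom x) : x ⊥ = false := by
  have h1 := h.2.2 ⊤
  rw [compl_top, h.1] at h1
  simpa using h1

theorem hom_mono {x : A → Bool} (h : IsHom x) {a b : A} (hab : a ≤ b) (ha : x a = true) :
    x b = true := by
  have h1 := h.2.1 a b
  rw [inf_eq_left.mpr hab, ha] at h1
  simpa using h1.symm

theorem hom_disjoint {x : A → Bool} (h : IsHom x) {a b : A} (hab : Disjoint a b)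
    (ha : x a = true) : x b = false := by
  have h1 := h.2.1 a b
  rw [hab.eq_bot, hom_bot h, ha] at h1
  simpa using h1.symm

/-- The tree of elements. -/
def tr (sg : A → A) : ℕ → (ℕ → Bool) → A
  | 0, _ => ⊤
  | n + 1, s => if s n = true then sg (tr sg n s) else tr sg n s \ sg (tr sg n s)

theorem tr_congr (sg : A → A) (n : ℕ) (s s' : ℕ → Bool) (h : ∀ i < n, s i = s' i) :
    tr sg n s = tr sg n s' := by
  induction n with
  | zero => rfl
  | succ n ih =>
    have h1 := ih (fun i hi => h i (by omega))
    simp only [tr]
    rw [h1, h n (by omega)]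

theorem tr_le (sg : A → A) (hsg : ∀ n s, sg (tr sg n s) ≤ tr sg n s) (n : ℕ) (s : ℕ → Bool) :
    tr sg (n + 1) s ≤ tr sg n s := by
  simp only [tr]
  split_ifs
  · exact hsg n s
  · exact sdiff_le

theorem tr_disjoint (sg : A → A) (hsg : ∀ n s, sg (tr sg n s) ≤ tr sg n s) (n : ℕ)
    (s s' : ℕ → Bool) (h : ∃ i < n, s i ≠ s' i) : Disjoint (tr sg n s) (tr sg n s') := by
  induction n with
  | zero =>
    obtain ⟨i, hi, -⟩ := h
    omega
  | succ n ih =>
    by_cases h1 : ∃ i < n, s i ≠ s' i
    · exact (ih h1).mono (tr_le sg hsg n s) (tr_le sg hsg n s')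
    · push Not at h1
      have h2 : s n ≠ s' n := by
        obtain ⟨i, hi, hne⟩ := h
        have h3 : i = n := by
          by_contra hcon
          exact hne (h1 i (by omega))
        rwa [h3] at hne
      have h4 := tr_congr sg n s s' h1
      simp only [tr]
      rw [← h4]
      rcases hs : s n with _ | _
      · have hs' : s' n = true := by
          rcases hs' : s' n with _ | _
          · exact absurd (hs.trans hs'.symm) h2
          · rfl
        rw [if_neg (by simp), if_pos hs']
        exact disjoint_sdiff_self_left
      · have hs' : s' n = false := by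
          rcases hs' : s' n with _ | _
          · rfl
          · exact absurd (hs.trans hs'.symm) h2
        rw [if_pos rfl, if_neg (by simp [hs'])]
        exact disjoint_sdiff_self_right

/-- Extension of a finite sequence by `false`. -/
def ext' {n : ℕ} (t : Fin n → Bool) : ℕ → Bool := fun i => if h : i < n then t ⟨i, h⟩ else false

end DIx

open DIx

/-- letter DI -/
theorem pf_DI (hPS : T_PS.{u}) : T_DI.{u} := by
  intro A _ _ hsplit
  classical
  choose! sg hsg1 hsg2 hsg3 using hsplit
  have hinf : ∀ n s, {b | b ≤ tr sg n s}.Infinite := by
    intro n s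
    induction n with
    | zero =>
      have : {b : A | b ≤ (⊤ : A)} = Set.univ := by
        ext b
        simp
      simp only [tr]
      rw [this]
      exact Set.infinite_univ
    | succ n ih =>
      simp only [tr]
      split_ifs
      · exact hsg2 _ ih
      · exact hsg3 _ ih
  have hsg : ∀ n s, sg (tr sg n s) ≤ tr sg n s := fun n s => hsg1 _ (hinf n s)
  have hne : ∀ n s, tr sg n s ≠ ⊥ := by
    intro n s h
    apply hinf n s
    rw [h]
    have : {b : A | b ≤ (⊥ : A)} = {⊥} := by
      ext b
      simp
    rw [this]
    exact Set.finite_singleton _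
  let e : ℕ → A := fun n => Finset.univ.sup (fun t : Fin n → Bool => sg (tr sg n (ext' t)))
  refine ⟨fun p n => p.1 (e n), ?_, ?_⟩
  · exact continuous_pi (fun n => continuous_ev (e n))
  · intro y
    obtain ⟨p, hp⟩ := hPS A (fun n => tr sg n y) (fun n => tr_le sg hsg n y) (fun n => hne n y)
    refine ⟨p, ?_⟩
    funext n
    have hpn := hp (n + 1)
    have htr : tr sg n (ext' (fun i : Fin n => y i)) = tr sg n y := by
      apply tr_congr
      intro i hi
      simp [ext', hi]
    rcases hy : y n with _ | _
    · have hd : Disjoint (tr sg (n + 1) y) (e n) := by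
        rw [Finset.disjoint_sup_right]
        intro t _
        by_cases ht : t = fun i : Fin n => y i
        · subst ht
          rw [htr]
          simp only [tr]
          rw [if_neg (by simp [hy])]
          exact disjoint_sdiff_self_left
        · have hex : ∃ i < n, y i ≠ ext' t i := by
            by_contra hcon
            push Not at hcon
            apply ht
            funext i
            have := hcon i i.2
            simp only [ext', i.2, dif_pos] at this
            exact this.symm
          exact (tr_disjoint sg hsg n y (ext' t) hex).mono (tr_le sg hsg n y) (hsg n (ext' t))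
      exact hom_disjoint p.2 hd hpn
    · have hle : tr sg (n + 1) y ≤ e n := by
        have h1 : tr sg (n + 1) y = sg (tr sg n (ext' (fun i : Fin n => y i))) := by
          rw [htr]
          simp only [tr]
          rw [if_pos hy]
        rw [h1]
        exact Finset.le_sup (f := fun t : Fin n → Bool => sg (tr sg n (ext' t)))
          (Finset.mem_univ (fun i : Fin n => y i))
      exact hom_mono p.2 hle hpn

end H95.GN
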