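import Mathlib

open Filter Topology Set

namespace H95.GN

universe u

/-- homomorphisms of Boolean algebras from A to Bool -/
def IsHom {A : Type u} [BooleanAlgebra A] (x : A → Bool) : Prop :=
  x ⊤ = true ∧ (∀ a b, x (a ⊓ b) = (x a && x b)) ∧ (∀ a, x aᶜ = !(x a))

/-- the Stone space of A, with the topology of pointwise convergence -/
def St (A : Type u) [BooleanAlgebra A] : Type u := {x : A → Bool // IsHom x}

instance (A : Type u) [BooleanAlgebra A] : TopologicalSpace (St A) :=
  inferInstanceAs (TopologicalSpace {x : A → Bool // IsHom x})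

variable {A : Type u} [BooleanAlgebra A]

lemma continuous_ev (a : A) : Continuous (fun p : St A => p.1 a) :=
  (continuous_apply a).comp continuous_subtype_val

lemma isClosed_hom : IsClosed {x : A → Bool | IsHom x} := by
  have h1 : IsClosed {x : A → Bool | x ⊤ = true} :=
    isClosed_eq (continuous_apply _) continuous_const
  have h2 : IsClosed {x : A → Bool | ∀ a b, x (a ⊓ b) = (x a && x b)} := by
    simp only [Set.ofPred_forall]
    refine isClosed_iInter fun a => isClosed_iInter fun b => ?_
    have hp : Continuous (fun x : A → Bool => (x a, x b)) :=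
      (continuous_apply a).prodMk (continuous_apply b)
    have hc : Continuous (fun x : A → Bool => (x a && x b)) :=
      (continuous_of_discreteTopology (f := fun q : Bool × Bool => (q.1 && q.2))).comp hp
    exact isClosed_eq (continuous_apply _) hc
  have h3 : IsClosed {x : A → Bool | ∀ a, x aᶜ = !(x a)} := by
    simp only [Set.ofPred_forall]
    refine isClosed_iInter fun a => ?_
    have hc : Continuous (fun x : A → Bool => !(x a)) :=
      (continuous_of_discreteTopology (f := fun q : Bool => !q)).comp (continuous_apply a)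
    exact isClosed_eq (continuous_apply _) hc
  have : {x : A → Bool | IsHom x} = {x | x ⊤ = true} ∩ ({x | ∀ a b, x (a ⊓ b) = (x a && x b)} ∩
      {x | ∀ a, x aᶜ = !(x a)}) := by
    ext x; simp [IsHom]
  rw [this]
  exact h1.inter (h2.inter h3)

instance : CompactSpace (St A) :=
  isCompact_iff_compactSpace.mp (isClosed_hom (A := A)).isCompact

instance : T2Space (St A) := inferInstanceAs (T2Space {x : A → Bool // IsHom x})

/-- indicator function of the clopen set given by a -/
noncomputable def chi (a : A) : C(St A, ℝ) where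
  toFun p := if p.1 a = true then 1 else 0
  continuous_toFun :=
    (continuous_of_discreteTopology (f := fun q : Bool => if q = true then (1:ℝ) else 0)).comp
      (continuous_ev a)

/-- a Banach space is a Grothendieck space: every weak* convergent sequence of functionals
converges weakly -/
def IsGrothendieckSpace (X : Type*) [NormedAddCommGroup X] [NormedSpace ℝ X] : Prop :=
  ∀ (f : ℕ → (X →L[ℝ] ℝ)) (g : X →L[ℝ] ℝ),
    (∀ x, Tendsto (fun n => f n x) atTop (𝓝 (g x))) →
      ∀ Φ : (X →L[ℝ] ℝ) →L[ℝ] ℝ, Tendsto (fun n => Φ (f n)) atTop (𝓝 (Φ g))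

/-- A has the Grothendieck property -/
def HasGrothendieck (A : Type u) [BooleanAlgebra A] : Prop :=
  IsGrothendieckSpace C(St A, ℝ)

/-- bounded finitely additive real measures on A -/
def IsMeas (μ : A → ℝ) : Prop :=
  (∀ a b, Disjoint a b → μ (a ⊔ b) = μ a + μ b) ∧ ∃ C : ℝ, ∀ a, |μ a| ≤ C

/-- the variation of μ on the part of A below U is at most C -/
def VarLE (μ : A → ℝ) (U : A) (C : ℝ) : Prop :=
  ∀ s : Finset A, (∀ a ∈ s, a ≤ U) → (∀ a ∈ s, ∀ b ∈ s, a ≠ b → Disjoint a b) →
    ∑ a ∈ s, |μ a| ≤ C

/-- A has the Nikodym property -/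
def HasNikodym (A : Type u) [BooleanAlgebra A] : Prop :=
  ∀ μ : ℕ → A → ℝ, (∀ n, IsMeas (μ n)) → (∀ a, ∃ C : ℝ, ∀ n, |μ n a| ≤ C) →
    ∃ C : ℝ, ∀ n, VarLE (μ n) ⊤ C

/-- the measures have no common bound for the variation below U -/
def Large (μ : ℕ → A → ℝ) (U : A) : Prop := ¬ ∃ C : ℝ, ∀ n, VarLE (μ n) U C

end H95.GN
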