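import Pool.Agent.H95.GN.Targets

open Filter Topology Set MeasureTheory
open scoped ENNReal symmDiff

namespace H95.GN

universe u

section St
variable {A : Type u} [BooleanAlgebra A]

lemma St.inf (p : St A) (a b : A) : p.1 (a ⊓ b) = (p.1 a && p.1 b) := p.2.2.1 a b
lemma St.compl (p : St A) (a : A) : p.1 aᶜ = !(p.1 a) := p.2.2.2 a
lemma St.top (p : St A) : p.1 ⊤ = true := p.2.1
lemma St.bot (p : St A) : p.1 ⊥ = false := by
  have := St.compl p ⊤
  rw [compl_top, St.top] at this
  simpa using this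
lemma St.sup (p : St A) (a b : A) : p.1 (a ⊔ b) = (p.1 a || p.1 b) := by
  have h : a ⊔ b = (aᶜ ⊓ bᶜ)ᶜ := by rw [compl_inf, compl_compl, compl_compl]
  rw [h, St.compl, St.inf, St.compl, St.compl]
  cases p.1 a <;> cases p.1 b <;> rfl
lemma St.mono (p : St A) {a b : A} (h : a ≤ b) (ha : p.1 a = true) : p.1 b = true := by
  have h2 : a ⊓ b = a := inf_eq_left.mpr h
  have := St.inf p a b
  rw [h2, ha] at this
  simpa using this.symm

lemma St.finset_sup {ι : Type*} (p : St A) (s : Finset ι) (f : ι → A) :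
    p.1 (s.sup f) = true → ∃ i ∈ s, p.1 (f i) = true := by
  classical
  induction s using Finset.induction_on with
  | empty => intro h; simp [St.bot] at h
  | insert a s ha ih =>
    intro h
    rw [Finset.sup_insert, St.sup] at h
    rcases (by simpa using h : p.1 (f a) = true ∨ p.1 (s.sup f) = true) with h | h
    · exact ⟨a, by simp, h⟩
    · obtain ⟨i, hi, h'⟩ := ih h
      exact ⟨i, by simp [hi], h'⟩

lemma St.exists_ne {p q : St A} (h : p ≠ q) : ∃ a, p.1 a = true ∧ q.1 a = false := by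
  have : ∃ a, p.1 a ≠ q.1 a := by
    by_contra hc
    push Not at hc
    exact h (Subtype.ext (funext hc))
  obtain ⟨a, ha⟩ := this
  cases h1 : p.1 a <;> cases h2 : q.1 a
  · exact absurd (h1.trans h2.symm) ha
  · exact ⟨aᶜ, by rw [St.compl, h1]; rfl, by rw [St.compl, h2]; rfl⟩
  · exact ⟨a, h1, h2⟩
  · exact absurd (h1.trans h2.symm) ha

/-- separate a point from a finite set not containing it -/
lemma St.sep_point (p : St A) (F : Finset (St A)) (hp : p ∉ F) :
    ∃ a, p.1 a = true ∧ ∀ q ∈ F, q.1 a = false := by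
  classical
  induction F using Finset.induction_on with
  | empty => exact ⟨⊤, St.top p, by simp⟩
  | insert q F hq ih =>
    obtain ⟨a, ha, hF⟩ := ih (fun h => hp (by simp [h]))
    have hne : p ≠ q := fun h => hp (by simp [h])
    obtain ⟨b, hb1, hb2⟩ := St.exists_ne hne
    refine ⟨a ⊓ b, by rw [St.inf, ha, hb1]; rfl, fun r hr => ?_⟩
    rcases Finset.mem_insert.mp hr with rfl | hr
    · rw [St.inf, hb2]; simp
    · rw [St.inf, hF r hr]; simp

lemma St.sep (F Q : Finset (St A)) (hd : Disjoint F Q) :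
    ∃ a, (∀ p ∈ Q, p.1 a = true) ∧ ∀ q ∈ F, q.1 a = false := by
  classical
  have h : ∀ p : St A, ∃ a, p ∈ Q → (p.1 a = true ∧ ∀ q ∈ F, q.1 a = false) := by
    intro p
    by_cases hp : p ∈ Q
    · have : p ∉ F := fun h => (Finset.disjoint_left.mp hd h) hp
      obtain ⟨a, ha⟩ := St.sep_point p F this
      exact ⟨a, fun _ => ha⟩
    · exact ⟨⊤, fun h => absurd h hp⟩
  choose a ha using h
  refine ⟨Q.sup a, fun p hp => St.mono p (Finset.le_sup hp) (ha p hp).1, fun q hq => ?_⟩
  by_contra hc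
  have hc' : q.1 (Q.sup a) = true := by
    cases h : q.1 (Q.sup a)
    · exact absurd h hc
    · rfl
  obtain ⟨p, hp, h2⟩ := St.finset_sup q Q a hc'
  rw [(ha p hp).2 q hq] at h2
  exact Bool.noConfusion h2

end St

/-- the algebra of the sets with influences o(1/n) -/
def Bal (h : T_BL) : BooleanSubalgebra (Set (ℕ → Bool)) where
  carrier := {B | IsBal B}
  supClosed' := fun a ha b hb => h.2.2.1 a b ha hb
  infClosed' := fun a ha b hb => h.2.2.2 a b ha hb
  compl_mem' := fun {a} ha => h.2.1 a ha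
  bot_mem' := h.1

lemma dn_nonneg (n : ℕ) (B : Set (ℕ → Bool)) : 0 ≤ dn n B := ENNReal.toReal_nonneg

instance : IsProbabilityMeasure lam := by unfold lam; infer_instance

lemma dn_le_one (n : ℕ) (B : Set (ℕ → Bool)) : dn n B ≤ 1 := by
  unfold dn
  have h : lam (B ∆ (flip n ⁻¹' B)) ≤ 1 := prob_le_one
  exact ENNReal.toReal_mono (by simp) h |>.trans (by simp)

lemma dn_union_le (n : ℕ) (B C : Set (ℕ → Bool)) : dn n (B ∪ C) ≤ dn n B + dn n C := by
  unfold dn
  rw [← ENNReal.toReal_add (measure_ne_top _ _) (measure_ne_top _ _)]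
  apply ENNReal.toReal_mono (by simp)
  refine le_trans (measure_mono ?_) (measure_union_le _ _)
  intro x hx
  simp only [Set.mem_symmDiff, Set.mem_union, Set.mem_preimage] at hx ⊢
  tauto

lemma dn_biUnion_le {ι : Type*} (n : ℕ) (s : Finset ι) (f : ι → Set (ℕ → Bool)) :
    dn n (⋃ i ∈ s, f i) ≤ ∑ i ∈ s, dn n (f i) := by
  classical
  induction s using Finset.induction_on with
  | empty => simp [dn]
  | insert a s ha ih =>
    rw [Finset.set_biUnion_insert, Finset.sum_insert ha]
    exact (dn_union_le _ _ _).trans (by linarith)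

theorem bal_not_nikodym (h : T_BL) (hRM : T_RM) : ¬ HasNikodym (Bal h) := by
  intro hN
  obtain ⟨h1, h2, h3, h4⟩ := hRM
  have hmeas : ∀ B : Bal h, MeasurableSet (B : Set (ℕ → Bool)) := fun B => B.2.1
  obtain ⟨C, hC⟩ := hN (fun n B => radM n (B : Set (ℕ → Bool))) (fun n => by
    refine ⟨fun a b hab => ?_, ⟨(n : ℝ), fun a => ?_⟩⟩
    · have hd : Disjoint (a : Set (ℕ → Bool)) (b : Set (ℕ → Bool)) := by
        rw [disjoint_iff] at hab ⊢
        have := congrArg (fun z : Bal h => (z : Set (ℕ → Bool))) hab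
        simpa using this
      have := h4 n _ _ (hmeas a) (hmeas b) hd
      simpa using this
    · refine (h1 n _ (hmeas a)).trans ?_
      have := dn_le_one n (a : Set (ℕ → Bool))
      have hn : (0 : ℝ) ≤ n := Nat.cast_nonneg n
      nlinarith) (fun a => by
    have ht : Tendsto (fun n : ℕ => (n : ℝ) * dn n (a : Set (ℕ → Bool))) atTop (𝓝 0) := a.2.2
    obtain ⟨C, hC⟩ := ht.bddAbove_range
    refine ⟨C, fun n => (h1 n _ (hmeas a)).trans (hC ⟨n, rfl⟩)⟩)
  obtain ⟨n, hn⟩ := exists_nat_gt (2 * C)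
  have h5 := hC n {⟨{x | x n = false}, h2 n⟩} (by simp) (by simp)
  rw [Finset.sum_singleton] at h5
  have h6 : radM n {x | x n = false} = n / 2 := h3 n
  have h7 : |radM n {x | x n = false}| ≤ C := h5
  rw [h6] at h7
  have h8 := le_abs_self ((n : ℝ) / 2)
  linarith

end H95.GN
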