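import Pool.Agent.H95.GN.F2

open Filter Topology Set MeasureTheory
open scoped ENNReal symmDiff

namespace H95.GN

universe u

/-- below b there is a small set in the algebra containing exactly the points of Q -/
lemma shrink (h : T_BL) (hSH : T_SH) (F Q : Finset (St (Bal h))) (hd : Disjoint F Q)
    (b : Bal h) (hb : ∀ p ∈ Q, p.1 b = true) (δ : ℝ) (hδ : 0 < δ) :
    ∃ d : Bal h, d ≤ b ∧ (∀ p ∈ Q, p.1 d = true) ∧ (∀ p ∈ F, p.1 d = false) ∧
      ∀ n : ℕ, (n : ℝ) * dn n (d : Set (ℕ → Bool)) ≤ δ := by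
  classical
  obtain ⟨a, ha1, ha2⟩ := St.sep F Q hd
  set d0 : Bal h := b ⊓ a with hd0
  have hδ' : 0 < δ / (Q.card + 1) := by positivity
  obtain ⟨l, Y, hY, hYs⟩ := hSH (d0 : Set (ℕ → Bool)) d0.2 (δ / (Q.card + 1)) hδ'
  have hp : ∀ p : St (Bal h), ∃ e : Bal h, p ∈ Q → (p.1 e = true ∧ e ≤ d0 ∧
      ∀ n : ℕ, (n : ℝ) * dn n (e : Set (ℕ → Bool)) ≤ δ / (Q.card + 1)) := by
    intro p
    by_cases hpQ : p ∈ Q
    · have hpd0 : p.1 d0 = true := by rw [hd0, St.inf, hb p hpQ, ha1 p hpQ]; rfl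
      let f : {y // y ∈ Y} → Bal h := fun y => ⟨(d0 : Set (ℕ → Bool)) ∩ cyl l y.1, (hYs y.1 y.2).1⟩
      have hle : d0 ≤ Y.attach.sup f := by
        have : (d0 : Set (ℕ → Bool)) ⊆ ((Y.attach.sup f : Bal h) : Set (ℕ → Bool)) := by
          intro x hx
          obtain ⟨y, hy, hxy⟩ := hY x
          have h1 : f ⟨y, hy⟩ ≤ Y.attach.sup f := Finset.le_sup (Finset.mem_attach _ _)
          have h2 : ((f ⟨y, hy⟩ : Bal h) : Set (ℕ → Bool)) ⊆
              ((Y.attach.sup f : Bal h) : Set (ℕ → Bool)) := h1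
          exact h2 ⟨hx, hxy⟩
        exact this
      obtain ⟨y, -, hy⟩ := St.finset_sup p Y.attach f (St.mono p hle hpd0)
      refine ⟨f y, fun _ => ⟨hy, ?_, fun n => (hYs y.1 y.2).2 n⟩⟩
      have : ((f y : Bal h) : Set (ℕ → Bool)) ⊆ (d0 : Set (ℕ → Bool)) := Set.inter_subset_left
      exact this
    · exact ⟨⊥, fun h => absurd h hpQ⟩
  choose e he using hp
  have hsup : ∀ s : Finset (St (Bal h)), ((s.sup e : Bal h) : Set (ℕ → Bool)) =
      ⋃ p ∈ s, ((e p : Bal h) : Set (ℕ → Bool)) := by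
    intro s
    induction s using Finset.induction_on with
    | empty => simp
    | insert q s hq ih => rw [Finset.sup_insert, Finset.set_biUnion_insert, ← ih]; rfl
  refine ⟨Q.sup e, ?_, ?_, ?_, ?_⟩
  · exact Finset.sup_le fun p hp => ((he p hp).2.1).trans inf_le_left
  · exact fun p hp => St.mono p (Finset.le_sup hp) (he p hp).1
  · intro p hp
    by_contra hc
    have hc' : p.1 (Q.sup e) = true := by
      cases h : p.1 (Q.sup e)
      · exact absurd h hc
      · rfl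
    have hle : Q.sup e ≤ a := Finset.sup_le fun p hp => ((he p hp).2.1).trans inf_le_right
    have := St.mono p hle hc'
    rw [ha2 p hp] at this
    exact Bool.noConfusion this
  · intro n
    rw [hsup]
    calc (n : ℝ) * dn n (⋃ p ∈ Q, ((e p : Bal h) : Set (ℕ → Bool)))
        ≤ (n : ℝ) * ∑ p ∈ Q, dn n ((e p : Bal h) : Set (ℕ → Bool)) :=
          mul_le_mul_of_nonneg_left (dn_biUnion_le n Q _) (Nat.cast_nonneg n)
      _ = ∑ p ∈ Q, (n : ℝ) * dn n ((e p : Bal h) : Set (ℕ → Bool)) := Finset.mul_sum _ _ _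
      _ ≤ ∑ p ∈ Q, δ / (Q.card + 1) := Finset.sum_le_sum fun p hp => (he p hp).2.2 n
      _ = Q.card * (δ / (Q.card + 1)) := by rw [Finset.sum_const, nsmul_eq_mul]
      _ ≤ δ := by
          have h1 : (0 : ℝ) ≤ Q.card := Nat.cast_nonneg _
          rw [mul_div_assoc', div_le_iff₀ (by positivity)]
          nlinarith

theorem bal_fin (h : T_BL) (hSH : T_SH) (hUN : T_UN) (hFS : T_FS.{0}) (hPH : T_PH)
    (F : ℕ → Finset (St (Bal h))) (c : ℕ → St (Bal h) → ℝ)
    (h1 : ∀ k, ∑ p ∈ F k, |c k p| = 1)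
    (h0 : ∀ a, Tendsto (fun k => ∑ p ∈ F k, if p.1 a = true then c k p else 0) atTop (𝓝 0)) :
    False := by
  classical
  obtain ⟨η, κ, b, hη, hκ, hdis, hb⟩ := hFS (Bal h) F c h1 h0
  -- the set Q_j
  have hQ : ∀ j, ∃ d : Bal h, d ≤ b j ∧ (∀ n : ℕ, (n : ℝ) * dn n (d : Set (ℕ → Bool)) ≤ (1 / 2) ^ j) ∧
      η / 2 ≤ |∑ p ∈ F (κ j), if p.1 d = true then c (κ j) p else 0| := by
    intro j
    set G := (F (κ j)).filter (fun p => p.1 (b j) = true) with hG
    have hGs : η ≤ ∑ p ∈ G, |c (κ j) p| := by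
      rw [hG, Finset.sum_filter]
      exact hb j
    set P := G.filter (fun p => 0 ≤ c (κ j) p) with hP
    set N := G.filter (fun p => ¬ 0 ≤ c (κ j) p) with hN
    have hPN : ∑ p ∈ G, |c (κ j) p| = ∑ p ∈ P, |c (κ j) p| + ∑ p ∈ N, |c (κ j) p| :=
      (Finset.sum_filter_add_sum_filter_not _ _ _).symm
    have hPabs : ∑ p ∈ P, |c (κ j) p| = |∑ p ∈ P, c (κ j) p| := by
      rw [abs_of_nonneg (Finset.sum_nonneg fun p hp => (Finset.mem_filter.mp hp).2)]
      exact Finset.sum_congr rfl fun p hp => abs_of_nonneg (Finset.mem_filter.mp hp).2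
    have hNabs : ∑ p ∈ N, |c (κ j) p| = |∑ p ∈ N, c (κ j) p| := by
      rw [abs_of_nonpos (Finset.sum_nonpos fun p hp => (not_le.mp (Finset.mem_filter.mp hp).2).le),
        ← Finset.sum_neg_distrib]
      exact Finset.sum_congr rfl fun p hp =>
        abs_of_nonpos (not_le.mp (Finset.mem_filter.mp hp).2).le
    have key : ∀ Q : Finset (St (Bal h)), Q ⊆ G → η / 2 ≤ |∑ p ∈ Q, c (κ j) p| →
        ∃ d : Bal h, d ≤ b j ∧ (∀ n : ℕ, (n : ℝ) * dn n (d : Set (ℕ → Bool)) ≤ (1 / 2) ^ j) ∧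
          η / 2 ≤ |∑ p ∈ F (κ j), if p.1 d = true then c (κ j) p else 0| := by
      intro Q hQG hQη
      have hdj : Disjoint (F (κ j) \ Q) Q := Finset.sdiff_disjoint
      obtain ⟨d, hd1, hd2, hd3, hd4⟩ := shrink h hSH (F (κ j) \ Q) Q hdj (b j)
        (fun p hp => (Finset.mem_filter.mp (hQG hp)).2) ((1 / 2) ^ j) (by positivity)
      refine ⟨d, hd1, hd4, ?_⟩
      have hsum : ∑ p ∈ F (κ j), (if p.1 d = true then c (κ j) p else 0) = ∑ p ∈ Q, c (κ j) p := by
        rw [← Finset.sum_filter]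
        apply Finset.sum_congr _ (fun _ _ => rfl)
        ext p
        rw [Finset.mem_filter]
        constructor
        · rintro ⟨hp1, hp2⟩
          by_contra hpQ
          have := hd3 p (Finset.mem_sdiff.mpr ⟨hp1, hpQ⟩)
          rw [this] at hp2
          exact Bool.noConfusion hp2
        · intro hp
          exact ⟨(Finset.mem_filter.mp (hQG hp)).1, hd2 p hp⟩
      rw [hsum]
      exact hQη
    rcases le_total (η / 2) (∑ p ∈ P, |c (κ j) p|) with hc | hc
    · exact key P (Finset.filter_subset _ _) (by rw [← hPabs]; exact hc)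
    · refine key N (Finset.filter_subset _ _) (by rw [← hNabs]; linarith)
  choose d hd1 hd2 hd3 using hQ
  have hdd : ∀ i j, i ≠ j → Disjoint (d i : Set (ℕ → Bool)) (d j : Set (ℕ → Bool)) := by
    intro i j hij
    have h2 : Disjoint (d i) (d j) := (hdis i j hij).mono (hd1 i) (hd1 j)
    rw [disjoint_iff] at h2 ⊢
    have := congrArg (fun z : Bal h => (z : Set (ℕ → Bool))) h2
    simpa using this
  let U : Set ℕ → Bal h := fun S =>
    ⟨⋃ j ∈ S, (d j : Set (ℕ → Bool)), hUN (fun j => (d j : Set (ℕ → Bool))) (fun j => (d j).2) hd2 S⟩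
  have hUcoe : ∀ S, ((U S : Bal h) : Set (ℕ → Bool)) = ⋃ j ∈ S, (d j : Set (ℕ → Bool)) := fun S => rfl
  have hUadd : ∀ S T, Disjoint S T → U (S ∪ T) = U S ⊔ U T ∧ Disjoint (U S) (U T) := by
    intro S T hST
    constructor
    · apply Subtype.ext
      show ⋃ j ∈ S ∪ T, (d j : Set (ℕ → Bool)) = (⋃ j ∈ S, (d j : Set (ℕ → Bool))) ∪
        ⋃ j ∈ T, (d j : Set (ℕ → Bool))
      exact Set.biUnion_union S T _
    · rw [disjoint_iff]
      apply Subtype.ext
      show (⋃ j ∈ S, (d j : Set (ℕ → Bool))) ∩ (⋃ j ∈ T, (d j : Set (ℕ → Bool))) = ∅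
      rw [← Set.disjoint_iff_inter_eq_empty, Set.disjoint_left]
      intro x hx1 hx2
      obtain ⟨i, hi, hxi⟩ := Set.mem_iUnion₂.mp hx1
      obtain ⟨j, hj, hxj⟩ := Set.mem_iUnion₂.mp hx2
      have hij : i ≠ j := by
        rintro rfl
        exact (Set.disjoint_left.mp hST hi) hj
      exact (Set.disjoint_left.mp (hdd i j hij) hxi) hxj
  have hlim := hPH (fun i S => ∑ p ∈ F (κ i), if p.1 (U S) = true then c (κ i) p else 0)
    (fun i S T hST => by
      obtain ⟨e1, e2⟩ := hUadd S T hST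
      rw [← Finset.sum_add_distrib]
      refine Finset.sum_congr rfl fun p _ => ?_
      rw [e1, St.sup]
      have hnot : ¬ (p.1 (U S) = true ∧ p.1 (U T) = true) := by
        rintro ⟨h3, h4⟩
        have h5 := St.inf p (U S) (U T)
        rw [disjoint_iff.mp e2, St.bot, h3, h4] at h5
        exact Bool.noConfusion h5
      cases h3 : p.1 (U S) <;> cases h4 : p.1 (U T)
      · simp
      · simp
      · simp
      · exact absurd ⟨h3, h4⟩ hnot)
    ⟨1, fun i S => by
      refine (Finset.abs_sum_le_sum_abs _ _).trans ?_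
      rw [← h1 (κ i)]
      refine Finset.sum_le_sum fun p _ => ?_
      split_ifs
      · exact le_rfl
      · simp⟩
    (fun S => (h0 (U S)).comp hκ.tendsto_atTop)
  have hU1 : ∀ i, U {i} = d i := by
    intro i
    apply Subtype.ext
    rw [hUcoe]
    simp
  have h4 : ∀ᶠ i in atTop, |∑ p ∈ F (κ i), (if p.1 (U {i}) = true then c (κ i) p else 0)| < η / 2 := by
    have := hlim.abs
    rw [abs_zero] at this
    exact this.eventually (gt_mem_nhds (by positivity))
  obtain ⟨i, hi⟩ := h4.exists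
  rw [hU1] at hi
  exact absurd (hd3 i) (not_le.mpr hi)

end H95.GN
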