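import Pool.Agent.H95.GN.F3

open Filter Topology Set MeasureTheory
open scoped ENNReal symmDiff

namespace H95.GN

universe u

theorem bal_atomic (h : T_BL) (hSH : T_SH) (hUN : T_UN) (hFS : T_FS.{0}) (hPH : T_PH)
    (ν : ℕ → St (Bal h) → ℝ) (hs : ∀ k, Summable (fun p => |ν k p|))
    (h0 : ∀ a, Tendsto (fun k => ∑' p, if p.1 a = true then ν k p else 0) atTop (𝓝 0)) :
    Tendsto (fun k => ∑' p, |ν k p|) atTop (𝓝 0) := by
  classical
  by_contra hcon
  have hT0 : ∀ k, 0 ≤ ∑' p, |ν k p| := fun k => tsum_nonneg fun _ => abs_nonneg _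
  have hex : ∃ ε > 0, ∀ N, ∃ k, N ≤ k ∧ ε ≤ ∑' p, |ν k p| := by
    rw [Metric.tendsto_atTop] at hcon
    push Not at hcon
    obtain ⟨ε, hε, hN⟩ := hcon
    refine ⟨ε, hε, fun N => ?_⟩
    obtain ⟨k, hk, hk2⟩ := hN N
    refine ⟨k, hk, ?_⟩
    rwa [Real.dist_eq, sub_zero, abs_of_nonneg (hT0 k)] at hk2
  obtain ⟨ε, hε, hN⟩ := hex
  obtain ⟨σ, hσ, hσε⟩ := Filter.extraction_of_frequently_atTop
    (Filter.frequently_atTop.mpr (fun N => by
      obtain ⟨k, hk, hk2⟩ := hN N
      exact ⟨k, hk, hk2⟩) : ∃ᶠ k in atTop, ε ≤ ∑' p, |ν k p|)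
  set T : ℕ → ℝ := fun k => ∑' p, |ν (σ k) p| with hT
  have hTpos : ∀ k, 0 < T k := fun k => lt_of_lt_of_le hε (hσε k)
  -- finite sets carrying most of the mass
  have hF : ∀ k, ∃ F : Finset (St (Bal h)), T k - T k / (k + 2) < ∑ p ∈ F, |ν (σ k) p| := by
    intro k
    have hlt : T k - T k / (k + 2) < T k := by
      have : 0 < T k / (k + 2) := div_pos (hTpos k) (by positivity)
      linarith
    have := (hs (σ k)).hasSum.eventually (lt_mem_nhds hlt)
    obtain ⟨F, hF⟩ := this.exists
    exact ⟨F, hF⟩
  choose F hF using hF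
  set w : ℕ → ℝ := fun k => ∑ p ∈ F k, |ν (σ k) p| with hw
  have hwT : ∀ k, T k / 2 ≤ w k := by
    intro k
    have h1 := (hF k).le
    have h2 : T k / (k + 2) ≤ T k / 2 := by
      apply div_le_div_of_nonneg_left (hTpos k).le (by norm_num)
      have : (0 : ℝ) ≤ k := Nat.cast_nonneg k
      linarith
    simp only [hw]
    linarith
  have hwpos : ∀ k, 0 < w k := fun k => lt_of_lt_of_le (half_pos (hTpos k)) (hwT k)
  refine bal_fin h hSH hUN hFS hPH F (fun k p => ν (σ k) p / w k) (fun k => ?_) (fun a => ?_)
  · have : ∑ p ∈ F k, |ν (σ k) p / w k| = (∑ p ∈ F k, |ν (σ k) p|) / w k := by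
      rw [Finset.sum_div]
      refine Finset.sum_congr rfl fun p _ => ?_
      rw [abs_div, abs_of_pos (hwpos k)]
    rw [this]
    exact div_self (hwpos k).ne'
  · -- comparison
    set S : ℕ → ℝ := fun k => ∑' p, if p.1 a = true then ν (σ k) p else 0 with hS
    have hS0 : Tendsto S atTop (𝓝 0) := (h0 a).comp hσ.tendsto_atTop
    have hbound : ∀ k, |∑ p ∈ F k, (if p.1 a = true then ν (σ k) p / w k else 0)| ≤
        (2 / ε) * |S k| + 2 / (k + 2) := by
      intro k
      have hsum : Summable (fun p : St (Bal h) => if p.1 a = true then ν (σ k) p else 0) := by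
        refine Summable.of_norm_bounded (hs (σ k)) fun p => ?_
        split_ifs
        · simp
        · simp
      have hsplit : S k - ∑ p ∈ F k, (if p.1 a = true then ν (σ k) p else 0) =
          ∑' p : {p // p ∉ F k}, (if p.1.1 a = true then ν (σ k) p.1 else 0) := by
        have := hsum.sum_add_tsum_subtype_compl (F k)
        simp only [hS]
        linarith
      have habs : |∑' p : {p // p ∉ F k}, (if p.1.1 a = true then ν (σ k) p.1 else 0)| ≤
          ∑' p : {p // p ∉ F k}, |ν (σ k) p.1| := by
        have hs2 : Summable (fun p : {p // p ∉ F k} => |ν (σ k) p.1|) :=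
          (hs (σ k)).subtype _
        have hs3 : Summable (fun p : {p // p ∉ F k} =>
            ‖(if p.1.1 a = true then ν (σ k) p.1 else 0)‖) := by
          refine Summable.of_nonneg_of_le (fun _ => norm_nonneg _) (fun p => ?_) hs2
          split_ifs
          · simp
          · simp
        refine (norm_tsum_le_tsum_norm hs3).trans ?_
        refine hs3.tsum_le_tsum (fun p => ?_) hs2
        split_ifs
        · simp
        · simp
      have htail : ∑' p : {p // p ∉ F k}, |ν (σ k) p.1| = T k - w k := by
        have := (hs (σ k)).sum_add_tsum_subtype_compl (F k)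
        simp only [hT, hw]
        linarith
      have h2 : |∑ p ∈ F k, (if p.1 a = true then ν (σ k) p else 0)| ≤ |S k| + T k / (k + 2) := by
        have h3 : ∑ p ∈ F k, (if p.1 a = true then ν (σ k) p else 0) =
            S k - ∑' p : {p // p ∉ F k}, (if p.1.1 a = true then ν (σ k) p.1 else 0) := by
          rw [← hsplit]; ring
        rw [h3]
        refine (abs_sub _ _).trans ?_
        have h4 := (hF k).le
        have h5 : T k - w k ≤ T k / (k + 2) := by simp only [hw]; linarith
        linarith
      have h3 : ∑ p ∈ F k, (if p.1 a = true then ν (σ k) p / w k else 0) =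
          (∑ p ∈ F k, (if p.1 a = true then ν (σ k) p else 0)) / w k := by
        rw [Finset.sum_div]
        refine Finset.sum_congr rfl fun p _ => ?_
        split_ifs
        · rfl
        · simp
      rw [h3, abs_div, abs_of_pos (hwpos k), div_le_iff₀ (hwpos k)]
      refine h2.trans ?_
      have h6 : |S k| ≤ (2 / ε) * |S k| * w k := by
        have h7 : ε / 2 ≤ w k := by
          have := hwT k
          have := hσε k
          simp only [hT] at *
          linarith
        have h8 : 1 ≤ (2 / ε) * w k := by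
          rw [div_mul_eq_mul_div, le_div_iff₀ hε]
          linarith
        nlinarith [abs_nonneg (S k)]
      have h9 : T k / (k + 2) ≤ 2 / (k + 2) * w k := by
        rw [div_mul_eq_mul_div, div_le_div_iff_of_pos_right (by positivity)]
        linarith [hwT k]
      nlinarith
    have hlim : Tendsto (fun k : ℕ => (2 / ε) * |S k| + 2 / ((k : ℝ) + 2)) atTop (𝓝 0) := by
      have h1 : Tendsto (fun k : ℕ => (2 / ε) * |S k|) atTop (𝓝 0) := by
        have := (hS0.abs).const_mul (2 / ε)
        simpa using this
      have h2 : Tendsto (fun k : ℕ => 2 / ((k : ℝ) + 2)) atTop (𝓝 0) := by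
        apply Tendsto.div_atTop tendsto_const_nhds
        exact tendsto_atTop_add_const_right _ _ tendsto_natCast_atTop_atTop
      simpa using h1.add h2
    exact squeeze_zero_norm (fun k => by simpa [Real.norm_eq_abs] using hbound k) hlim

end H95.GN
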