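import Pool.Agent.H95.GN.Targets

set_option autoImplicit false

open Filter Topology Set MeasureTheory
open scoped ENNReal symmDiff

namespace H95.GN

namespace SHaux

lemma meas_flip (n : ℕ) : Measurable (flip n) := by
  refine measurable_pi_iff.mpr fun i => ?_
  by_cases h : i = n
  · have : (fun x : ℕ → Bool => flip n x i) = fun x => !(x i) := by
      funext x
      simp [flip, h]
    rw [this]
    exact (measurable_of_countable (fun b : Bool => !b)).comp (measurable_pi_apply i)
  · have : (fun x : ℕ → Bool => flip n x i) = fun x => x i := by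
      funext x
      simp [flip, h]
    rw [this]
    exact measurable_pi_apply i

lemma coin_singleton (b : Bool) : coin {b} = 2⁻¹ := by
  cases b <;> simp [coin]

lemma coin_map_not : coin.map (fun b : Bool => !b) = coin := by
  have hm : Measurable (fun b : Bool => !b) := measurable_of_countable _
  refine Measure.ext_of_singleton fun b => ?_
  rw [Measure.map_apply hm (measurableSet_singleton b)]
  have : (fun b : Bool => !b) ⁻¹' {b} = {!b} := by
    ext c
    cases b <;> cases c <;> simp
  rw [this, coin_singleton, coin_singleton]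

lemma lam_map_flip (n : ℕ) : lam.map (flip n) = lam := by
  have h := Measure.infinitePi_map_pi (μ := fun _ : ℕ => coin) (Y := fun _ => Bool)
    (f := fun i b => if i = n then !b else b) (fun i => measurable_of_countable _)
  have h2 : (fun (x : ℕ → Bool) (i : ℕ) => if i = n then !(x i) else x i) = flip n := rfl
  rw [h2] at h
  rw [lam, h]
  congr 1
  funext i
  by_cases hi : i = n
  · simp only [hi, if_true]
    exact coin_map_not
  · simp only [hi, if_false]
    exact Measure.map_id

lemma lam_flip (n : ℕ) {S : Set (ℕ → Bool)} (hS : MeasurableSet S) :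
    lam (flip n ⁻¹' S) = lam S := by
  rw [← Measure.map_apply (meas_flip n) hS, lam_map_flip]

lemma cyl_eq (l : ℕ) (y : ℕ → Bool) :
    cyl l y = Set.pi (↑(Finset.range l)) (fun i => {y i}) := by
  ext x
  simp [cyl, Set.mem_pi]

lemma meas_cyl (l : ℕ) (y : ℕ → Bool) : MeasurableSet (cyl l y) := by
  rw [cyl_eq]
  exact MeasurableSet.pi (Finset.countable_toSet _) fun i _ => measurableSet_singleton _

lemma lam_cyl (l : ℕ) (y : ℕ → Bool) : lam (cyl l y) = 2⁻¹ ^ l := by
  rw [cyl_eq, lam, Measure.infinitePi_pi]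
  · simp [coin_singleton]
  · intro i _
    exact measurableSet_singleton _

instance : IsProbabilityMeasure lam := by
  unfold lam
  infer_instance

lemma dn_le {n : ℕ} {B : Set (ℕ → Bool)} {l : ℕ} {y : ℕ → Bool} (h : l ≤ n) :
    dn n (B ∩ cyl l y) ≤ dn n B := by
  have hc : flip n ⁻¹' (cyl l y) = cyl l y := by
    ext x
    constructor
    · intro hx i hi
      have := hx i hi
      have hne : i ≠ n := by omega
      simpa [flip, hne] using this
    · intro hx i hi
      have := hx i hi
      have hne : i ≠ n := by omega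
      simpa [flip, hne] using this
  unfold dn
  refine ENNReal.toReal_mono (measure_ne_top _ _) (measure_mono ?_)
  rw [Set.preimage_inter, hc, ← Set.inter_symmDiff_distrib_right]
  exact Set.inter_subset_left

lemma dn_le_two {n : ℕ} {B : Set (ℕ → Bool)} (l : ℕ) (y : ℕ → Bool) :
    dn n (B ∩ cyl l y) ≤ 2 * (1 / 2 : ℝ) ^ l := by
  have hs : (B ∩ cyl l y) ∆ (flip n ⁻¹' (B ∩ cyl l y)) ⊆ cyl l y ∪ flip n ⁻¹' (cyl l y) := by
    intro x hx
    rcases hx with ⟨hx, _⟩ | ⟨hx, _⟩
    · exact Or.inl hx.2
    · exact Or.inr hx.2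
  have h1 : lam ((B ∩ cyl l y) ∆ (flip n ⁻¹' (B ∩ cyl l y))) ≤ 2⁻¹ ^ l + 2⁻¹ ^ l := by
    refine (measure_mono hs).trans ((measure_union_le _ _).trans ?_)
    rw [lam_flip n (meas_cyl l y), lam_cyl]
  unfold dn
  have h2 := ENNReal.toReal_mono (by finiteness) h1
  refine h2.trans (le_of_eq ?_)
  rw [ENNReal.toReal_add (by finiteness) (by finiteness), ENNReal.toReal_pow, ENNReal.toReal_inv]
  norm_num
  ring

lemma dn_nonneg (n : ℕ) (B : Set (ℕ → Bool)) : 0 ≤ dn n B := ENNReal.toReal_nonneg

end SHaux

open SHaux in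
theorem pf_SH : T_SH := by
  classical
  intro B hB δ hδ
  obtain ⟨n0, hn0⟩ := eventually_atTop.mp (hB.2.eventually (ge_mem_nhds hδ))
  have ht : Tendsto (fun l : ℕ => 2 * ((l : ℝ) * (1 / 2 : ℝ) ^ l)) atTop (𝓝 0) := by
    have := (tendsto_self_mul_const_pow_of_lt_one (r := (1 / 2 : ℝ)) (by norm_num)
      (by norm_num)).const_mul 2
    simpa using this
  obtain ⟨l1, hl1⟩ := eventually_atTop.mp (ht.eventually (ge_mem_nhds hδ))
  obtain ⟨l, hl0, hll⟩ : ∃ l, n0 ≤ l ∧ l1 ≤ l := ⟨max n0 l1, le_max_left _ _, le_max_right _ _⟩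
  refine ⟨l, Finset.univ.image (fun g : Fin l → Bool => fun i : ℕ =>
    if h : i < l then g ⟨i, h⟩ else false), ?_, ?_⟩
  · intro x
    refine ⟨fun i : ℕ => if h : i < l then x i else false, ?_, ?_⟩
    · refine Finset.mem_image.mpr ⟨fun i => x i, Finset.mem_univ _, ?_⟩
      funext i
      by_cases h : i < l <;> simp [h]
    · intro i hi
      simp [hi]
  · intro y _
    refine ⟨⟨hB.1.inter (meas_cyl l y), ?_⟩, ?_⟩
    · refine squeeze_zero' (Eventually.of_forall fun n =>
        mul_nonneg (Nat.cast_nonneg n) (dn_nonneg n _)) ?_ hB.2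
      filter_upwards [eventually_ge_atTop l] with n hn
      exact mul_le_mul_of_nonneg_left (dn_le hn) (Nat.cast_nonneg n)
    · intro n
      rcases le_or_gt l n with hn | hn
      · exact (mul_le_mul_of_nonneg_left (dn_le hn) (Nat.cast_nonneg n)).trans
          (hn0 n (hl0.trans hn))
      · have h1 : (n : ℝ) * dn n (B ∩ cyl l y) ≤ (l : ℝ) * (2 * (1 / 2 : ℝ) ^ l) :=
          mul_le_mul (by exact_mod_cast hn.le) (dn_le_two l y) (dn_nonneg _ _)
            (Nat.cast_nonneg l)
        refine h1.trans ((le_of_eq ?_).trans (hl1 l hll))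
        ring

end H95.GN
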