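import Pool.Agent.H95.GN.F2
import Pool.Agent.H95.GN.SH

open Filter Topology Set MeasureTheory
open scoped ENNReal symmDiff

namespace H95.GN

universe u

/-- the points 0 0 ... 0 1 with k zeros -/
def one (k : ℕ) : ℕ → Bool := fun i => decide (i = k)

lemma dn_cyl_of_le {n l : ℕ} (h : l ≤ n) (y : ℕ → Bool) : dn n (cyl l y) = 0 := by
  have : flip n ⁻¹' (cyl l y) = cyl l y := by
    ext x
    simp only [cyl, Set.mem_preimage, Set.mem_ofPred_eq, flip]
    constructor
    · intro hx i hi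
      have := hx i hi
      rwa [if_neg (by omega)] at this
    · intro hx i hi
      rw [if_neg (by omega)]
      exact hx i hi
  unfold dn
  rw [this, symmDiff_self]
  simp

lemma dn_cyl_le (n l : ℕ) (y : ℕ → Bool) : dn n (cyl l y) ≤ 2 * (1 / 2) ^ l := by
  unfold dn
  have h1 : lam (cyl l y ∆ (flip n ⁻¹' cyl l y)) ≤ 2⁻¹ ^ l + 2⁻¹ ^ l := by
    refine (measure_mono (?_ : _ ⊆ cyl l y ∪ flip n ⁻¹' cyl l y)).trans
      ((measure_union_le _ _).trans ?_)
    · exact symmDiff_subset_union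
    · rw [SHaux.lam_flip n (SHaux.meas_cyl l y), SHaux.lam_cyl]
  have h2 := ENNReal.toReal_mono (by simp) h1
  refine h2.trans (le_of_eq ?_)
  rw [ENNReal.toReal_add (by simp) (by simp)]
  simp only [ENNReal.toReal_pow, ENNReal.toReal_inv, ENNReal.toReal_ofNat]
  norm_num
  ring

lemma n_dn_cyl_le (n l : ℕ) (y : ℕ → Bool) : (n : ℝ) * dn n (cyl l y) ≤ 2 := by
  rcases le_total l n with h | h
  · rw [dn_cyl_of_le h]; norm_num
  · have h1 := dn_cyl_le n l y
    have h2 : (n : ℝ) ≤ l := by exact_mod_cast h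
    have h3 : (l : ℝ) * (1 / 2) ^ l ≤ 1 := by
      have h4 : (l : ℝ) ≤ 2 ^ l := by exact_mod_cast (Nat.lt_two_pow_self (n := l)).le
      rw [one_div, inv_pow, ← div_eq_mul_inv, div_le_one (by positivity)]
      exact h4
    have h5 : (0 : ℝ) ≤ n := Nat.cast_nonneg n
    have h6 : (0 : ℝ) ≤ (1 / 2 : ℝ) ^ l := by positivity
    nlinarith

lemma dn_inter_le (n : ℕ) (B C : Set (ℕ → Bool)) : dn n (B ∩ C) ≤ dn n B + dn n C := by
  unfold dn
  rw [← ENNReal.toReal_add (measure_ne_top _ _) (measure_ne_top _ _)]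
  apply ENNReal.toReal_mono (by simp)
  refine le_trans (measure_mono ?_) (measure_union_le _ _)
  intro x hx
  simp only [Set.mem_symmDiff, Set.mem_union, Set.mem_preimage, Set.mem_inter_iff] at hx ⊢
  tauto

lemma bal_cyl (l : ℕ) (y : ℕ → Bool) : IsBal (cyl l y) := by
  refine ⟨SHaux.meas_cyl l y, ?_⟩
  refine tendsto_const_nhds.congr' ?_
  filter_upwards [eventually_ge_atTop l] with n hn
  rw [dn_cyl_of_le hn, mul_zero]

lemma disjoint_cyl_one {k l : ℕ} (h : k ≠ l) :
    Disjoint (cyl (k + 1) (one k)) (cyl (l + 1) (one l)) := by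
  rw [Set.disjoint_left]
  intro x hx hy
  rcases lt_or_gt_of_ne h with h | h
  · have h1 := hx k (by omega)
    have h2 := hy k (by omega)
    rw [h1] at h2
    simp [one] at h2
    omega
  · have h1 := hx l (by omega)
    have h2 := hy l (by omega)
    rw [h1] at h2
    simp [one] at h2
    omega

/-- half of a cylinder -/
lemma lam_half (l n : ℕ) (y : ℕ → Bool) (h : l ≤ n) :
    (lam (cyl l y ∩ {x | x n = false})).toReal = (1 / 2) ^ (l + 1) := by
  have hm : MeasurableSet {x : ℕ → Bool | x n = false} := by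
    have h0 : MeasurableSet ((fun x : ℕ → Bool => x n) ⁻¹' {false}) :=
      measurableSet_preimage (measurable_pi_apply n) (measurableSet_singleton false)
    exact h0
  have hf : flip n ⁻¹' (cyl l y ∩ {x | x n = false}) = cyl l y ∩ {x | x n = true} := by
    ext x
    simp only [cyl, Set.mem_preimage, Set.mem_inter_iff, Set.mem_ofPred_eq, flip]
    constructor
    · rintro ⟨hx, hn⟩
      refine ⟨fun i hi => ?_, by simpa using hn⟩
      have := hx i hi
      rwa [if_neg (by omega)] at this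
    · rintro ⟨hx, hn⟩
      refine ⟨fun i hi => ?_, by simpa using hn⟩
      rw [if_neg (by omega)]
      exact hx i hi
  have h1 := SHaux.lam_flip n ((SHaux.meas_cyl l y).inter hm)
  rw [hf] at h1
  have h2 : lam (cyl l y) = lam (cyl l y ∩ {x | x n = false}) + lam (cyl l y ∩ {x | x n = true}) := by
    rw [← measure_inter_add_sdiff (cyl l y) hm]
    congr 2
    ext x
    simp
  rw [h1, SHaux.lam_cyl] at h2
  have h3 := congrArg ENNReal.toReal h2
  rw [ENNReal.toReal_add (measure_ne_top _ _) (measure_ne_top _ _)] at h3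
  simp only [ENNReal.toReal_pow, ENNReal.toReal_inv, ENNReal.toReal_ofNat] at h3
  rw [pow_succ]
  norm_num at h3 ⊢
  linarith

theorem bal_not_grothendieck (h : T_BL) (hRM : T_RM) (hUB : T_UB.{0}) :
    ¬ HasGrothendieck (Bal h) := by
  intro hG
  obtain ⟨h1, h2, h3, h4⟩ := hRM
  have hmeas : ∀ B : Bal h, MeasurableSet (B : Set (ℕ → Bool)) := fun B => B.2.1
  let μ : ℕ → Bal h → ℝ := fun n B => radM n (B : Set (ℕ → Bool))
  let U : ℕ → Bal h := fun k => ⟨cyl (k + 1) (one k), bal_cyl _ _⟩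
  have hM : ∀ n, IsMeas (μ n) := fun n => by
    refine ⟨fun a b hab => ?_, ⟨(n : ℝ), fun a => ?_⟩⟩
    · have hd : Disjoint (a : Set (ℕ → Bool)) (b : Set (ℕ → Bool)) := by
        rw [disjoint_iff] at hab ⊢
        have := congrArg (fun z : Bal h => (z : Set (ℕ → Bool))) hab
        simpa using this
      have := h4 n _ _ (hmeas a) (hmeas b) hd
      simpa [μ] using this
    · refine (h1 n _ (hmeas a)).trans ?_
      have := dn_le_one n (a : Set (ℕ → Bool))
      have hn : (0 : ℝ) ≤ n := Nat.cast_nonneg n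
      nlinarith
  have hdis : ∀ k l, k ≠ l → Disjoint (U k) (U l) := by
    intro k l hkl
    rw [disjoint_iff]
    apply Subtype.ext
    exact Set.disjoint_iff_inter_eq_empty.mp (disjoint_cyl_one hkl)
  have hL : ∀ k, Large μ (U k) := by
    rintro k ⟨C, hC⟩
    obtain ⟨n, hn⟩ := exists_nat_gt (C * 2 ^ (k + 2) + (k + 1))
    have hkn : k + 1 ≤ n := by
      have h0 : 0 ≤ C := by
        have := hC 0 ∅ (by simp) (by simp)
        simpa using this
      have : (0 : ℝ) ≤ C * 2 ^ (k + 2) := by positivity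
      have h5 : ((k : ℝ) + 1) < n := by linarith
      exact_mod_cast h5.le
    let e : Bal h := U k ⊓ ⟨{x | x n = false}, h2 n⟩
    have h5 := hC n {e} (by simp [e]) (by simp)
    rw [Finset.sum_singleton] at h5
    have h6 : radM n (cyl (k + 1) (one k) ∩ {x | x n = false}) = n * (1 / 2) ^ (k + 2) := by
      unfold radM
      have e1 : cyl (k + 1) (one k) ∩ {x : ℕ → Bool | x n = false} ∩ {x | x n = false} =
          cyl (k + 1) (one k) ∩ {x | x n = false} := by
        rw [Set.inter_assoc, Set.inter_self]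
      have e2 : cyl (k + 1) (one k) ∩ {x : ℕ → Bool | x n = false} ∩ {x | x n = true} = ∅ := by
        ext x
        simp only [Set.mem_inter_iff, Set.mem_ofPred_eq, Set.mem_empty_iff_false, iff_false]
        rintro ⟨⟨-, h7⟩, h8⟩
        rw [h7] at h8
        exact Bool.noConfusion h8
      rw [e1, e2, lam_half _ _ _ hkn]
      simp
    have h7 : |radM n (cyl (k + 1) (one k) ∩ {x | x n = false})| ≤ C := h5
    rw [h6, abs_of_nonneg (by positivity)] at h7
    have h8 : (n : ℝ) ≤ C * 2 ^ (k + 2) := by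
      have h9 : (0 : ℝ) < 2 ^ (k + 2) := by positivity
      rw [one_div, inv_pow, ← div_eq_mul_inv, div_le_iff₀ h9] at h7
      exact h7
    have h10 : (0 : ℝ) ≤ k := Nat.cast_nonneg k
    linarith
  obtain ⟨a, ha⟩ := hUB (Bal h) μ U hG hM hdis hL Set.univ Set.infinite_univ (fun k => (k : ℝ))
  apply ha
  have ht : Tendsto (fun n : ℕ => (n : ℝ) * dn n (a : Set (ℕ → Bool))) atTop (𝓝 0) := a.2.2
  obtain ⟨C, hC⟩ := ht.bddAbove_range
  refine (Set.finite_lt_nat (⌈C + 2⌉₊)).subset ?_
  rintro k ⟨-, n, hn⟩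
  have h5 : |radM n ((a : Set (ℕ → Bool)) ∩ cyl (k + 1) (one k))| ≤ C + 2 := by
    refine (h1 n _ ((hmeas a).inter (SHaux.meas_cyl _ _))).trans ?_
    have h6 := dn_inter_le n (a : Set (ℕ → Bool)) (cyl (k + 1) (one k))
    have h7 := n_dn_cyl_le n (k + 1) (one k)
    have h8 : (n : ℝ) * dn n (a : Set (ℕ → Bool)) ≤ C := hC ⟨n, rfl⟩
    have h9 : (0 : ℝ) ≤ n := Nat.cast_nonneg n
    nlinarith
  have h6 : (k : ℝ) < C + 2 := lt_of_lt_of_le hn h5
  have h7 : (k : ℝ) < (⌈C + 2⌉₊ : ℝ) := lt_of_lt_of_le h6 (Nat.le_ceil _)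
  exact_mod_cast h7

end H95.GN
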