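import Pool.Agent.H95.GN.F4

open Filter Topology Set MeasureTheory
open scoped ENNReal symmDiff

namespace H95.GN

theorem bal_atomic_bdd (h : T_BL) (hSH : T_SH) (hUN : T_UN) (hFS : T_FS.{0}) (hPH : T_PH)
    (ν : ℕ → St (Bal h) → ℝ) (hs : ∀ k, Summable (fun p => |ν k p|))
    (h0 : ∀ a, ∃ C : ℝ, ∀ k, |∑' p, if p.1 a = true then ν k p else 0| ≤ C) :
    ∃ C : ℝ, ∀ k, ∑' p, |ν k p| ≤ C := by
  classical
  by_contra hcon
  push Not at hcon
  have hk : ∀ j : ℕ, ∃ k, (j : ℝ) + 1 < ∑' p, |ν k p| := fun j => hcon _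
  choose σ hσ using hk
  have key := bal_atomic h hSH hUN hFS hPH (fun j p => ((j : ℝ) + 1)⁻¹ * ν (σ j) p)
    (fun j => by
      have := (hs (σ j)).mul_left |((j : ℝ) + 1)⁻¹|
      refine this.congr fun p => ?_
      rw [abs_mul])
    (fun a => by
      obtain ⟨C, hC⟩ := h0 a
      have hpos : ∀ j : ℕ, (0 : ℝ) < (j : ℝ) + 1 := fun j => by positivity
      have hb : ∀ j : ℕ, ‖∑' p : St (Bal h), (if p.1 a = true then ((j : ℝ) + 1)⁻¹ * ν (σ j) p else 0)‖ ≤
          C / ((j : ℝ) + 1) := by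
        intro j
        have : (fun p : St (Bal h) => if p.1 a = true then ((j : ℝ) + 1)⁻¹ * ν (σ j) p else 0) =
            fun p => ((j : ℝ) + 1)⁻¹ * (if p.1 a = true then ν (σ j) p else 0) := by
          funext p
          split_ifs <;> simp
        rw [this, tsum_mul_left, norm_mul, norm_inv, Real.norm_eq_abs, Real.norm_eq_abs,
          abs_of_pos (hpos j), inv_mul_eq_div]
        exact div_le_div_of_nonneg_right (hC _) (hpos j).le
      have hlim : Tendsto (fun j : ℕ => C / ((j : ℝ) + 1)) atTop (𝓝 0) :=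
        tendsto_const_nhds.div_atTop
          (tendsto_atTop_add_const_right _ _ tendsto_natCast_atTop_atTop)
      exact squeeze_zero_norm hb hlim)
  have h1 : ∀ j : ℕ, (1 : ℝ) ≤ ∑' p, |((j : ℝ) + 1)⁻¹ * ν (σ j) p| := by
    intro j
    have hpos : (0 : ℝ) < (j : ℝ) + 1 := by positivity
    have : (fun p : St (Bal h) => |((j : ℝ) + 1)⁻¹ * ν (σ j) p|) =
        fun p => ((j : ℝ) + 1)⁻¹ * |ν (σ j) p| := by
      funext p
      rw [abs_mul, abs_of_pos (inv_pos.mpr hpos)]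
    rw [this, tsum_mul_left, inv_mul_eq_div, le_div_iff₀ hpos, one_mul]
    exact (hσ j).le
  have h2 := key.eventually (gt_mem_nhds (zero_lt_one' ℝ))
  obtain ⟨j, hj⟩ := h2.exists
  exact absurd (h1 j) (not_le.mpr hj)

end H95.GN
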