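import Pool.Agent.H95.GN.Targets

/-!
# Board gn_modules: module FS
-/

set_option autoImplicit false

open Filter Topology Set

namespace H95.GN

namespace FSaux

universe u

variable {A : Type u} [BooleanAlgebra A]

lemma ev_inf (p : St A) (a b : A) : p.1 (a ⊓ b) = (p.1 a && p.1 b) := p.2.2.1 a b

lemma ev_compl (p : St A) (a : A) : p.1 aᶜ = !(p.1 a) := p.2.2.2 a

lemma ev_top (p : St A) : p.1 ⊤ = true := p.2.1

lemma ev_bot (p : St A) : p.1 ⊥ = false := by
  rw [← compl_top, ev_compl, ev_top]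
  rfl

lemma ev_sup (p : St A) (a b : A) : p.1 (a ⊔ b) = (p.1 a || p.1 b) := by
  have h : a ⊔ b = (aᶜ ⊓ bᶜ)ᶜ := by simp
  rw [h, ev_compl, ev_inf, ev_compl, ev_compl]
  cases p.1 a <;> cases p.1 b <;> rfl

lemma ev_sdiff (p : St A) (a b : A) : p.1 (a \ b) = (p.1 a && !(p.1 b)) := by
  rw [_root_.sdiff_eq, ev_inf, ev_compl]

lemma ev_fsup (p : St A) (B : ℕ → A) (j : ℕ) :
    p.1 ((Finset.range j).sup B) = true ↔ ∃ i, i < j ∧ p.1 (B i) = true := by
  induction j with
  | zero =>
    rw [Finset.range_zero, Finset.sup_empty, ev_bot]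
    simp
  | succ j ih =>
    rw [Finset.range_add_one, Finset.sup_insert, ev_sup, Bool.or_eq_true, ih]
    constructor
    · rintro (h | ⟨i, hi, h⟩)
      · exact ⟨j, Nat.lt_succ_self j, h⟩
      · exact ⟨i, Nat.lt_succ_of_lt hi, h⟩
    · rintro ⟨i, hi, h⟩
      rcases Nat.lt_succ_iff_lt_or_eq.1 hi with h1 | h1
      · exact Or.inr ⟨i, h1, h⟩
      · subst h1
        exact Or.inl h

lemma sep (p q : St A) (h : p ≠ q) : ∃ a : A, q.1 a = true ∧ p.1 a = false := by
  have h1 : ∃ a, p.1 a ≠ q.1 a := by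
    by_contra hcon
    push Not at hcon
    exact h (Subtype.ext (funext hcon))
  obtain ⟨a, ha⟩ := h1
  cases hq : q.1 a with
  | true =>
    refine ⟨a, hq, ?_⟩
    rw [hq] at ha
    cases hp : p.1 a with
    | true => exact absurd hp ha
    | false => rfl
  | false =>
    refine ⟨aᶜ, ?_, ?_⟩
    · rw [ev_compl, hq]
      rfl
    · rw [hq] at ha
      rw [ev_compl]
      cases hp : p.1 a with
      | true => rfl
      | false => exact absurd hp ha

lemma sepF (q : St A) (E : Finset (St A)) :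
    ∃ a : A, q.1 a = true ∧ ∀ p ∈ E, p ≠ q → p.1 a = false := by
  classical
  induction E using Finset.induction_on with
  | empty => exact ⟨⊤, ev_top q, fun p hp => by simp at hp⟩
  | insert r E hr ih =>
    obtain ⟨a, ha, hE⟩ := ih
    by_cases h : r = q
    · refine ⟨a, ha, fun p hp hpq => ?_⟩
      rcases Finset.mem_insert.1 hp with h1 | h1
      · exact absurd (h1.trans h) hpq
      · exact hE p h1 hpq
    · obtain ⟨b, hb, hrb⟩ := sep r q h
      refine ⟨a ⊓ b, ?_, fun p hp hpq => ?_⟩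
      · rw [ev_inf, ha, hb]
        rfl
      · rw [ev_inf]
        rcases Finset.mem_insert.1 hp with h1 | h1
        · rw [h1, hrb, Bool.and_false]
        · rw [hE p h1 hpq, Bool.false_and]

/-- mass of the measure number `k` in `b` -/
noncomputable def V (F : ℕ → Finset (St A)) (c : ℕ → St A → ℝ) (k : ℕ) (b : A) : ℝ :=
  ∑ p ∈ F k, if p.1 b = true then |c k p| else 0

open Classical in
/-- mass away from `q` -/
noncomputable def W (F : ℕ → Finset (St A)) (c : ℕ → St A → ℝ) (q : St A) (k : ℕ) (b : A) : ℝ :=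
  ∑ p ∈ F k, if p ≠ q ∧ p.1 b = true then |c k p| else 0

variable (F : ℕ → Finset (St A)) (c : ℕ → St A → ℝ)

lemma V_sup (k : ℕ) (a b : A) : V F c k (a ⊔ b) ≤ V F c k a + V F c k b := by
  unfold V
  rw [← Finset.sum_add_distrib]
  refine Finset.sum_le_sum fun p _ => ?_
  rw [ev_sup]
  have h0 := abs_nonneg (c k p)
  cases p.1 a <;> cases p.1 b <;> simp

lemma caseOne (q : St A) (η : ℝ) (hη : 0 < η)
    (h : ∀ b : A, q.1 b = true → ∃ᶠ k in atTop, η ≤ W F c q k b) :
    ∃ (η : ℝ) (κ : ℕ → ℕ) (b : ℕ → A), 0 < η ∧ StrictMono κ ∧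
      (∀ i j, i ≠ j → Disjoint (b i) (b j)) ∧ ∀ j, η ≤ V F c (κ j) (b j) := by
  classical
  have step : ∀ s : {b : A // q.1 b = true} × ℕ, ∃ t : {b : A // q.1 b = true} × ℕ,
      s.2 < t.2 ∧ t.1.1 ≤ s.1.1 ∧ η ≤ V F c t.2 (s.1.1 \ t.1.1) := by
    rintro ⟨⟨b, hb⟩, n⟩
    obtain ⟨k, hk, hW⟩ := (Filter.frequently_atTop'.1 (h b hb)) n
    obtain ⟨a, ha, hE⟩ := sepF q (F k)
    refine ⟨⟨⟨b ⊓ a, ?_⟩, k⟩, hk, inf_le_left, ?_⟩
    · rw [ev_inf, hb, ha]
      rfl
    · refine hW.trans ?_
      unfold W V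
      refine Finset.sum_le_sum fun p hp => ?_
      by_cases h1 : p ≠ q ∧ p.1 b = true
      · have h2 : p.1 (b \ (b ⊓ a)) = true := by
          rw [ev_sdiff, ev_inf, h1.2, hE p hp h1.1]
          rfl
        rw [if_pos h1, if_pos h2]
      · rw [if_neg h1]
        split_ifs
        · exact abs_nonneg _
        · exact le_refl _
  choose g hg1 hg2 hg3 using step
  let s : ℕ → {b : A // q.1 b = true} × ℕ := fun n => g^[n] (⟨⊤, ev_top q⟩, 0)
  have hs : ∀ n, s (n + 1) = g (s n) := fun n => Function.iterate_succ_apply' g n _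
  have hanti : Antitone fun n => (s n).1.1 := by
    refine antitone_nat_of_succ_le fun n => ?_
    rw [hs]
    exact hg2 (s n)
  refine ⟨η, fun j => (s (j + 1)).2, fun j => (s j).1.1 \ (s (j + 1)).1.1, hη, ?_, ?_, ?_⟩
  · refine strictMono_nat_of_lt_succ fun n => ?_
    beta_reduce
    rw [hs (n + 1)]
    exact hg1 (s (n + 1))
  · have hlt : ∀ i j, i < j → Disjoint ((s i).1.1 \ (s (i + 1)).1.1)
        ((s j).1.1 \ (s (j + 1)).1.1) := by
      intro i j hij
      have h1 : (s j).1.1 \ (s (j + 1)).1.1 ≤ (s (i + 1)).1.1 :=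
        sdiff_le.trans (hanti (Nat.succ_le_of_lt hij))
      exact disjoint_sdiff_self_left.mono_right h1
    intro i j hij
    rcases lt_or_gt_of_ne hij with h1 | h1
    · exact hlt i j h1
    · exact (hlt j i h1).symm
  · intro j
    beta_reduce
    rw [hs j]
    exact hg3 (s j)

lemma caseTwo (hc : ∀ k, ∑ p ∈ F k, |c k p| = 1)
    (h : ∀ (E : Finset (St A)) (η : ℝ), 0 < η → ∃ b : A, (∀ p ∈ E, p.1 b = true) ∧
      ∀ᶠ k in atTop, V F c k b < η) :
    ∃ (η : ℝ) (κ : ℕ → ℕ) (b : ℕ → A), 0 < η ∧ StrictMono κ ∧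
      (∀ i j, i ≠ j → Disjoint (b i) (b j)) ∧ ∀ j, η ≤ V F c (κ j) (b j) := by
  have h' : ∀ (E : Finset (St A)) (j : ℕ), ∃ (b : A) (N : ℕ), (∀ p ∈ E, p.1 b = true) ∧
      ∀ k, N ≤ k → V F c k b < (1 / 2) ^ (j + 3) := by
    intro E j
    obtain ⟨b, hb, hk⟩ := h E ((1 / 2) ^ (j + 3)) (by positivity)
    obtain ⟨N, hN⟩ := Filter.eventually_atTop.1 hk
    exact ⟨b, N, hb, hN⟩
  choose β N hβ hN using h'
  let κ : ℕ → ℕ := fun n => Nat.rec 0 (fun j k => max (k + 1) (N (F k) j)) n
  have hκ : ∀ j, κ (j + 1) = max (κ j + 1) (N (F (κ j)) j) := fun j => rfl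
  have hmono : StrictMono κ := by
    refine strictMono_nat_of_lt_succ fun n => ?_
    rw [hκ]
    exact lt_of_lt_of_le (Nat.lt_succ_self _) (le_max_left _ _)
  let B : ℕ → A := fun j => β (F (κ j)) j
  have hB : ∀ i j, i < j → V F c (κ j) (B i) < (1 / 2) ^ (i + 3) := by
    intro i j hij
    refine hN (F (κ i)) i (κ j) ?_
    have h1 : N (F (κ i)) i ≤ κ (i + 1) := by
      rw [hκ]
      exact le_max_right _ _
    exact h1.trans (hmono.monotone (Nat.succ_le_of_lt hij))
  refine ⟨1 / 2, κ, fun j => B j \ (Finset.range j).sup B, by norm_num, hmono, ?_, ?_⟩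
  · have hlt : ∀ i j, i < j → Disjoint (B i \ (Finset.range i).sup B)
        (B j \ (Finset.range j).sup B) := by
      intro i j hij
      have h1 : B i \ (Finset.range i).sup B ≤ (Finset.range j).sup B :=
        sdiff_le.trans (Finset.le_sup (Finset.mem_range.2 hij))
      exact (disjoint_sdiff_self_right).mono_left h1
    intro i j hij
    rcases lt_or_gt_of_ne hij with h1 | h1
    · exact hlt i j h1
    · exact (hlt j i h1).symm
  · intro j
    beta_reduce
    have h1 : (1 : ℝ) ≤ V F c (κ j) (B j \ (Finset.range j).sup B) +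
        ∑ i ∈ Finset.range j, V F c (κ j) (B i) := by
      rw [← hc (κ j)]
      unfold V
      rw [Finset.sum_comm, ← Finset.sum_add_distrib]
      refine Finset.sum_le_sum fun p hp => ?_
      have h0 := abs_nonneg (c (κ j) p)
      have hnn : ∀ i ∈ Finset.range j, 0 ≤ (if p.1 (B i) = true then |c (κ j) p| else 0) := by
        intro i _
        split_ifs
        · exact h0
        · exact le_refl _
      by_cases h2 : p.1 ((Finset.range j).sup B) = true
      · obtain ⟨i, hi, h3⟩ := (ev_fsup p B j).1 h2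
        have h4 := Finset.single_le_sum hnn (Finset.mem_range.2 hi)
        rw [if_pos h3] at h4
        refine h4.trans ?_
        have h5 : 0 ≤ (if p.1 (B j \ (Finset.range j).sup B) = true then |c (κ j) p| else 0) := by
          split_ifs
          · exact h0
          · exact le_refl _
        linarith
      · have h3 : p.1 (B j \ (Finset.range j).sup B) = true := by
          rw [ev_sdiff, Bool.and_eq_true]
          refine ⟨hβ (F (κ j)) j p hp, ?_⟩
          rw [Bool.not_eq_true] at h2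
          rw [h2]
          rfl
        rw [if_pos h3]
        have h4 := Finset.sum_nonneg hnn
        linarith
    have h2 : ∑ i ∈ Finset.range j, V F c (κ j) (B i) ≤
        ∑ i ∈ Finset.range j, (1 / 2 : ℝ) ^ (i + 3) :=
      Finset.sum_le_sum fun i hi => (hB i j (Finset.mem_range.1 hi)).le
    have h3 : ∑ i ∈ Finset.range j, (1 / 2 : ℝ) ^ (i + 3) ≤ 1 / 4 := by
      have h4 : ∀ j : ℕ, ∑ i ∈ Finset.range j, (1 / 2 : ℝ) ^ (i + 3) = 1 / 4 - (1 / 2) ^ (j + 2) := by
        intro j
        induction j with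
        | zero => norm_num
        | succ j ih =>
          rw [Finset.sum_range_succ, ih]
          ring
      rw [h4]
      have : (0 : ℝ) ≤ (1 / 2) ^ (j + 2) := by positivity
      linarith
    linarith

lemma local_small (q : St A) (η : ℝ) (hη : 0 < η)
    (hlim : ∀ a, Tendsto (fun k => ∑ p ∈ F k, if p.1 a = true then c k p else 0) atTop (𝓝 0))
    (h : ∃ b : A, q.1 b = true ∧ ∀ᶠ k in atTop, W F c q k b < η / 4) :
    ∃ b : A, q.1 b = true ∧ ∀ᶠ k in atTop, V F c k b < η := by
  classical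
  obtain ⟨b, hb, hW⟩ := h
  refine ⟨b, hb, ?_⟩
  have h1 : ∀ᶠ k in atTop, |∑ p ∈ F k, if p.1 b = true then c k p else 0| < η / 4 := by
    have h2 := (hlim b).abs
    rw [abs_zero] at h2
    exact h2.eventually (gt_mem_nhds (by positivity))
  filter_upwards [hW, h1] with k hk1 hk2
  have e1 : V F c k b = W F c q k b + (if q ∈ F k then |c k q| else 0) := by
    unfold V W
    have h3 : (if q ∈ F k then |c k q| else 0) = ∑ p ∈ F k, if p = q then |c k p| else 0 := by
      rw [Finset.sum_ite_eq']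
    rw [h3, ← Finset.sum_add_distrib]
    refine Finset.sum_congr rfl fun p _ => ?_
    by_cases hp : p = q
    · subst hp
      simp [hb]
    · simp [hp]
  have e2 : (if q ∈ F k then c k q else 0) = (∑ p ∈ F k, if p.1 b = true then c k p else 0) -
      ∑ p ∈ F k, if p ≠ q ∧ p.1 b = true then c k p else 0 := by
    have h3 : (if q ∈ F k then c k q else 0) = ∑ p ∈ F k, if p = q then c k p else 0 := by
      rw [Finset.sum_ite_eq']
    rw [h3, ← Finset.sum_sub_distrib]
    refine Finset.sum_congr rfl fun p _ => ?_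
    by_cases hp : p = q
    · subst hp
      simp [hb]
    · simp [hp]
  have e3 : |∑ p ∈ F k, if p ≠ q ∧ p.1 b = true then c k p else 0| ≤ W F c q k b := by
    unfold W
    refine (Finset.abs_sum_le_sum_abs _ _).trans (le_of_eq ?_)
    refine Finset.sum_congr rfl fun p _ => ?_
    split_ifs
    · rfl
    · exact abs_zero
  have e4 : (if q ∈ F k then |c k q| else 0) = |if q ∈ F k then c k q else 0| := by
    split_ifs
    · rfl
    · exact abs_zero.symm
  rw [e1, e4, e2]
  have e5 := abs_sub (∑ p ∈ F k, if p.1 b = true then c k p else 0)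
    (∑ p ∈ F k, if p ≠ q ∧ p.1 b = true then c k p else 0)
  linarith

end FSaux

open FSaux in
theorem pf_FS : T_FS := by
  intro A _ F c hc hlim
  change ∃ (η : ℝ) (κ : ℕ → ℕ) (b : ℕ → A), 0 < η ∧ StrictMono κ ∧
      (∀ i j, i ≠ j → Disjoint (b i) (b j)) ∧ ∀ j, η ≤ V F c (κ j) (b j)
  by_cases hcase : ∃ (q : St A) (η : ℝ), 0 < η ∧
      ∀ b : A, q.1 b = true → ∃ᶠ k in atTop, η ≤ W F c q k b
  · obtain ⟨q, η, hη, h⟩ := hcase
    exact caseOne F c q η hη h
  · push Not at hcase
    refine caseTwo F c hc ?_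
    have hloc : ∀ (q : St A) (η : ℝ), 0 < η → ∃ b : A, q.1 b = true ∧
        ∀ᶠ k in atTop, V F c k b < η := by
      intro q η hη
      refine local_small F c q η hη hlim ?_
      obtain ⟨b, hb, h⟩ := hcase q (η / 4) (by positivity)
      refine ⟨b, hb, ?_⟩
      simpa only [Filter.not_frequently, not_le] using h
    classical
    intro E
    induction E using Finset.induction_on with
    | empty =>
      intro η hη
      refine ⟨⊥, fun p hp => by simp at hp, Filter.Eventually.of_forall fun k => ?_⟩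
      have h1 : V F c k ⊥ = 0 := by
        unfold V
        refine Finset.sum_eq_zero fun p _ => ?_
        rw [ev_bot]
        simp
      rw [h1]
      exact hη
    | insert q E _ ih =>
      intro η hη
      obtain ⟨b, hb, h1⟩ := ih (η / 2) (by positivity)
      obtain ⟨b', hb', h2⟩ := hloc q (η / 2) (by positivity)
      refine ⟨b ⊔ b', ?_, ?_⟩
      · intro p hp
        rw [ev_sup]
        rcases Finset.mem_insert.1 hp with h3 | h3
        · rw [h3, hb', Bool.or_true]
        · rw [hb p h3, Bool.true_or]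
      · filter_upwards [h1, h2] with k hk1 hk2
        have := V_sup F c k b b'
        linarith

end H95.GN
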