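import Pool.Agent.H95.GN.Targets

set_option autoImplicit false

open Filter Topology Set

namespace H95.GN

universe u

theorem pf_G1 (hBE : T_BE.{u}) (hNW : T_NW.{u}) (hTC : T_TC.{u}) : T_G1.{u} := by
  intro A _ π hπ hs hG
  classical
  obtain ⟨ν, g, hν, hg1, hg0, hgs, hB⟩ := hBE (St A) π hπ hs
  have hchi : ∀ a : A, ‖chi a‖ ≤ 1 := by
    intro a
    rw [ContinuousMap.norm_le _ zero_le_one]
    intro p
    simp only [chi, ContinuousMap.coe_mk]
    split_ifs <;> simp
  have hcard : ∀ (a : A) (k : ℕ) (F : Finset ℕ),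
      (∀ j ∈ F, (1 : ℝ) / (k + 1) ≤ |ν k j (chi a)|) → F.card ≤ (k + 1) ^ 2 := by
    intro a k F hF
    have h1 := hB k (chi a) (hchi a) F
    have hk : (0 : ℝ) < (k : ℝ) + 1 := by positivity
    have h2 : (F.card : ℝ) * (1 / ((k : ℝ) + 1)) ^ 2 ≤ 1 := by
      refine le_trans ?_ h1
      rw [← nsmul_eq_mul]
      apply Finset.card_nsmul_le_sum
      intro j hj
      rw [← sq_abs (ν k j (chi a))]
      exact pow_le_pow_left₀ (by positivity) (hF j hj) 2
    have h3 : (F.card : ℝ) ≤ ((k : ℝ) + 1) ^ 2 := by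
      rw [div_pow, one_pow, mul_one_div, div_le_one (by positivity)] at h2
      exact h2
    exact_mod_cast h3
  have hfin : ∀ (a : A) (k : ℕ), {j | (1 : ℝ) / (k + 1) ≤ |ν k j (chi a)|}.Finite := by
    intro a k
    by_contra hinf
    obtain ⟨F, hF, hc⟩ := Set.Infinite.exists_subset_card_eq hinf ((k + 1) ^ 2 + 1)
    have := hcard a k F (fun j hj => hF hj)
    omega
  refine ⟨fun a k => (hfin a k).toFinset, fun k => (k + 1) ^ 2, ?_, ?_⟩
  · intro a k
    apply hcard a k
    intro j hj
    exact (hfin a k).mem_toFinset.mp hj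
  · intro x
    by_contra hcon
    push Not at hcon
    have hcon' : ∀ a : A, {k : ℕ | (1 : ℝ) / ((k : ℝ) + 1) ≤ |ν k (x k) (chi a)|}.Finite := by
      intro a
      refine Set.Finite.subset (hcon a) ?_
      intro k hk
      exact (hfin a k).mem_toFinset.mpr hk
    have ht : ∀ a : A, Tendsto (fun k => ν k (x k) (chi a)) atTop (𝓝 0) := by
      intro a
      have h0 : Tendsto (fun k : ℕ => (1 : ℝ) / ((k : ℝ) + 1)) atTop (𝓝 0) :=
        tendsto_one_div_add_atTop_nhds_zero_nat
      apply squeeze_zero_norm' _ h0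
      have := (hcon' a).compl_mem_cofinite
      rw [Nat.cofinite_eq_atTop] at this
      filter_upwards [this] with k hk
      simp only [Set.mem_compl_iff] at hk
      rw [Real.norm_eq_abs]
      by_contra hlt
      exact hk (le_of_lt (not_le.mp hlt))
    have hw := hTC A (fun k => ν k (x k)) (fun k => hν k (x k)) ht
    have hG' := hG (fun k => ν k (x k)) 0 (by
      intro f
      simpa using hw f)
    obtain ⟨_, hS⟩ := hNW C(St A, ℝ) (fun k => g k (x k)) (fun s ε hε => hgs x s ε hε)
    obtain ⟨Φ, hΦ⟩ := hS Set.univ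
    have h1 := hG' Φ
    have h2 : ∀ k, Φ (ν k (x k)) = 1 := by
      intro k
      rw [hΦ]
      rw [tsum_eq_single k]
      · simp [hg1]
      · intro j hj
        simp [hg0 k j (x k) (x j) (Ne.symm hj)]
    simp only [h2, map_zero] at h1
    exact one_ne_zero (tendsto_nhds_unique tendsto_const_nhds h1)

end H95.GN
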