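import Pool.Agent.H95.GN.Targets

set_option autoImplicit false

open Filter Topology Set

namespace H95.GN

universe u

namespace LAaux

variable {K : Type u} [TopologicalSpace K] [CompactSpace K]

/-- extension by zero -/
def ext (m : ℕ) (s : Fin m → Bool) : ℕ → Bool := fun i => if h : i < m then s ⟨i, h⟩ else false

/-- average -/
noncomputable def avg (q : (ℕ → Bool) → K) (m : ℕ) (f : C(K, ℝ)) : ℝ :=
  (2 ^ m : ℝ)⁻¹ * ∑ s : Fin m → Bool, f (q (ext m s))

lemma avg_add (q : (ℕ → Bool) → K) (m : ℕ) (f g : C(K, ℝ)) :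
    avg q m (f + g) = avg q m f + avg q m g := by
  simp only [avg, ContinuousMap.add_apply, Finset.sum_add_distrib, mul_add]

lemma avg_smul (q : (ℕ → Bool) → K) (m : ℕ) (c : ℝ) (f : C(K, ℝ)) :
    avg q m (c • f) = c * avg q m f := by
  simp only [avg, ContinuousMap.smul_apply, smul_eq_mul, ← Finset.mul_sum]
  ring

lemma avg_one (q : (ℕ → Bool) → K) (m : ℕ) : avg q m 1 = 1 := by
  simp [avg]

lemma avg_abs (q : (ℕ → Bool) → K) (m : ℕ) (f : C(K, ℝ)) : |avg q m f| ≤ ‖f‖ := by
  have h2 : (0 : ℝ) < 2 ^ m := by positivity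
  have h1 : |∑ s : Fin m → Bool, f (q (ext m s))| ≤ 2 ^ m * ‖f‖ := by
    refine (Finset.abs_sum_le_sum_abs _ _).trans ?_
    have : ∑ s : Fin m → Bool, |f (q (ext m s))| ≤ ∑ _s : Fin m → Bool, ‖f‖ :=
      Finset.sum_le_sum (fun s _ => f.norm_coe_le_norm _)
    refine this.trans (le_of_eq ?_)
    simp
  rw [avg, abs_mul, abs_of_pos (inv_pos.mpr h2), inv_mul_le_iff₀ h2]
  exact h1

lemma avg_nonneg (q : (ℕ → Bool) → K) (m : ℕ) (f : C(K, ℝ)) (hf : ∀ x, 0 ≤ f x) :
    0 ≤ avg q m f :=
  mul_nonneg (by positivity) (Finset.sum_nonneg (fun s _ => hf _))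

lemma avg_rad (π : K → (ℕ → Bool)) (hπ : Continuous π) (q : (ℕ → Bool) → K)
    (hq : ∀ y, π (q y) = y) (F : Finset ℕ) (j0 : ℕ) (hj0 : j0 ∈ F) (m : ℕ) (hm : j0 < m) :
    avg q m (∏ j ∈ F, rad π hπ j) = 0 := by
  classical
  have hval : ∀ y : ℕ → Bool, (∏ j ∈ F, rad π hπ j : C(K, ℝ)) (q y) =
      ∏ j ∈ F, (if y j = true then (-1 : ℝ) else 1) := by
    intro y
    rw [ContinuousMap.prod_apply]
    apply Finset.prod_congr rfl
    intro j _
    simp only [rad, ContinuousMap.coe_mk, hq]
  -- the flip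
  let fl : (Fin m → Bool) → (Fin m → Bool) := fun s i => if (i : ℕ) = j0 then !(s i) else s i
  have hfl : Function.Involutive fl := by
    intro s
    funext i
    simp only [fl]
    split_ifs <;> simp
  have hneg : ∀ s : Fin m → Bool, ∏ j ∈ F, (if ext m (fl s) j = true then (-1 : ℝ) else 1) =
      - ∏ j ∈ F, (if ext m s j = true then (-1 : ℝ) else 1) := by
    intro s
    rw [← Finset.mul_prod_erase F _ hj0, ← Finset.mul_prod_erase F _ hj0, ← neg_mul]
    congr 1
    · simp only [ext, hm, dite_true, fl, if_true]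
      cases s ⟨j0, hm⟩ <;> simp
    · apply Finset.prod_congr rfl
      intro j hj
      have hne : j ≠ j0 := Finset.ne_of_mem_erase hj
      have : ext m (fl s) j = ext m s j := by
        simp only [ext, fl]
        split_ifs <;> simp_all
      rw [this]
  have hsum : ∑ s : Fin m → Bool, ∏ j ∈ F, (if ext m s j = true then (-1 : ℝ) else 1) = 0 := by
    have h1 := (Equiv.sum_comp (Function.Involutive.toPerm fl hfl) (fun s : Fin m → Bool =>
      ∏ j ∈ F, (if ext m s j = true then (-1 : ℝ) else 1)))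
    have h2 : ∑ s : Fin m → Bool, ∏ j ∈ F,
        (if ext m ((Function.Involutive.toPerm fl hfl) s) j = true then (-1 : ℝ) else 1)
        = - ∑ s : Fin m → Bool, ∏ j ∈ F, (if ext m s j = true then (-1 : ℝ) else 1) := by
      rw [← Finset.sum_neg_distrib]
      exact Finset.sum_congr rfl (fun s _ => hneg s)
    linarith [h1.symm.trans h2]
  rw [avg]
  simp only [hval, hsum, mul_zero]

end LAaux

open LAaux

theorem pf_LA : T_LA.{u} := by
  intro K _ _ π hπ hs
  classical
  choose q hq using hs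
  have hlim : ∀ f : C(K, ℝ), ∃ l : ℝ, |l| ≤ ‖f‖ ∧
      Tendsto (fun m => avg q m f) (Filter.hyperfilter ℕ : Filter ℕ) (𝓝 l) := by
    intro f
    have hc : IsCompact (Set.Icc (-‖f‖) ‖f‖) := isCompact_Icc
    have hmem : ∀ m, avg q m f ∈ Set.Icc (-‖f‖) ‖f‖ := fun m => abs_le.mp (avg_abs q m f)
    obtain ⟨l, hl, hle⟩ := hc.ultrafilter_le_nhds ((Filter.hyperfilter ℕ).map (fun m => avg q m f))
      (by
        rw [Filter.le_principal_iff, Ultrafilter.mem_coe, Ultrafilter.mem_map]
        exact Filter.univ_mem' hmem)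
    exact ⟨l, abs_le.mpr hl, hle⟩
  choose L hLn hLt using hlim
  let Λ₀ : C(K, ℝ) →ₗ[ℝ] ℝ :=
    { toFun := L
      map_add' := by
        intro f g
        have h1 := (hLt f).add (hLt g)
        have h2 := hLt (f + g)
        simp only [avg_add] at h2
        exact tendsto_nhds_unique h2 h1
      map_smul' := by
        intro c f
        have h1 := (hLt f).const_mul c
        have h2 := hLt (c • f)
        simp only [avg_smul] at h2
        exact tendsto_nhds_unique h2 h1 }
  refine ⟨Λ₀.mkContinuous 1 (by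
    intro f
    rw [one_mul]
    exact hLn f), ?_, ?_, ?_⟩
  · intro f hf
    exact ge_of_tendsto' (hLt f) (fun m => avg_nonneg q m f hf)
  · have h2 := hLt 1
    simp only [avg_one] at h2
    exact tendsto_nhds_unique h2 tendsto_const_nhds
  · intro F hF
    obtain ⟨j0, hj0⟩ := hF
    have h2 := hLt (∏ j ∈ F, rad π hπ j)
    have h3 : Tendsto (fun m => avg q m (∏ j ∈ F, rad π hπ j))
        (Filter.hyperfilter ℕ : Filter ℕ) (𝓝 0) := by
      apply Tendsto.congr' _ tendsto_const_nhds
      have : {m : ℕ | j0 < m} ∈ (Filter.hyperfilter ℕ : Filter ℕ) :=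
        Nat.hyperfilter_le_atTop (Filter.Ioi_mem_atTop j0)
      filter_upwards [this] with m hm
      exact (avg_rad π hπ q hq F j0 hj0 m hm).symm
    exact tendsto_nhds_unique h2 h3

end H95.GN
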