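import Pool.Agent.H95.GN.Targets

set_option autoImplicit false

open Filter Topology Set MeasureTheory
open scoped ENNReal symmDiff

namespace H95.GN

/-- an open set contains a cylinder around each of its points -/
theorem mc_cyl (U : Set (ℕ → Bool)) (hU : IsOpen U) (x : ℕ → Bool) (hx : x ∈ U) :
    ∃ N : ℕ, ∀ y : ℕ → Bool, (∀ i, i < N → y i = x i) → y ∈ U := by
  obtain ⟨I, u, hu, hsub⟩ := isOpen_pi_iff.mp hU x hx
  refine ⟨I.sup id + 1, fun y hy => hsub ?_⟩
  intro i hi
  have h1 : i ≤ I.sup id := Finset.le_sup (f := id) (Finset.mem_coe.mp hi)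
  rw [hy i (by omega)]
  exact (hu i (Finset.mem_coe.mp hi)).2

/-- cylinders are open -/
theorem mc_open (x : ℕ → Bool) (N : ℕ) : IsOpen {y : ℕ → Bool | ∀ i, i < N → y i = x i} := by
  have : {y : ℕ → Bool | ∀ i, i < N → y i = x i} =
      ⋂ i ∈ Finset.range N, {y : ℕ → Bool | y i = x i} := by
    ext y
    simp
  rw [this]
  refine isOpen_biInter_finset fun i _ => ?_
  have h : IsOpen ((fun y : ℕ → Bool => y i) ⁻¹' {x i}) :=
    (isOpen_discrete ({x i} : Set Bool)).preimage (continuous_apply i)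
  exact h

theorem mc_list (C : Set (ℕ → Bool)) (hC : IsClosed C) (hi : interior C = ∅) (m : ℕ)
    (L : List (ℕ → Bool)) : ∀ (m1 : ℕ) (w : ℕ → Bool), m ≤ m1 →
    ∃ (m' : ℕ) (w' : ℕ → Bool), m1 ≤ m' ∧ (∀ i, m ≤ i → i < m1 → w' i = w i) ∧
      ∀ s ∈ L, ∀ x : ℕ → Bool, (∀ i, i < m → x i = s i) →
        (∀ i, m ≤ i → i < m' → x i = w' i) → x ∉ C := by
  induction L with
  | nil =>
    intro m1 w _
    exact ⟨m1, w, le_refl _, fun _ _ _ => rfl, by simp⟩
  | cons s L ih =>
    intro m1 w hm
    obtain ⟨m2, w2, h12, hw, hL⟩ := ih m1 w hm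
    -- the cylinder
    let t : ℕ → Bool := fun i => if i < m then s i else w2 i
    have hopen := mc_open t m2
    have hnot : ¬ ({y : ℕ → Bool | ∀ i, i < m2 → y i = t i} ⊆ C) := by
      intro hsub
      have h1 : t ∈ interior C := by
        rw [mem_interior]
        exact ⟨_, hsub, hopen, fun i _ => rfl⟩
      rw [hi] at h1
      exact h1
    obtain ⟨x0, hx0, hx0C⟩ := Set.not_subset.mp hnot
    obtain ⟨N, hN⟩ := mc_cyl Cᶜ hC.isOpen_compl x0 hx0C
    have hx0' : ∀ i, m ≤ i → i < m2 → x0 i = w2 i := by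
      intro i h1 h2
      have := hx0 i h2
      simp only [t] at this
      rw [if_neg (by omega)] at this
      exact this
    have hx0s : ∀ i, i < m → x0 i = s i := by
      intro i h1
      have := hx0 i (by omega)
      simp only [t] at this
      rw [if_pos h1] at this
      exact this
    refine ⟨max m2 N, x0, h12.trans (le_max_left _ _), ?_, ?_⟩
    · intro i h1 h2
      rw [hx0' i h1 (by omega), hw i h1 h2]
    · intro s' hs' x hxs hxw
      rcases List.mem_cons.mp hs' with rfl | hs'
      · have : x ∈ Cᶜ := by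
          apply hN
          intro i hiN
          by_cases h1 : i < m
          · rw [hxs i h1, hx0s i h1]
          · exact hxw i (by omega) (lt_of_lt_of_le hiN (le_max_right _ _))
        exact this
      · refine hL s' hs' x hxs ?_
        intro i h1 h2
        rw [hxw i h1 (lt_of_lt_of_le h2 (le_max_left _ _)), hx0' i h1 h2]

theorem mc_key (C : Set (ℕ → Bool)) (hC : IsClosed C) (hi : interior C = ∅) (m : ℕ) :
    ∃ (m' : ℕ) (w : ℕ → Bool), m < m' ∧
      ∀ x : ℕ → Bool, (∀ i, m ≤ i → i < m' → x i = w i) → x ∉ C := by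
  classical
  let ext : (Fin m → Bool) → (ℕ → Bool) := fun s i => if h : i < m then s ⟨i, h⟩ else false
  obtain ⟨m', w', h1, -, h3⟩ := mc_list C hC hi m
    ((Finset.univ : Finset (Fin m → Bool)).toList.map ext) (m + 1) (fun _ => false) (by omega)
  refine ⟨m', w', by omega, ?_⟩
  intro x hx
  refine h3 (ext fun i => x i) ?_ x ?_ hx
  · exact List.mem_map.mpr ⟨fun i => x i, Finset.mem_toList.mpr (Finset.mem_univ _), rfl⟩
  · intro i hi
    simp only [ext]
    rw [dif_pos hi]

theorem pf_MC : T_MC := by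
  classical
  intro M hM
  obtain ⟨S, hSn, hSc, hSM⟩ := isMeagre_iff_countable_union_isNowhereDense.mp hM
  -- a sequence of nowhere dense sets
  obtain ⟨D, hDn, hDM⟩ : ∃ D : ℕ → Set (ℕ → Bool), (∀ n, IsNowhereDense (D n)) ∧
      M ⊆ ⋃ n, D n := by
    rcases S.eq_empty_or_nonempty with rfl | hne
    · refine ⟨fun _ => ∅, fun _ => isNowhereDense_empty, ?_⟩
      intro y hy
      have := hSM hy
      simp at this
    · obtain ⟨f, hf⟩ := hSc.exists_eq_range hne
      refine ⟨f, fun n => hSn _ (hf ▸ mem_range_self n), ?_⟩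
      intro y hy
      obtain ⟨s, hs, hys⟩ := hSM hy
      rw [hf] at hs
      obtain ⟨n, rfl⟩ := hs
      exact mem_iUnion.mpr ⟨n, hys⟩
  -- an increasing sequence of closed sets
  have hCex : ∀ n, IsClosed (⋃ k ∈ Finset.range (n + 1), closure (D k)) ∧
      interior (⋃ k ∈ Finset.range (n + 1), closure (D k)) = ∅ := by
    intro n
    induction n with
    | zero =>
      have h1 : (⋃ k ∈ Finset.range (0 + 1), closure (D k)) = closure (D 0) := by simp
      rw [h1]
      exact ⟨isClosed_closure, hDn 0⟩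
    | succ n ih =>
      have h1 : (⋃ k ∈ Finset.range (n + 1 + 1), closure (D k)) =
          (⋃ k ∈ Finset.range (n + 1), closure (D k)) ∪ closure (D (n + 1)) := by
        ext y
        simp only [mem_iUnion, Finset.mem_range, mem_union, exists_prop]
        constructor
        · rintro ⟨k, hk, hy⟩
          rcases Nat.lt_succ_iff_lt_or_eq.mp hk with h | h
          · exact Or.inl ⟨k, h, hy⟩
          · right; rw [← h]; exact hy
        · rintro (⟨k, hk, hy⟩ | hy)
          · exact ⟨k, by omega, hy⟩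
          · exact ⟨n + 1, by omega, hy⟩
      rw [h1]
      refine ⟨ih.1.union isClosed_closure, ?_⟩
      rw [interior_union_isClosed_of_interior_empty ih.1 (hDn (n + 1))]
      exact ih.2
  choose F W hFW1 hFW2 using fun (n m : ℕ) => mc_key _ (hCex n).1 (hCex n).2 m
  obtain ⟨e, he⟩ : ∃ e : ℕ → ℕ, ∀ j, e (j + 1) = F j (e j) :=
    ⟨fun n => Nat.rec (motive := fun _ => ℕ) 0 (fun j m => F j m) n, fun j => rfl⟩
  have hmono : StrictMono e := strictMono_nat_of_lt_succ fun j => by
    rw [he]; exact hFW1 j (e j)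
  let J : ℕ → ℕ := fun n => Nat.findGreatest (fun j => e j ≤ n) n
  have hJ : ∀ j n, e j ≤ n → n < e (j + 1) → J n = j := by
    intro j n h1 h2
    have hj : j ≤ n := (hmono.le_apply (x := j)).trans h1
    have h3 : j ≤ J n := Nat.le_findGreatest (P := fun k => e k ≤ n) (m := j) (n := n) hj h1
    have h4 : e (J n) ≤ n :=
      Nat.findGreatest_spec (P := fun k => e k ≤ n) (m := j) (n := n) hj h1
    by_contra hne
    have h5 : j + 1 ≤ J n := by omega
    have h6 := hmono.monotone h5
    omega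
  refine ⟨fun n => W (J n) (e (J n)) n, e, hmono, ?_⟩
  intro y hy
  obtain ⟨j0, hj0⟩ := mem_iUnion.mp (hDM hy)
  refine ⟨j0, fun j hj => ?_⟩
  by_contra hcon
  push Not at hcon
  refine hFW2 j (e j) y ?_ ?_
  · intro i h1 h2
    have h3 := hcon i h1 (by rw [he]; exact h2)
    rw [h3, hJ j i h1 (by rw [he]; exact h2)]
  · exact mem_biUnion (Finset.mem_coe.mpr (Finset.mem_range.mpr (by omega)))
      (subset_closure hj0)

end H95.GN
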