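import Pool.Agent.H95.GN.Targets

/-!
# N1: the Nikodym property gives a family of slaloms
-/

open Filter Topology Set

namespace H95.GN

universe u

lemma n1_hom_sup {A : Type u} [BooleanAlgebra A] {x : A → Bool} (hx : IsHom x) (a b : A) :
    x (a ⊔ b) = (x a || x b) := by
  have h : a ⊔ b = (aᶜ ⊓ bᶜ)ᶜ := by simp
  rw [h, hx.2.2, hx.2.1, hx.2.2, hx.2.2]
  cases x a <;> cases x b <;> rfl

lemma n1_hom_bot {A : Type u} [BooleanAlgebra A] {x : A → Bool} (hx : IsHom x) :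
    x ⊥ = false := by
  rw [← compl_top, hx.2.2, hx.1]
  rfl

lemma n1_chi_sup {A : Type u} [BooleanAlgebra A] {a b : A} (hab : Disjoint a b) :
    chi (a ⊔ b) = chi a + chi b := by
  ext p
  have h1 := n1_hom_sup p.2 a b
  have h2 : (p.1 a && p.1 b) = false := by
    rw [← p.2.2.1, disjoint_iff.1 hab]
    exact n1_hom_bot p.2
  simp only [chi, ContinuousMap.coe_mk, ContinuousMap.add_apply, h1]
  cases ha : p.1 a <;> cases hb : p.1 b <;> simp_all

lemma n1_norm_chi {A : Type u} [BooleanAlgebra A] (a : A) : ‖chi a‖ ≤ 1 := by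
  rw [ContinuousMap.norm_le _ zero_le_one]
  intro p
  simp only [chi, ContinuousMap.coe_mk]
  split_ifs <;> simp

/-- two functionals which agree on the indicators are equal -/
lemma n1_ext (hTC : T_TC.{u}) {A : Type u} [BooleanAlgebra A] {L L' : C(St A, ℝ) →L[ℝ] ℝ}
    (h : ∀ a, L (chi a) = L' (chi a)) : L = L' := by
  set M := L - L' with hM
  have hM0 : 0 ≤ ‖M‖ := M.opNorm_nonneg
  have hpos : 0 < ‖M‖ + 1 := by linarith
  have h1 : ‖(‖M‖ + 1)⁻¹ • M‖ ≤ 1 := by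
    refine ContinuousLinearMap.opNorm_le_bound _ zero_le_one fun f => ?_
    have h2 : ‖M f‖ ≤ ‖M‖ * ‖f‖ := M.le_opNorm f
    have h3 : ((‖M‖ + 1)⁻¹ • M) f = (‖M‖ + 1)⁻¹ * M f := rfl
    rw [h3, norm_mul, norm_inv, Real.norm_of_nonneg hpos.le, inv_mul_le_iff₀ hpos]
    have h4 := norm_nonneg f
    nlinarith
  have h2 := hTC A (fun _ => (‖M‖ + 1)⁻¹ • M) (fun _ => h1) (fun a => by
    have : ((‖M‖ + 1)⁻¹ • M) (chi a) = 0 := by
      simp [hM, h a]
    simp only [this]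
    exact tendsto_const_nhds)
  ext f
  have h3 := tendsto_nhds_unique (h2 f) tendsto_const_nhds
  have h4 : M f = 0 := by
    have h5 : (‖M‖ + 1)⁻¹ * M f = 0 := by
      have := h3.symm
      simpa using this
    rcases mul_eq_zero.1 h5 with h6 | h6
    · exact absurd h6 (inv_ne_zero hpos.ne')
    · exact h6
  have h5 : L f - L' f = 0 := by
    have := h4
    simpa [hM] using this
  linarith

theorem pf_N1 (hBE : T_BE.{u}) (hEX : T_EX.{u}) (hTC : T_TC.{u}) : T_N1.{u} := by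
  intro A _ π hπ hs hN
  obtain ⟨ν, g, hν, hg1, _, hg, hB⟩ := hBE (St A) π hπ hs
  -- the Bessel inequality bounds the number of large values
  have hcard : ∀ (a : A) (n : ℕ) (F : Finset ℕ),
      (∀ j ∈ F, 1 / ((n : ℝ) + 1) ≤ |ν 0 j (chi a)|) → F.card ≤ (n + 1) ^ 2 := by
    intro a n F hF
    have h1 := hB 0 (chi a) (n1_norm_chi a) F
    have hn : (0 : ℝ) < (n : ℝ) + 1 := by positivity
    have h2 : ∑ j ∈ F, (1 / ((n : ℝ) + 1)) ^ 2 ≤ ∑ j ∈ F, (ν 0 j (chi a)) ^ 2 := by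
      refine Finset.sum_le_sum fun j hj => ?_
      rw [← sq_abs (ν 0 j (chi a))]
      exact pow_le_pow_left₀ (by positivity) (hF j hj) 2
    rw [Finset.sum_const, nsmul_eq_mul] at h2
    have h3 : (F.card : ℝ) * (1 / ((n : ℝ) + 1)) ^ 2 ≤ 1 := h2.trans h1
    have h4 : (F.card : ℝ) ≤ ((n : ℝ) + 1) ^ 2 := by
      have h5 : (1 / ((n : ℝ) + 1)) ^ 2 = 1 / ((n : ℝ) + 1) ^ 2 := by rw [div_pow, one_pow]
      rw [h5, mul_one_div, div_le_one (by positivity)] at h3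
      exact h3
    exact_mod_cast h4
  have hfin : ∀ (a : A) (n : ℕ), {j : ℕ | 1 / ((n : ℝ) + 1) ≤ |ν 0 j (chi a)|}.Finite := by
    intro a n
    by_contra hinf
    obtain ⟨F, hF, hFc⟩ := Set.Infinite.exists_subset_card_eq hinf ((n + 1) ^ 2 + 1)
    have := hcard a n F (fun j hj => hF hj)
    omega
  refine ⟨fun a n => (hfin a n).toFinset, fun n => (n + 1) ^ 2, ?_, ?_⟩
  · intro a n
    exact hcard a n _ (fun j hj => by simpa using hj)
  intro x
  by_contra hx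
  push Not at hx
  -- the measures
  have hmeas : ∀ n : ℕ, IsMeas (fun a : A => ((n : ℝ) + 1) * ν 0 (x n) (chi a)) := by
    intro n
    refine ⟨fun a b hab => ?_, (n : ℝ) + 1, fun a => ?_⟩
    · simp only
      rw [n1_chi_sup hab, map_add]
      ring
    · rw [abs_mul, abs_of_nonneg (by positivity : (0 : ℝ) ≤ (n : ℝ) + 1)]
      have h1 : |ν 0 (x n) (chi a)| ≤ 1 := by
        have h2 := (ν 0 (x n)).le_opNorm (chi a)
        rw [Real.norm_eq_abs] at h2
        calc |ν 0 (x n) (chi a)| ≤ ‖ν 0 (x n)‖ * ‖chi a‖ := h2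
          _ ≤ 1 * 1 := mul_le_mul (hν _ _) (n1_norm_chi a) (norm_nonneg _) zero_le_one
          _ = 1 := one_mul 1
      calc ((n : ℝ) + 1) * |ν 0 (x n) (chi a)| ≤ ((n : ℝ) + 1) * 1 := by gcongr
        _ = (n : ℝ) + 1 := mul_one _
  have hbdd : ∀ a : A, ∃ C : ℝ, ∀ n : ℕ, |((n : ℝ) + 1) * ν 0 (x n) (chi a)| ≤ C := by
    intro a
    have hfin' : {k | x k ∈ (hfin a k).toFinset}.Finite := hx a
    obtain ⟨m, hm⟩ := hfin'.bddAbove
    refine ⟨(m : ℝ) + 2, fun n => ?_⟩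
    rw [abs_mul, abs_of_nonneg (by positivity : (0 : ℝ) ≤ (n : ℝ) + 1)]
    by_cases hmem : x n ∈ (hfin a n).toFinset
    · have h1 : n ≤ m := hm hmem
      have h1' : (n : ℝ) ≤ m := by exact_mod_cast h1
      have h2 : |ν 0 (x n) (chi a)| ≤ 1 := by
        have h2 := (ν 0 (x n)).le_opNorm (chi a)
        rw [Real.norm_eq_abs] at h2
        calc |ν 0 (x n) (chi a)| ≤ ‖ν 0 (x n)‖ * ‖chi a‖ := h2
          _ ≤ 1 * 1 := mul_le_mul (hν _ _) (n1_norm_chi a) (norm_nonneg _) zero_le_one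
          _ = 1 := one_mul 1
      calc ((n : ℝ) + 1) * |ν 0 (x n) (chi a)| ≤ ((n : ℝ) + 1) * 1 := by gcongr
        _ ≤ (m : ℝ) + 2 := by linarith
    · have h1 : |ν 0 (x n) (chi a)| < 1 / ((n : ℝ) + 1) := by
        by_contra h
        exact hmem (by simpa using not_lt.1 h)
      have h2 : (0 : ℝ) < (n : ℝ) + 1 := by positivity
      have h3 : ((n : ℝ) + 1) * |ν 0 (x n) (chi a)| < 1 := by
        calc ((n : ℝ) + 1) * |ν 0 (x n) (chi a)| < ((n : ℝ) + 1) * (1 / ((n : ℝ) + 1)) := by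
              gcongr
          _ = 1 := mul_one_div_cancel h2.ne'
      have h4 : (0 : ℝ) ≤ m := Nat.cast_nonneg m
      linarith
  obtain ⟨C, hC⟩ := hN (fun n a => ((n : ℝ) + 1) * ν 0 (x n) (chi a)) hmeas hbdd
  have hkey : ∀ n : ℕ, (n : ℝ) + 1 ≤ C := by
    intro n
    obtain ⟨L, hL, hLC⟩ := hEX A _ C (hmeas n) (hC n)
    have hLe : L = ((n : ℝ) + 1) • ν 0 (x n) := by
      refine n1_ext hTC fun a => ?_
      rw [hL a]
      simp
    have hgn : ‖g 0 (x n)‖ ≤ 1 := by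
      have h1 := hg (fun _ => x n) {0} (fun _ => 1) (by simp)
      simpa using h1
    have h1 : L (g 0 (x n)) = (n : ℝ) + 1 := by
      rw [hLe]
      simp [hg1]
    have h2 := L.le_opNorm (g 0 (x n))
    rw [h1, Real.norm_of_nonneg (by positivity : (0 : ℝ) ≤ (n : ℝ) + 1)] at h2
    calc (n : ℝ) + 1 ≤ ‖L‖ * ‖g 0 (x n)‖ := h2
      _ ≤ C * 1 := mul_le_mul hLC hgn (norm_nonneg _) (L.opNorm_nonneg.trans hLC)
      _ = C := mul_one C
  obtain ⟨n, hn⟩ := exists_nat_gt C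
  have := hkey n
  linarith

end H95.GN
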