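import Pool.Agent.H95.GN.Targets

set_option autoImplicit false

open Filter Topology Set

namespace H95.GN

universe u

theorem pf_NM (hMC : T_MC) (hBP : T_BP.{u}) : T_NM.{u} := by
  classical
  intro I _ f hf
  obtain ⟨D, hDmono, hD⟩ := hBP I f (by
    intro g
    obtain ⟨i, hi⟩ := hf Set.univ Set.infinite_univ g
    refine ⟨i, ?_⟩
    simpa using hi)
  let y : (I × Bool) × I → ℕ → Bool := fun q n =>
    decide (∃ m, D q.1 m ≤ n ∧ n < D q.1 (m + 1) ∧
      n ∈ (Encodable.decode (α := Finset ℕ) (f q.2 m)).getD ∅)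
  refine ⟨Set.range y, ?_, ?_⟩
  · intro hX
    obtain ⟨z, e, he, hz⟩ := hMC _ hX
    obtain ⟨p, hp⟩ := hD e he
    set Y : Set ℕ := {m | ∃ j, D p m ≤ e j ∧ e (j + 1) ≤ D p (m + 1)} with hY
    let g : ℕ → ℕ := fun m =>
      Encodable.encode ((Finset.Ico (D p m) (D p (m + 1))).filter fun n => z n = true)
    obtain ⟨i, hi⟩ := hf Y hp g
    obtain ⟨j0, hj0⟩ := hz (y (p, i)) ⟨(p, i), rfl⟩
    obtain ⟨m, ⟨⟨j, hj1, hj2⟩, hfm⟩, hm⟩ := hi.exists_gt (e j0)
    have hjj : j0 ≤ j := by
      have h1 : m ≤ D p m := (hDmono p).id_le m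
      have h2 : e j0 < e j := by omega
      exact (he.lt_iff_lt.1 h2).le
    obtain ⟨n, hn1, hn2, hn3⟩ := hj0 j hjj
    apply hn3
    have hnm1 : D p m ≤ n := hj1.trans hn1
    have hnm2 : n < D p (m + 1) := hn2.trans_le hj2
    have hdec : (Encodable.decode (α := Finset ℕ) (f i m)).getD ∅ =
        (Finset.Ico (D p m) (D p (m + 1))).filter fun n => z n = true := by
      rw [hfm]
      simp only [g, Encodable.encodek, Option.getD_some]
    cases hzn : z n with
    | true =>
      simp only [y, decide_eq_true_eq]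
      refine ⟨m, hnm1, hnm2, ?_⟩
      rw [hdec, Finset.mem_filter, Finset.mem_Ico]
      exact ⟨⟨hnm1, hnm2⟩, hzn⟩
    | false =>
      simp only [y, decide_eq_false_iff_not]
      rintro ⟨m', h1, h2, h3⟩
      have hmm : m' = m := by
        rcases lt_trichotomy m' m with h | h | h
        · have h4 : D p (m' + 1) ≤ D p m := (hDmono p).monotone (by omega)
          omega
        · exact h
        · have h4 : D p (m + 1) ≤ D p m' := (hDmono p).monotone (by omega)
          omega
      subst hmm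
      rw [hdec, Finset.mem_filter] at h3
      rw [hzn] at h3
      exact absurd h3.2 (by decide)
  · refine (Cardinal.mk_range_le_lift (f := y)).trans ?_
    rw [Cardinal.lift_uzero]
    have hI : Cardinal.aleph0 ≤ Cardinal.mk I := Cardinal.aleph0_le_mk I
    have h1 : Cardinal.mk ((I × Bool) × I) = Cardinal.mk I * 2 * Cardinal.mk I := by
      simp [Cardinal.mk_prod]
    rw [h1]
    have h2 : Cardinal.mk I * 2 ≤ Cardinal.mk I := by
      calc Cardinal.mk I * 2 ≤ Cardinal.mk I * Cardinal.mk I :=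
            mul_le_mul_right (Cardinal.natCast_lt_aleph0 (n := 2) |>.le.trans hI) _
        _ = Cardinal.mk I := Cardinal.mul_eq_self hI
    calc Cardinal.mk I * 2 * Cardinal.mk I ≤ Cardinal.mk I * Cardinal.mk I :=
          mul_le_mul_left h2 _
      _ = Cardinal.mk I := Cardinal.mul_eq_self hI

end H95.GN
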