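import Pool.Agent.H95.GN.Targets

/-!
Board `gn_modules`, letter NW: unconditionally bounded sequences.
-/

open Filter Topology Set

namespace H95.GN

universe u

/-- letter NW -/
theorem pf_NW : T_NW.{u} := by
  intro X _ _ g hg
  have hbd : ∀ (L : X →L[ℝ] ℝ) (s : Finset ℕ), ∑ k ∈ s, |L (g k)| ≤ ‖L‖ := by
    intro L s
    have h1 := hg s (fun k => SignType.sign (L (g k)) ) (fun k => by
      rcases lt_trichotomy (L (g k)) 0 with h | h | h
      · simp [sign_neg h]
      · simp [h]
      · simp [sign_pos h])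
    have h2 : L (∑ k ∈ s, ((SignType.sign (L (g k)) : SignType) : ℝ) • g k) =
        ∑ k ∈ s, |L (g k)| := by
      rw [map_sum]
      apply Finset.sum_congr rfl
      intro k _
      rw [map_smul, smul_eq_mul, sign_mul_self]
    calc ∑ k ∈ s, |L (g k)| = L (∑ k ∈ s, ((SignType.sign (L (g k)) : SignType) : ℝ) • g k) :=
          h2.symm
      _ ≤ |L (∑ k ∈ s, ((SignType.sign (L (g k)) : SignType) : ℝ) • g k)| := le_abs_self _
      _ ≤ ‖L‖ * ‖∑ k ∈ s, ((SignType.sign (L (g k)) : SignType) : ℝ) • g k‖ := by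
          have := L.le_opNorm (∑ k ∈ s, ((SignType.sign (L (g k)) : SignType) : ℝ) • g k)
          rwa [Real.norm_eq_abs] at this
      _ ≤ ‖L‖ * 1 := mul_le_mul_of_nonneg_left h1 (norm_nonneg L)
      _ = ‖L‖ := mul_one _
  have hsum : ∀ L : X →L[ℝ] ℝ, Summable (fun k => |L (g k)|) := fun L =>
    summable_of_sum_le (fun k => abs_nonneg _) (hbd L)
  have hle : ∀ L : X →L[ℝ] ℝ, ∑' k, |L (g k)| ≤ ‖L‖ := fun L =>
    Real.tsum_le_of_sum_le (fun k => abs_nonneg _) (hbd L)
  refine ⟨fun L => ⟨hsum L, hle L⟩, ?_⟩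
  intro S
  have hind : ∀ L : X →L[ℝ] ℝ, Summable (S.indicator (fun k => L (g k))) := fun L =>
    (hsum L).of_abs.indicator S
  have habs : ∀ (L : X →L[ℝ] ℝ) (k : ℕ), |S.indicator (fun k => L (g k)) k| ≤ |L (g k)| := by
    intro L k
    by_cases hk : k ∈ S
    · rw [Set.indicator_of_mem hk]
    · rw [Set.indicator_of_notMem hk, abs_zero]
      exact abs_nonneg _
  let Φ : (X →L[ℝ] ℝ) →ₗ[ℝ] ℝ :=
    { toFun := fun L => ∑' k, S.indicator (fun k => L (g k)) k
      map_add' := by
        intro L L'
        rw [← (hind L).tsum_add (hind L')]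
        congr 1
        funext k
        by_cases hk : k ∈ S
        · simp [Set.indicator_of_mem hk]
        · simp [Set.indicator_of_notMem hk]
      map_smul' := by
        intro r L
        simp only [RingHom.id_apply, smul_eq_mul]
        rw [← tsum_mul_left]
        congr 1
        funext k
        by_cases hk : k ∈ S
        · simp [Set.indicator_of_mem hk]
        · simp [Set.indicator_of_notMem hk] }
  refine ⟨LinearMap.mkContinuous Φ 1 ?_, fun L => rfl⟩
  intro L
  rw [one_mul, Real.norm_eq_abs]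
  have h1 : Summable (fun k => |S.indicator (fun k => L (g k)) k|) := (hind L).abs
  calc |Φ L| ≤ ∑' k, |S.indicator (fun k => L (g k)) k| := by
        have h2 := norm_tsum_le_tsum_norm (f := S.indicator (fun k => L (g k)))
          (by simpa only [Real.norm_eq_abs] using h1)
        simp only [Real.norm_eq_abs] at h2
        exact h2
    _ ≤ ∑' k, |L (g k)| := h1.tsum_le_tsum (habs L) (hsum L)
    _ ≤ ‖L‖ := hle L

end H95.GN
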