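import Pool.Agent.H95.GN.Targets

open Filter Topology Set

namespace H95.GN

/-- variation of the set function f on T is at most c, two-valued form -/
def PhVB (f : Set ℕ → ℝ) (T : Set ℕ) (c : ℝ) : Prop := ∀ S, S ⊆ T → f S - f (T \ S) ≤ c

lemma ph_mono {f : Set ℕ → ℝ} (hf : ∀ S T, Disjoint S T → f (S ∪ T) = f S + f T)
    {T T' : Set ℕ} {c : ℝ} (h : PhVB f T c) (hT : T' ⊆ T) : PhVB f T' c := by
  intro S hS
  have d1 : Disjoint (T' \ S) (T \ T') := by
    rw [Set.disjoint_left]; rintro x ⟨hx, _⟩ ⟨_, h2⟩; exact h2 hx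
  have d2 : Disjoint S (T \ T') := by
    rw [Set.disjoint_left]; rintro x hx ⟨_, h2⟩; exact h2 (hS hx)
  have e1 : T \ S = (T' \ S) ∪ (T \ T') := by
    ext x
    simp only [Set.mem_sdiff, Set.mem_union]
    constructor
    · rintro ⟨h1, h2⟩
      by_cases h3 : x ∈ T'
      · exact Or.inl ⟨h3, h2⟩
      · exact Or.inr ⟨h1, h3⟩
    · rintro (⟨h1, h2⟩ | ⟨h1, h2⟩)
      · exact ⟨hT h1, h2⟩
      · exact ⟨h1, fun h3 => h2 (hS h3)⟩
  have e2 : T \ (S ∪ (T \ T')) = T' \ S := by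
    ext x
    simp only [Set.mem_sdiff, Set.mem_union, not_or, not_and, not_not]
    constructor
    · rintro ⟨h1, h2, h3⟩
      exact ⟨h3 h1, h2⟩
    · rintro ⟨h1, h2⟩
      exact ⟨hT h1, h2, fun _ => h1⟩
  have h1 := h S (hS.trans hT)
  have h2 := h (S ∪ (T \ T')) (Set.union_subset (hS.trans hT) Set.sdiff_subset)
  rw [e1, hf _ _ d1] at h1
  rw [e2, hf _ _ d2] at h2
  linarith

lemma ph_split {f : Set ℕ → ℝ} (hf : ∀ S T, Disjoint S T → f (S ∪ T) = f S + f T)
    {T₁ T₂ : Set ℕ} {c e : ℝ} (hd : Disjoint T₁ T₂) (h : PhVB f (T₁ ∪ T₂) c)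
    (h1 : ¬ PhVB f T₁ e) : PhVB f T₂ (c - e) := by
  unfold PhVB at h1
  push Not at h1
  obtain ⟨S₁, hS₁, hlt⟩ := h1
  intro S hS
  have d1 : Disjoint S₁ S := Set.disjoint_of_subset hS₁ hS hd
  have d2 : Disjoint (T₁ \ S₁) (T₂ \ S) := Set.disjoint_of_subset Set.sdiff_subset Set.sdiff_subset hd
  have e1 : (T₁ ∪ T₂) \ (S₁ ∪ S) = (T₁ \ S₁) ∪ (T₂ \ S) := by
    ext x
    simp only [Set.mem_sdiff, Set.mem_union, not_or]
    constructor
    · rintro ⟨h1 | h1, h2, h3⟩
      · exact Or.inl ⟨h1, h2⟩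
      · exact Or.inr ⟨h1, h3⟩
    · rintro (⟨h1, h2⟩ | ⟨h1, h2⟩)
      · exact ⟨Or.inl h1, h2, fun h3 => Set.disjoint_left.1 hd h1 (hS h3)⟩
      · exact ⟨Or.inr h1, fun h3 => Set.disjoint_left.1 hd (hS₁ h3) h1, h2⟩
  have h2 := h (S₁ ∪ S) (Set.union_subset_union hS₁ hS)
  rw [e1, hf _ _ d1, hf _ _ d2] at h2
  linarith

lemma ph_rosenthal {m : ℕ → Set ℕ → ℝ}
    (hm : ∀ i S T, Disjoint S T → m i (S ∪ T) = m i S + m i T) {e : ℝ} (he : 0 ≤ e) :
    ∀ n : ℕ, ∀ N : Set ℕ, N.Infinite → (∀ i ∈ N, PhVB (m i) N (n * e)) →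
      ∃ I : Set ℕ, I.Infinite ∧ I ⊆ N ∧ ∀ i ∈ I, PhVB (m i) (I \ {i}) e := by
  intro n
  induction n with
  | zero =>
    intro N hN h
    refine ⟨N, hN, Set.Subset.rfl, fun i hi => ?_⟩
    have h1 := ph_mono (hm i) (h i hi) (Set.sdiff_subset : N \ {i} ⊆ N)
    intro S hS
    have := h1 S hS
    simp only [Nat.cast_zero, zero_mul] at this
    linarith
  | succ n ih =>
    intro N hN h
    have φ := hN.natEmbedding
    set P : ℕ → Set ℕ := fun p => Set.range (fun q => (φ (Nat.pair p q) : ℕ)) with hP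
    have hPinf : ∀ p, (P p).Infinite := by
      intro p
      apply Set.infinite_range_of_injective
      intro a b hab
      have h1 := φ.injective (Subtype.ext hab)
      have h2 := (Nat.pair_eq_pair.1 h1)
      exact h2.2
    have hPsub : ∀ p, P p ⊆ N := by
      rintro p x ⟨q, rfl⟩
      exact (φ (Nat.pair p q)).2
    have hPdis : ∀ p p' x, x ∈ P p → x ∈ P p' → p = p' := by
      rintro p p' x ⟨q, rfl⟩ ⟨q', hq'⟩
      have h1 := φ.injective (Subtype.ext hq')
      exact (Nat.pair_eq_pair.1 h1).1.symm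
    by_cases hc : ∃ p, ∀ i ∈ P p, PhVB (m i) (P p \ {i}) e
    · obtain ⟨p, hp⟩ := hc
      exact ⟨P p, hPinf p, hPsub p, hp⟩
    · push Not at hc
      choose i hi hiV using hc
      have hinj : Function.Injective i := by
        intro a b hab
        exact hPdis a b (i a) (hi a) (hab ▸ hi b)
      have hIinf : (Set.range i).Infinite := Set.infinite_range_of_injective hinj
      have hIsub : Set.range i ⊆ N := by
        rintro x ⟨p, rfl⟩
        exact hPsub p (hi p)
      obtain ⟨I, hI1, hI2, hI3⟩ := ih (Set.range i) hIinf (by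
        rintro x ⟨p, rfl⟩
        have hd : Disjoint (P p \ {i p}) (Set.range i) := by
          rw [Set.disjoint_left]
          rintro x ⟨hx1, hx2⟩ ⟨q, rfl⟩
          apply hx2
          have := hPdis p q (i q) hx1 (hi q)
          subst this
          rfl
        have hb := ph_mono (hm (i p)) (h (i p) (hPsub p (hi p)))
          (Set.union_subset (Set.sdiff_subset.trans (hPsub p)) hIsub : (P p \ {i p}) ∪ Set.range i ⊆ N)
        have hs := ph_split (hm (i p)) hd hb (hiV p)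
        have hce : ((n + 1 : ℕ) : ℝ) * e - e = n * e := by push_cast; ring
        rw [hce] at hs
        exact hs)
      exact ⟨I, hI1, hI2.trans hIsub, hI3⟩

theorem pf_PH : T_PH := by
  intro m hm ⟨C, hC⟩ h0
  by_contra hne
  rw [Metric.tendsto_atTop] at hne
  push Not at hne
  obtain ⟨ε, hε, hN⟩ := hne
  set N : Set ℕ := {i | ε ≤ |m i {i}|} with hNdef
  have hNinf : N.Infinite := by
    rw [← Nat.frequently_atTop_iff_infinite, Filter.frequently_atTop]
    intro a
    obtain ⟨n, hn, hd⟩ := hN a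
    refine ⟨n, hn, ?_⟩
    rw [Real.dist_eq, sub_zero] at hd
    exact hd
  obtain ⟨n, hn⟩ := exists_nat_ge (2 * C / (ε / 2))
  have hn' : 2 * C ≤ n * (ε / 2) := by
    rwa [div_le_iff₀ (by positivity)] at hn
  obtain ⟨I, hI1, hI2, hI3⟩ := ph_rosenthal hm (e := ε / 2) (by positivity) n N hNinf (by
    intro i _ S _
    have h1 := (abs_le.1 (hC i S)).2
    have h2 := (abs_le.1 (hC i (N \ S))).1
    linarith)
  have hempty : ∀ i, m i ∅ = 0 := by
    intro i
    have := hm i ∅ ∅ (by simp)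
    simp only [Set.union_self] at this
    linarith
  have hlow : ∀ i ∈ I, ε / 2 ≤ |m i I| := by
    intro i hi
    have hd : Disjoint {i} (I \ {i}) := Set.disjoint_sdiff_right
    have hu : ({i} : Set ℕ) ∪ (I \ {i}) = I := Set.union_sdiff_cancel (Set.singleton_subset_iff.2 hi)
    have h1 := hm i {i} (I \ {i}) hd
    rw [hu] at h1
    have h2 := hI3 i hi (I \ {i}) Set.Subset.rfl
    have h3 := hI3 i hi ∅ (Set.empty_subset _)
    rw [Set.sdiff_self, hempty] at h2
    rw [Set.sdiff_empty, hempty] at h3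
    have h4 : |m i (I \ {i})| ≤ ε / 2 := abs_le.2 ⟨by linarith, by linarith⟩
    have h5 : ε ≤ |m i {i}| := hI2 hi
    have h6 : |m i {i}| ≤ |m i I| + |m i (I \ {i})| := by
      have : m i {i} = m i I - m i (I \ {i}) := by linarith
      rw [this]
      exact abs_sub _ _
    linarith
  have h1 := h0 I
  rw [Metric.tendsto_atTop] at h1
  obtain ⟨a, ha⟩ := h1 (ε / 2) (by positivity)
  obtain ⟨i, hi, hai⟩ := hI1.exists_gt a
  have h2 := ha i hai.le
  rw [Real.dist_eq, sub_zero] at h2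
  have h3 := hlow i hi
  linarith

end H95.GN
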