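import Pool.Agent.H95.GN.Targets

/-! Row RM: the Rademacher measures. -/

set_option autoImplicit false

open Filter Topology Set MeasureTheory
open scoped ENNReal symmDiff

namespace H95.GN

theorem RM_coin_not : coin.map (fun b : Bool => !b) = coin := by
  have hm : Measurable (fun b : Bool => !b) := measurable_of_countable _
  rw [coin, Measure.map_smul, Measure.map_add _ _ hm, Measure.map_dirac' hm,
    Measure.map_dirac' hm, add_comm]
  rfl

theorem RM_flip_meas (n : ℕ) : Measurable (flip n) := by
  refine measurable_pi_lambda _ fun i => ?_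
  by_cases h : i = n
  · have e : (fun x : ℕ → Bool => flip n x i) = fun x => !(x i) := by
      funext x
      simp [flip, h]
    rw [e]
    exact (measurable_of_countable (fun b : Bool => !b)).comp (measurable_pi_apply i)
  · have e : (fun x : ℕ → Bool => flip n x i) = fun x => x i := by
      funext x
      simp [flip, h]
    rw [e]
    exact measurable_pi_apply i

theorem RM_flip_mp (n : ℕ) : MeasurePreserving (flip n) lam lam := by
  refine ⟨RM_flip_meas n, ?_⟩
  have hf : ∀ i, Measurable (fun b : Bool => if i = n then !b else b) := fun i =>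
    measurable_of_countable _
  have h := Measure.infinitePi_map_pi (μ := fun _ : ℕ => coin)
    (f := fun i (b : Bool) => if i = n then !b else b) hf
  have e : flip n = fun (x : ℕ → Bool) i => if i = n then !(x i) else x i := rfl
  rw [lam, e, h]
  refine congrArg Measure.infinitePi ?_
  funext i
  by_cases hi : i = n
  · simp only [hi, if_true]
    exact RM_coin_not
  · simp only [hi, if_false]
    exact Measure.map_id

theorem RM_flip_flip (n : ℕ) (x : ℕ → Bool) : flip n (flip n x) = x := by
  funext i
  by_cases h : i = n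
  · simp [flip, h]
  · simp [flip, h]

theorem RM_flip_self (n : ℕ) (x : ℕ → Bool) : flip n x n = !(x n) := by
  simp [flip]

theorem RM_flip_ne {n m : ℕ} (h : m ≠ n) (x : ℕ → Bool) : flip n x m = x m := by
  simp [flip, h]

theorem RM_meas_eq (n : ℕ) (b : Bool) : MeasurableSet {x : ℕ → Bool | x n = b} := by
  have h : Measurable (fun f : ℕ → Bool => f n) := measurable_pi_apply n
  exact h (measurableSet_singleton b)

instance RM_prob : IsProbabilityMeasure lam := by
  unfold lam
  infer_instance

theorem RM_half (n : ℕ) {B : Set (ℕ → Bool)} (hB : MeasurableSet B) :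
    lam (B ∩ {x | x n = true}) = lam ((flip n ⁻¹' B) ∩ {x | x n = false}) := by
  rw [← (RM_flip_mp n).measure_preimage (hB.inter (RM_meas_eq n true)).nullMeasurableSet]
  refine congrArg lam ?_
  ext x
  simp only [mem_preimage, mem_inter_iff, mem_ofPred_eq, RM_flip_self]
  cases x n <;> simp

theorem RM_one (n : ℕ) {B : Set (ℕ → Bool)} (hB : MeasurableSet B) :
    |radM n B| ≤ n * dn n B := by
  rw [radM, abs_mul, Nat.abs_cast, RM_half n hB]
  refine mul_le_mul_of_nonneg_left ?_ (Nat.cast_nonneg n)
  have hF := RM_meas_eq n false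
  have hfB : MeasurableSet (flip n ⁻¹' B) := RM_flip_meas n hB
  refine (abs_measureReal_sub_le_measureReal_symmDiff' (hB.inter hF).nullMeasurableSet
    (hfB.inter hF).nullMeasurableSet (measure_ne_top _ _) (measure_ne_top _ _)).trans ?_
  refine ENNReal.toReal_mono (measure_ne_top _ _) (measure_mono ?_)
  rintro x (⟨⟨h1, h2⟩, h3⟩ | ⟨⟨h1, h2⟩, h3⟩)
  · exact Or.inl ⟨h1, fun h => h3 ⟨h, h2⟩⟩
  · exact Or.inr ⟨h1, fun h => h3 ⟨h, h2⟩⟩

theorem RM_val (n : ℕ) (b : Bool) : lam {x : ℕ → Bool | x n = b} = 2⁻¹ := by
  have h := (measurePreserving_eval_infinitePi (fun _ : ℕ => coin) n).measure_preimage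
    (measurableSet_singleton b).nullMeasurableSet
  have e : (Function.eval n ⁻¹' {b} : Set (ℕ → Bool)) = {x : ℕ → Bool | x n = b} := rfl
  rw [e] at h
  have h2 : coin {b} = 2⁻¹ := by
    cases b <;> simp [coin]
  rw [← h2]
  exact h

/-- RM -/
theorem pf_RM : T_RM := by
  refine ⟨fun n B hB => RM_one n hB, fun n => ⟨RM_meas_eq n false, ?_⟩, fun n => ?_,
    fun n B C hB hC hd => ?_⟩
  · refine tendsto_const_nhds.congr' ?_
    filter_upwards [eventually_gt_atTop n] with m hm
    have e : flip m ⁻¹' {x : ℕ → Bool | x n = false} = {x | x n = false} := by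
      ext x
      simp only [mem_preimage, mem_ofPred_eq, RM_flip_ne (ne_of_lt hm)]
    rw [dn, e, symmDiff_self]
    simp
  · have e1 : ({x : ℕ → Bool | x n = false} ∩ {x | x n = false}) = {x | x n = false} :=
      inter_self _
    have e2 : ({x : ℕ → Bool | x n = false} ∩ {x | x n = true}) = ∅ := by
      ext x
      simp only [mem_inter_iff, mem_ofPred_eq, mem_empty_iff_false, iff_false, not_and]
      intro h
      simp [h]
    rw [radM, e1, e2, RM_val, measure_empty]
    simp
    ring
  · have h : ∀ b : Bool, (lam ((B ∪ C) ∩ {x | x n = b})).toReal =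
        (lam (B ∩ {x | x n = b})).toReal + (lam (C ∩ {x | x n = b})).toReal := by
      intro b
      rw [union_inter_distrib_right, measure_union (hd.mono inter_subset_left inter_subset_left)
        (hC.inter (RM_meas_eq n b)), ENNReal.toReal_add (measure_ne_top _ _) (measure_ne_top _ _)]
    rw [radM, radM, radM, h, h]
    ring

end H95.GN
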