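import Pool.Agent.H95.GN.Targets

/-!
# GN board, row SC: the gliding hump of Schur
-/

open Filter Topology Set MeasureTheory

namespace H95.GN

theorem pf_SC : T_SC := by
  intro x hs hb hS
  by_contra hne
  rw [Metric.tendsto_atTop] at hne
  push Not at hne
  obtain ⟨ε, hε, h⟩ := hne
  have hcol : ∀ j, Tendsto (fun i => x i j) atTop (𝓝 0) := by
    intro j
    refine (hS {j}).congr fun i => ?_
    rw [tsum_eq_single j]
    · simp
    · intro k hk
      exact Set.indicator_of_notMem (by simpa using hk) _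
  have hfin : ∀ N, Tendsto (fun i => ∑ j ∈ Finset.range N, |x i j|) atTop (𝓝 0) := by
    intro N
    have h1 : Tendsto (fun i => ∑ j ∈ Finset.range N, |x i j|) atTop
        (𝓝 (∑ j ∈ Finset.range N, |(0 : ℝ)|)) :=
      tendsto_finsetSum _ fun j _ => (hcol j).abs
    simpa using h1
  have hnext : ∀ N : ℕ, ∃ q : ℕ × ℕ, N ≤ q.1 ∧ q.1 < q.2 ∧ ε ≤ |x q.1 q.1| ∧
      ∑ j ∈ Finset.range N, |x q.1 j| < ε / 10 ∧ ∑' j, |x q.1 (j + q.2)| < ε / 10 := by
    intro N
    obtain ⟨K, hK⟩ := (Metric.tendsto_atTop.1 (hfin N)) (ε / 10) (by positivity)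
    obtain ⟨i, hi, hxi⟩ := h (max N K)
    have h2 := hK i (le_trans (le_max_right _ _) hi)
    obtain ⟨L, hL⟩ := (Metric.tendsto_atTop.1 (tendsto_sum_nat_add fun j => |x i j|)) (ε / 10)
      (by positivity)
    refine ⟨(i, max L (i + 1)), le_trans (le_max_left _ _) hi, ?_, ?_, ?_, ?_⟩
    · exact lt_of_lt_of_le (Nat.lt_succ_self i) (le_max_right _ _)
    · simpa [Real.dist_eq] using hxi
    · rw [Real.dist_eq, sub_zero] at h2
      exact lt_of_le_of_lt (le_abs_self _) h2
    · have h3 := hL (max L (i + 1)) (le_max_left _ _)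
      rw [Real.dist_eq, sub_zero] at h3
      exact lt_of_le_of_lt (le_abs_self _) h3
  choose F hF using hnext
  let M : ℕ → ℕ := fun r => Nat.rec 0 (fun _ m => (F m).2) r
  have hM : ∀ r, M (r + 1) = (F (M r)).2 := fun _ => rfl
  have h1 : ∀ r, M r ≤ (F (M r)).1 := fun r => (hF (M r)).1
  have h2 : ∀ r, (F (M r)).1 < M (r + 1) := fun r => (hF (M r)).2.1
  have hmono : StrictMono M := strictMono_nat_of_lt_succ fun r => lt_of_le_of_lt (h1 r) (h2 r)
  have huniq : ∀ r t, M r ≤ (F (M t)).1 → (F (M t)).1 < M (r + 1) → t = r := by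
    intro r t h3 h4
    rcases lt_trichotomy t r with h5 | h5 | h5
    · have h6 : M (t + 1) ≤ M r := hmono.monotone h5
      have h7 := h2 t
      omega
    · exact h5
    · have h6 : M (r + 1) ≤ M t := hmono.monotone h5
      have h7 := h1 t
      omega
  have hlow : ∀ r, ε / 2 ≤
      |∑' j, ({j | ∃ t, j = (F (M t)).1} : Set ℕ).indicator (x (F (M r)).1) j| := by
    intro r
    set S : Set ℕ := {j | ∃ t, j = (F (M t)).1} with hSdef
    set i := (F (M r)).1 with hi
    have hule : ∀ j, |S.indicator (x i) j| ≤ |x i j| := by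
      intro j
      by_cases hj : j ∈ S
      · rw [Set.indicator_of_mem hj]
      · rw [Set.indicator_of_notMem hj, abs_zero]
        exact abs_nonneg _
    have hsu : Summable (fun j => |S.indicator (x i) j|) :=
      Summable.of_nonneg_of_le (fun _ => abs_nonneg _) hule (hs i)
    have hsu' : Summable (fun j => S.indicator (x i) j) := hsu.of_abs
    have hsplit := hsu'.sum_add_tsum_nat_add (M (r + 1))
    have htail : |∑' j, S.indicator (x i) (j + M (r + 1))| < ε / 10 := by
      have h3 : Summable (fun j => |S.indicator (x i) (j + M (r + 1))|) :=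
        (summable_nat_add_iff (f := fun j => |S.indicator (x i) j|) (M (r + 1))).2 hsu
      have h4 : Summable (fun j => |x i (j + M (r + 1))|) :=
        (summable_nat_add_iff (f := fun j => |x i j|) (M (r + 1))).2 (hs i)
      calc |∑' j, S.indicator (x i) (j + M (r + 1))|
          ≤ ∑' j, |S.indicator (x i) (j + M (r + 1))| := by
            have := norm_tsum_le_tsum_norm (f := fun j => S.indicator (x i) (j + M (r + 1)))
              (by simpa [Real.norm_eq_abs] using h3)
            simpa [Real.norm_eq_abs] using this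
        _ ≤ ∑' j, |x i (j + M (r + 1))| := h3.tsum_le_tsum (fun j => hule _) h4
        _ < ε / 10 := (hF (M r)).2.2.2.2
    have hhead : ∑ j ∈ Finset.range (M (r + 1)), S.indicator (x i) j =
        ∑ j ∈ Finset.range (M r), S.indicator (x i) j + x i i := by
      rw [← Finset.sum_range_add_sum_Ico _ (hmono.monotone (Nat.le_succ r))]
      congr 1
      rw [Finset.sum_eq_single i]
      · exact Set.indicator_of_mem (show i ∈ S from ⟨r, hi⟩) _
      · intro j hj hne'
        rw [Finset.mem_Ico] at hj
        refine Set.indicator_of_notMem ?_ _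
        rintro ⟨t, ht⟩
        have h5 := huniq r t (ht ▸ hj.1) (ht ▸ hj.2)
        exact hne' (by rw [ht, h5])
      · intro hni
        exact (hni (Finset.mem_Ico.2 ⟨h1 r, h2 r⟩)).elim
    have hfront : |∑ j ∈ Finset.range (M r), S.indicator (x i) j| < ε / 10 := by
      calc |∑ j ∈ Finset.range (M r), S.indicator (x i) j|
          ≤ ∑ j ∈ Finset.range (M r), |S.indicator (x i) j| := Finset.abs_sum_le_sum_abs _ _
        _ ≤ ∑ j ∈ Finset.range (M r), |x i j| := Finset.sum_le_sum fun j _ => hule j
        _ < ε / 10 := (hF (M r)).2.2.2.1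
    have hbig : ε ≤ |x i i| := (hF (M r)).2.2.1
    rw [← hsplit, hhead]
    have h6 := abs_lt.1 htail
    have h7 := abs_lt.1 hfront
    rcases le_abs.1 hbig with h8 | h8
    · refine le_trans ?_ (le_abs_self _)
      linarith [h6.1, h7.1]
    · refine le_trans ?_ (neg_le_abs _)
      linarith [h6.2, h7.2]
  obtain ⟨K, hK⟩ := (Metric.tendsto_atTop.1 (hS {j | ∃ t, j = (F (M t)).1})) (ε / 2)
    (by positivity)
  have h3 := hK (F (M K)).1 (le_trans (hmono.id_le K) (h1 K))
  rw [Real.dist_eq, sub_zero] at h3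
  exact absurd (hlow K) (not_le.2 h3)

end H95.GN
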