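import Pool.Agent.H95.GN.Targets

set_option autoImplicit false

open Filter Topology Set

namespace H95.GN

universe u

lemma chi_mul_chi {A : Type u} [BooleanAlgebra A] (a b : A) : chi a * chi b = chi (a ⊓ b) := by
  ext p
  have h := p.2.2.1 a b
  simp only [ContinuousMap.mul_apply, chi, ContinuousMap.coe_mk, h]
  cases p.1 a <;> cases p.1 b <;> simp

lemma chi_top_eq_one {A : Type u} [BooleanAlgebra A] : chi (⊤ : A) = 1 := by
  ext p
  simp [chi, p.2.1]

theorem pf_TC : T_TC.{u} := by
  intro A _ ν hν hchi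
  -- the subspace of the test functions
  let S : Submodule ℝ C(St A, ℝ) :=
    { carrier := {f | Tendsto (fun k => ν k f) atTop (𝓝 0)}
      add_mem' := by
        intro f g hf hg
        have h : Tendsto (fun k => ν k f + ν k g) atTop (𝓝 (0 + 0)) := Tendsto.add hf hg
        rw [add_zero] at h
        simpa only [Set.mem_ofPred_eq, map_add] using h
      zero_mem' := by
        simp only [Set.mem_ofPred_eq, map_zero]
        exact tendsto_const_nhds
      smul_mem' := by
        intro c f hf
        have h : Tendsto (fun k => c * ν k f) atTop (𝓝 (c * 0)) := Tendsto.const_mul c hf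
        rw [mul_zero] at h
        simpa only [Set.mem_ofPred_eq, map_smul, smul_eq_mul] using h }
  let M : Submonoid C(St A, ℝ) :=
    { carrier := Set.range (chi (A := A))
      mul_mem' := by
        rintro _ _ ⟨a, rfl⟩ ⟨b, rfl⟩
        exact ⟨a ⊓ b, (chi_mul_chi a b).symm⟩
      one_mem' := ⟨⊤, chi_top_eq_one⟩ }
  let B : Subalgebra ℝ C(St A, ℝ) := Algebra.adjoin ℝ (Set.range (chi (A := A)))
  have hBS : ∀ f ∈ B, Tendsto (fun k => ν k f) atTop (𝓝 0) := by
    have h1 : Subalgebra.toSubmodule B ≤ S := by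
      show Subalgebra.toSubmodule (Algebra.adjoin ℝ (Set.range (chi (A := A)))) ≤ S
      rw [Algebra.adjoin_eq_span, Submodule.span_le]
      have h2 : (Submonoid.closure (Set.range (chi (A := A))) : Submonoid C(St A, ℝ)) ≤ M :=
        Submonoid.closure_le.2 (fun x hx => hx)
      intro x hx
      obtain ⟨a, rfl⟩ := h2 hx
      exact hchi a
    intro f hf
    exact h1 hf
  have hsep : B.SeparatesPoints := by
    intro p q hpq
    have h1 : ∃ a, p.1 a ≠ q.1 a := by
      by_contra hcon
      push Not at hcon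
      exact hpq (Subtype.ext (funext hcon))
    obtain ⟨a, ha⟩ := h1
    refine ⟨chi a, ⟨chi a, Algebra.subset_adjoin ⟨a, rfl⟩, rfl⟩, ?_⟩
    simp only [chi, ContinuousMap.coe_mk]
    cases hp : p.1 a <;> cases hq : q.1 a <;> simp_all
  have htop := ContinuousMap.subalgebra_topologicalClosure_eq_top_of_separatesPoints B hsep
  intro f
  have hf : f ∈ B.topologicalClosure := by
    rw [htop]
    exact Algebra.mem_top
  have hf' : f ∈ closure (B : Set C(St A, ℝ)) := hf
  rw [Metric.tendsto_atTop]
  intro ε hε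
  obtain ⟨g, hg, hfg⟩ := Metric.mem_closure_iff.1 hf' (ε / 2) (by linarith)
  obtain ⟨N, hN⟩ := Metric.tendsto_atTop.1 (hBS g hg) (ε / 2) (by linarith)
  refine ⟨N, fun n hn => ?_⟩
  have h1 := hN n hn
  rw [Real.dist_eq, sub_zero] at h1 ⊢
  have h2 : |ν n (f - g)| ≤ ‖f - g‖ := by
    have h3 := (ν n).le_opNorm (f - g)
    rw [Real.norm_eq_abs] at h3
    calc |ν n (f - g)| ≤ ‖ν n‖ * ‖f - g‖ := h3
      _ ≤ 1 * ‖f - g‖ := mul_le_mul_of_nonneg_right (hν n) (norm_nonneg _)
      _ = ‖f - g‖ := one_mul _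
  rw [dist_eq_norm] at hfg
  have h4 : ν n f = ν n (f - g) + ν n g := by
    rw [← map_add, sub_add_cancel]
  rw [h4]
  calc |ν n (f - g) + ν n g| ≤ |ν n (f - g)| + |ν n g| := abs_add_le _ _
    _ < ε := by linarith

end H95.GN
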