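import Pool.Agent.H95.GN.Defs

open Filter Topology Set MeasureTheory
open scoped ENNReal symmDiff

namespace H95.GN

universe u

/-! ### part 1: category -/

/-- every meagre set is contained in one given by a real z and an interval partition -/
def T_MC : Prop := ∀ M : Set (ℕ → Bool), IsMeagre M →
  ∃ (z : ℕ → Bool) (e : ℕ → ℕ), StrictMono e ∧
    ∀ y ∈ M, ∃ j0, ∀ j, j0 ≤ j → ∃ n, e j ≤ n ∧ n < e (j + 1) ∧ y n ≠ z n

/-- from slaloms to functions, on every infinite set -/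
def T_YV : Prop := ∀ (I : Type u) (φ : I → ℕ → Finset ℕ) (h : ℕ → ℕ),
  (∀ i k, (φ i k).card ≤ h k) → (∀ x : ℕ → ℕ, ∃ i, {k | x k ∈ φ i k}.Infinite) →
    ∃ f : I → ℕ → ℕ, ∀ Y : Set ℕ, Y.Infinite → ∀ g : ℕ → ℕ,
      ∃ i, {n | n ∈ Y ∧ f i n = g n}.Infinite

/-- block partitions from an infinitely often equal family -/
def T_BP : Prop := ∀ (I : Type u) (f : I → ℕ → ℕ),
  (∀ g : ℕ → ℕ, ∃ i, {n | f i n = g n}.Infinite) →
    ∃ D : I × Bool → ℕ → ℕ, (∀ p, StrictMono (D p)) ∧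
      ∀ e : ℕ → ℕ, StrictMono e →
        ∃ p, {m | ∃ j, D p m ≤ e j ∧ e (j + 1) ≤ D p (m + 1)}.Infinite

/-- a nonmeagre set from a family as in T_YV -/
def T_NM : Prop := ∀ (I : Type u) [Infinite I] (f : I → ℕ → ℕ),
  (∀ Y : Set ℕ, Y.Infinite → ∀ g : ℕ → ℕ, ∃ i, {n | n ∈ Y ∧ f i n = g n}.Infinite) →
    ∃ X : Set (ℕ → Bool), ¬ IsMeagre X ∧
      Cardinal.lift.{u} (Cardinal.mk X) ≤ Cardinal.mk I

/-! ### part 2: C(K) -/

/-- weak* convergence to zero can be tested on indicators -/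
def T_TC : Prop := ∀ (A : Type u) [BooleanAlgebra A] (ν : ℕ → (C(St A, ℝ) →L[ℝ] ℝ)),
  (∀ k, ‖ν k‖ ≤ 1) → (∀ a, Tendsto (fun k => ν k (chi a)) atTop (𝓝 0)) →
    ∀ f, Tendsto (fun k => ν k f) atTop (𝓝 0)

/-- biorthogonal systems with unconditionally bounded g are not weakly null; also the
functionals given by subsets -/
def T_NW : Prop := ∀ (X : Type u) [NormedAddCommGroup X] [NormedSpace ℝ X] (g : ℕ → X),
  (∀ (s : Finset ℕ) (ε : ℕ → ℝ), (∀ k, |ε k| ≤ 1) → ‖∑ k ∈ s, ε k • g k‖ ≤ 1) →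
    (∀ L : X →L[ℝ] ℝ, Summable (fun k => |L (g k)|) ∧ ∑' k, |L (g k)| ≤ ‖L‖) ∧
    ∀ S : Set ℕ, ∃ Φ : (X →L[ℝ] ℝ) →L[ℝ] ℝ, ∀ L, Φ L = ∑' k, S.indicator (fun k => L (g k)) k

/-- points of the Stone space -/
def T_PS : Prop := ∀ (A : Type u) [BooleanAlgebra A] (a : ℕ → A),
  (∀ n, a (n + 1) ≤ a n) → (∀ n, a n ≠ ⊥) → ∃ p : St A, ∀ n, p.1 (a n) = true

/-- map onto the Cantor space -/
def T_DI : Prop := ∀ (A : Type u) [BooleanAlgebra A] [Infinite A],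
  (∀ a : A, {b | b ≤ a}.Infinite → ∃ b, b ≤ a ∧ {c | c ≤ b}.Infinite ∧ {c | c ≤ a \ b}.Infinite) →
    ∃ π : St A → (ℕ → Bool), Continuous π ∧ Function.Surjective π

/-- convergent sequence of isolated points -/
def T_AT : Prop := ∀ (A : Type u) [BooleanAlgebra A] (a : A), {b | b ≤ a}.Infinite →
  (∀ b, b ≤ a → {c | c ≤ b}.Finite ∨ {c | c ≤ a \ b}.Finite) →
    ∃ (c : ℕ → A) (p : ℕ → St A) (q : St A), (∀ m n, (p m).1 (c n) = decide (m = n)) ∧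
      (∀ m n, m ≠ n → Disjoint (c m) (c n)) ∧ (∀ n, q.1 (c n) = false) ∧
      (∀ b, ∀ᶠ n in atTop, (p n).1 b = q.1 b)

/-- Rademacher function number j of a map into the Cantor space -/
noncomputable def rad {K : Type u} [TopologicalSpace K] (π : K → (ℕ → Bool)) (hπ : Continuous π)
    (j : ℕ) : C(K, ℝ) where
  toFun x := if π x j = true then -1 else 1
  continuous_toFun :=
    (continuous_of_discreteTopology (f := fun q : Bool => if q = true then (-1:ℝ) else 1)).comp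
      ((continuous_apply j).comp hπ)

/-- lift of the coin tossing measure -/
def T_LA : Prop := ∀ (K : Type u) [TopologicalSpace K] [CompactSpace K] (π : K → (ℕ → Bool))
  (hπ : Continuous π), Function.Surjective π →
    ∃ Λ : C(K, ℝ) →L[ℝ] ℝ, (∀ f : C(K, ℝ), (∀ x, 0 ≤ f x) → 0 ≤ Λ f) ∧ Λ 1 = 1 ∧
      ∀ F : Finset ℕ, F.Nonempty → Λ (∏ j ∈ F, rad π hπ j) = 0

/-- the family nu^k_j -/
def T_BE : Prop := ∀ (K : Type u) [TopologicalSpace K] [CompactSpace K] (π : K → (ℕ → Bool))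
  (_ : Continuous π), Function.Surjective π →
    ∃ (ν : ℕ → ℕ → (C(K, ℝ) →L[ℝ] ℝ)) (g : ℕ → ℕ → C(K, ℝ)),
      (∀ k j, ‖ν k j‖ ≤ 1) ∧ (∀ k j, ν k j (g k j) = 1) ∧
      (∀ k k' j j', k ≠ k' → ν k j (g k' j') = 0) ∧
      (∀ (x : ℕ → ℕ) (s : Finset ℕ) (ε : ℕ → ℝ), (∀ k, |ε k| ≤ 1) →
        ‖∑ k ∈ s, ε k • g k (x k)‖ ≤ 1) ∧
      (∀ k (f : C(K, ℝ)), ‖f‖ ≤ 1 → ∀ F : Finset ℕ, ∑ j ∈ F, (ν k j f) ^ 2 ≤ 1)

/-- Grothendieck property, case of a map onto the Cantor space -/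
def T_G1 : Prop := ∀ (A : Type u) [BooleanAlgebra A] (π : St A → (ℕ → Bool)),
  Continuous π → Function.Surjective π → HasGrothendieck A →
    ∃ (φ : A → ℕ → Finset ℕ) (h : ℕ → ℕ),
      (∀ i k, (φ i k).card ≤ h k) ∧ (∀ x : ℕ → ℕ, ∃ i, {k | x k ∈ φ i k}.Infinite)

/-- Nikodym property, case of a map onto the Cantor space -/
def T_N1 : Prop := ∀ (A : Type u) [BooleanAlgebra A] (π : St A → (ℕ → Bool)),
  Continuous π → Function.Surjective π → HasNikodym A →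
    ∃ (φ : A → ℕ → Finset ℕ) (h : ℕ → ℕ),
      (∀ i k, (φ i k).card ≤ h k) ∧ (∀ x : ℕ → ℕ, ∃ i, {k | x k ∈ φ i k}.Infinite)

/-- convergent sequences destroy both properties -/
def T_CV : Prop := ∀ (A : Type u) [BooleanAlgebra A] (c : ℕ → A) (p : ℕ → St A) (q : St A),
  (∀ m n, (p m).1 (c n) = decide (m = n)) → (∀ m n, m ≠ n → Disjoint (c m) (c n)) →
    (∀ n, q.1 (c n) = false) → (∀ b, ∀ᶠ n in atTop, (p n).1 b = q.1 b) →
      ¬ HasGrothendieck A ∧ ¬ HasNikodym A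

/-! ### part 3: Grothendieck algebras without the Nikodym property -/

/-- finitely additive measures extend to functionals -/
def T_EX : Prop := ∀ (A : Type u) [BooleanAlgebra A] (μ : A → ℝ) (C : ℝ), IsMeas μ →
  VarLE μ ⊤ C → ∃ L : C(St A, ℝ) →L[ℝ] ℝ, (∀ a, L (chi a) = μ a) ∧ ‖L‖ ≤ C

/-- choice of the norming constant, and restriction to U -/
def T_BV : Prop := ∀ (A : Type u) [BooleanAlgebra A] (μ : ℕ → A → ℝ) (U : A),
  (∀ n, IsMeas (μ n)) → Large μ U → ∀ R : ℝ, ∃ (n : ℕ) (K : ℝ), R ≤ K ∧ 0 < K ∧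
    ¬ VarLE (μ n) U K ∧ IsMeas (fun a => (2 * K)⁻¹ * μ n (a ⊓ U)) ∧
    VarLE (fun a => (2 * K)⁻¹ * μ n (a ⊓ U)) ⊤ 1

/-- test functions for the variation -/
def T_VW : Prop := ∀ (A : Type u) [BooleanAlgebra A] (μ : A → ℝ) (U : A) (C : ℝ),
  ¬ VarLE μ U C → ∃ g : C(St A, ℝ), ‖g‖ ≤ 1 ∧ (∀ p : St A, p.1 U = false → g p = 0) ∧
    (∀ L : C(St A, ℝ) →L[ℝ] ℝ, (∀ a, a ≤ U → L (chi a) = μ a) → C < L g) ∧
    (∀ L : C(St A, ℝ) →L[ℝ] ℝ, (∀ a, a ≤ U → L (chi a) = 0) → L g = 0)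

/-- Schur -/
def T_SC : Prop := ∀ x : ℕ → ℕ → ℝ, (∀ i, Summable (fun j => |x i j|)) →
  (∀ i, ∑' j, |x i j| ≤ 1) →
  (∀ S : Set ℕ, Tendsto (fun i => ∑' j, S.indicator (x i) j) atTop (𝓝 0)) →
    Tendsto (fun i => x i i) atTop (𝓝 0)

/-- the quotient by the elements which are not large has no atoms -/
def T_AJ : Prop := ∀ (A : Type u) [BooleanAlgebra A] (μ : ℕ → A → ℝ) (U : A),
  HasGrothendieck A → (∀ n, IsMeas (μ n)) → (∀ a, ∃ C : ℝ, ∀ n, |μ n a| ≤ C) → Large μ U →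
    ∃ V, V ≤ U ∧ Large μ V ∧ Large μ (U \ V)

/-- the traces on antichains are unbounded -/
def T_UB : Prop := ∀ (A : Type u) [BooleanAlgebra A] (μ : ℕ → A → ℝ) (U : ℕ → A),
  HasGrothendieck A → (∀ n, IsMeas (μ n)) →
    (∀ k l, k ≠ l → Disjoint (U k) (U l)) → (∀ k, Large μ (U k)) →
    ∀ S : Set ℕ, S.Infinite → ∀ h : ℕ → ℝ,
      ∃ a : A, {k | k ∈ S ∧ ∃ n, h k < |μ n (a ⊓ U k)|}.Infinite

/-! ### part 4: the explicit algebra -/

/-- Phillips -/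
def T_PH : Prop := ∀ m : ℕ → Set ℕ → ℝ,
  (∀ i S T, Disjoint S T → m i (S ∪ T) = m i S + m i T) → (∃ C : ℝ, ∀ i S, |m i S| ≤ C) →
    (∀ S, Tendsto (fun i => m i S) atTop (𝓝 0)) → Tendsto (fun i => m i {i}) atTop (𝓝 0)

/-- fair coin -/
noncomputable def coin : Measure Bool :=
  (2⁻¹ : ℝ≥0∞) • (Measure.dirac false + Measure.dirac true)

instance : IsProbabilityMeasure coin := ⟨by
  simp only [coin, Measure.smul_apply, Measure.add_apply, measure_univ, smul_eq_mul]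
  rw [one_add_one_eq_two]
  exact ENNReal.inv_mul_cancel (by norm_num) (by norm_num)⟩

/-- coin tossing measure on the Cantor space -/
noncomputable def lam : Measure (ℕ → Bool) := Measure.infinitePi (fun _ : ℕ => coin)

/-- change the coordinate number n -/
def flip (n : ℕ) (x : ℕ → Bool) : ℕ → Bool := fun i => if i = n then !(x i) else x i

/-- measure of the points for which the coordinate n is pivotal for B -/
noncomputable def dn (n : ℕ) (B : Set (ℕ → Bool)) : ℝ := (lam (B ∆ (flip n ⁻¹' B))).toReal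

/-- measurable sets with influences o(1/n) -/
def IsBal (B : Set (ℕ → Bool)) : Prop :=
  MeasurableSet B ∧ Tendsto (fun n : ℕ => (n : ℝ) * dn n B) atTop (𝓝 0)

/-- cylinder -/
def cyl (l : ℕ) (y : ℕ → Bool) : Set (ℕ → Bool) := {x | ∀ i, i < l → x i = y i}

/-- they form an algebra -/
def T_BL : Prop := IsBal ∅ ∧ (∀ B, IsBal B → IsBal Bᶜ) ∧
  (∀ B C, IsBal B → IsBal C → IsBal (B ∪ C)) ∧ (∀ B C, IsBal B → IsBal C → IsBal (B ∩ C))

/-- Rademacher measures -/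
noncomputable def radM (n : ℕ) (B : Set (ℕ → Bool)) : ℝ :=
  (n : ℝ) * ((lam (B ∩ {x | x n = false})).toReal - (lam (B ∩ {x | x n = true})).toReal)

def T_RM : Prop := (∀ n B, MeasurableSet B → |radM n B| ≤ n * dn n B) ∧
  (∀ n, IsBal {x | x n = false}) ∧ (∀ n, radM n {x | x n = false} = n / 2) ∧
  (∀ n B C, MeasurableSet B → MeasurableSet C → Disjoint B C →
    radM n (B ∪ C) = radM n B + radM n C)

/-- cutting with cylinders makes the weighted influences small -/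
def T_SH : Prop := ∀ B, IsBal B → ∀ δ : ℝ, 0 < δ → ∃ (l : ℕ) (Y : Finset (ℕ → Bool)),
  (∀ x, ∃ y ∈ Y, x ∈ cyl l y) ∧ ∀ y ∈ Y, IsBal (B ∩ cyl l y) ∧
    ∀ n : ℕ, (n : ℝ) * dn n (B ∩ cyl l y) ≤ δ

/-- infinite unions -/
def T_UN : Prop := ∀ b : ℕ → Set (ℕ → Bool), (∀ j, IsBal (b j)) →
  (∀ j (n : ℕ), (n : ℝ) * dn n (b j) ≤ (1 / 2) ^ j) → ∀ S : Set ℕ, IsBal (⋃ j ∈ S, b j)

/-- gliding hump for finitely supported measures -/
def T_FS : Prop := ∀ (A : Type u) [BooleanAlgebra A] (F : ℕ → Finset (St A))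
  (c : ℕ → St A → ℝ), (∀ k, ∑ p ∈ F k, |c k p| = 1) →
  (∀ a, Tendsto (fun k => ∑ p ∈ F k, if p.1 a = true then c k p else 0) atTop (𝓝 0)) →
    ∃ (η : ℝ) (κ : ℕ → ℕ) (b : ℕ → A), 0 < η ∧ StrictMono κ ∧
      (∀ i j, i ≠ j → Disjoint (b i) (b j)) ∧
      ∀ j, η ≤ ∑ p ∈ F (κ j), if p.1 (b j) = true then |c (κ j) p| else 0

end H95.GN
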