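import Pool.Agent.H95.GN.Targets

/-! Row UB: the traces on antichains are unbounded. -/

set_option autoImplicit false

open Filter Topology Set MeasureTheory
open scoped ENNReal symmDiff

namespace H95.GN

universe u

theorem UB_bot {A : Type u} [BooleanAlgebra A] {μ : A → ℝ} (h : IsMeas μ) : μ ⊥ = 0 := by
  have h1 := h.1 ⊥ ⊥ disjoint_bot_left
  rw [sup_bot_eq] at h1
  linarith

theorem UB_pt {A : Type u} [BooleanAlgebra A] (U : ℕ → A) (e : ℕ → ℕ)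
    (hU : ∀ k l, k ≠ l → Disjoint (U k) (U l)) (he : Function.Injective e)
    (g : ℕ → C(St A, ℝ)) (hg1 : ∀ r, ‖g r‖ ≤ 1)
    (hg0 : ∀ r, ∀ p : St A, p.1 (U (e r)) = false → g r p = 0) (s : Finset ℕ) (ε : ℕ → ℝ)
    (hε : ∀ k, |ε k| ≤ 1) : ‖∑ k ∈ s, ε k • g k‖ ≤ 1 := by
  rw [ContinuousMap.norm_le _ zero_le_one]
  intro p
  have hsum : (∑ k ∈ s, ε k • g k) p = ∑ k ∈ s, ε k * g k p := by
    rw [ContinuousMap.sum_apply]
    rfl
  rw [hsum]
  by_cases hex : ∃ k ∈ s, p.1 (U (e k)) = true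
  · obtain ⟨k, hk, hpk⟩ := hex
    have hz : ∀ l ∈ s, l ≠ k → ε l * g l p = 0 := by
      intro l _ hlk
      have hd : U (e k) ⊓ U (e l) = ⊥ := (hU _ _ (fun h => hlk (he h).symm)).eq_bot
      have hb : p.1 ⊥ = false := by
        have h1 := p.2.2.2 ⊤
        rw [compl_top, p.2.1] at h1
        simpa using h1
      have h2 := p.2.2.1 (U (e k)) (U (e l))
      rw [hd, hb, hpk] at h2
      have h3 : p.1 (U (e l)) = false := by
        cases hq : p.1 (U (e l))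
        · rfl
        · rw [hq] at h2
          simp at h2
      rw [hg0 l p h3, mul_zero]
    rw [Finset.sum_eq_single_of_mem k hk hz, norm_mul]
    have h1 : ‖ε k‖ ≤ 1 := hε k
    have h2 : ‖g k p‖ ≤ 1 := ((g k).norm_coe_le_norm p).trans (hg1 k)
    calc ‖ε k‖ * ‖g k p‖ ≤ 1 * 1 := mul_le_mul h1 h2 (norm_nonneg _) zero_le_one
      _ = 1 := one_mul 1
  · have hz : ∀ l ∈ s, ε l * g l p = 0 := by
      intro l hl
      have h3 : p.1 (U (e l)) = false := by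
        cases hq : p.1 (U (e l))
        · rfl
        · exact absurd ⟨l, hl, hq⟩ hex
      rw [hg0 l p h3, mul_zero]
    rw [Finset.sum_eq_zero hz, norm_zero]
    exact zero_le_one

/-- UB -/
theorem pf_UB (hEX : T_EX.{u}) (hBV : T_BV.{u}) (hVW : T_VW.{u}) (hNW : T_NW.{u})
    (hTC : T_TC.{u}) : T_UB.{u} := by
  intro A _ μ U hG hμ hU hL S hS h
  by_contra hcon
  push Not at hcon
  have hfin : ∀ a : A, {k | k ∈ S ∧ ∃ n, h k < |μ n (a ⊓ U k)|}.Finite := fun a => hcon a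
  classical
  let e : ℕ → ℕ := Nat.nth (· ∈ S)
  have heS : ∀ r, e r ∈ S := fun r => Nat.nth_mem_of_infinite hS r
  have hinj : Function.Injective e := Nat.nth_injective hS
  have hBV' : ∀ r : ℕ, ∃ (n : ℕ) (K : ℝ), ((r : ℝ) + 1) * (|h (e r)| + 1) ≤ K ∧ 0 < K ∧
      ¬ VarLE (μ n) (U (e r)) K ∧ IsMeas (fun a => (2 * K)⁻¹ * μ n (a ⊓ U (e r))) ∧
      VarLE (fun a => (2 * K)⁻¹ * μ n (a ⊓ U (e r))) ⊤ 1 := fun r =>
    hBV A μ (U (e r)) hμ (hL (e r)) _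
  choose n K hKR hK0 hKV hKM hKT using hBV'
  have hEX' : ∀ r : ℕ, ∃ L : C(St A, ℝ) →L[ℝ] ℝ,
      (∀ a, L (chi a) = (2 * K r)⁻¹ * μ (n r) (a ⊓ U (e r))) ∧ ‖L‖ ≤ 1 := fun r =>
    hEX A _ 1 (hKM r) (hKT r)
  choose L hLchi hLn using hEX'
  have hVW' : ∀ r : ℕ, ∃ g : C(St A, ℝ), ‖g‖ ≤ 1 ∧
      (∀ p : St A, p.1 (U (e r)) = false → g p = 0) ∧
      (∀ L' : C(St A, ℝ) →L[ℝ] ℝ, (∀ a, a ≤ U (e r) →
        L' (chi a) = (2 * K r)⁻¹ * μ (n r) (a ⊓ U (e r))) → 1 / 2 < L' g) ∧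
      (∀ L' : C(St A, ℝ) →L[ℝ] ℝ, (∀ a, a ≤ U (e r) → L' (chi a) = 0) → L' g = 0) := by
    intro r
    refine hVW A (fun a => (2 * K r)⁻¹ * μ (n r) (a ⊓ U (e r))) (U (e r)) (1 / 2) ?_
    intro hv
    refine hKV r fun s hs1 hs2 => ?_
    have h1 := hv s hs1 hs2
    have h2 : ∑ a ∈ s, |(2 * K r)⁻¹ * μ (n r) (a ⊓ U (e r))| =
        (2 * K r)⁻¹ * ∑ a ∈ s, |μ (n r) a| := by
      rw [Finset.mul_sum]
      refine Finset.sum_congr rfl fun a ha => ?_
      rw [inf_eq_left.2 (hs1 a ha), abs_mul,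
        abs_of_pos (inv_pos.2 (mul_pos two_pos (hK0 r)))]
    simp only at h1
    rw [h2, inv_mul_le_iff₀ (mul_pos two_pos (hK0 r))] at h1
    linarith
  choose g hg1 hg0 hgL hgZ using hVW'
  have hLg : ∀ r, 1 / 2 < L r (g r) := fun r => hgL r (L r) fun a _ => hLchi r a
  have hLg0 : ∀ r s, s ≠ r → L r (g s) = 0 := by
    intro r s hsr
    refine hgZ s (L r) fun a ha => ?_
    rw [hLchi]
    have h1 : a ⊓ U (e r) = ⊥ :=
      ((hU _ _ (fun h => hsr (hinj h))).mono_left ha).eq_bot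
    rw [h1, UB_bot (hμ _), mul_zero]
  have hchi : ∀ a, Tendsto (fun r => L r (chi a)) atTop (𝓝 0) := by
    intro a
    have hlim : Tendsto (fun r : ℕ => 1 / ((r : ℝ) + 1)) atTop (𝓝 0) :=
      tendsto_one_div_add_atTop_nhds_zero_nat
    refine squeeze_zero_norm' ?_ hlim
    have hf : {r : ℕ | e r ∈ S ∧ ∃ m, h (e r) < |μ m (a ⊓ U (e r))|}.Finite :=
      (hfin a).preimage hinj.injOn
    filter_upwards [hf.eventually_cofinite_notMem.filter_mono Nat.cofinite_eq_atTop.ge] with r hr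
    have hr' : |μ (n r) (a ⊓ U (e r))| ≤ h (e r) := by
      by_contra hlt
      exact hr ⟨heS r, n r, not_le.1 hlt⟩
    rw [hLchi, norm_mul, Real.norm_eq_abs, Real.norm_eq_abs,
      abs_of_pos (inv_pos.2 (mul_pos two_pos (hK0 r))),
      inv_mul_le_iff₀ (mul_pos two_pos (hK0 r))]
    have h0 : (0 : ℝ) < (r : ℝ) + 1 := by positivity
    have h1 : h (e r) ≤ |h (e r)| + 1 := (le_abs_self _).trans (by linarith)
    have h2 : |h (e r)| + 1 ≤ K r * (1 / ((r : ℝ) + 1)) := by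
      rw [mul_one_div, le_div_iff₀ h0, mul_comm]
      exact hKR r
    have h3 : 0 ≤ K r * (1 / ((r : ℝ) + 1)) := by
      have := hK0 r
      positivity
    linarith
  have hw : ∀ f, Tendsto (fun r => L r f) atTop (𝓝 0) := hTC A L hLn hchi
  obtain ⟨Φ, hΦ⟩ := (hNW C(St A, ℝ) g
    (fun s ε hε => UB_pt U e hU hinj g hg1 hg0 s ε hε)).2 univ
  have hlim := hG L 0 (fun f => by simpa using hw f) Φ
  rw [map_zero] at hlim
  have hval : ∀ r, Φ (L r) = L r (g r) := by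
    intro r
    rw [hΦ, indicator_univ]
    exact tsum_eq_single r fun s hs => hLg0 r s hs
  have hge : ∀ r, 1 / 2 ≤ Φ (L r) := fun r => (hval r) ▸ (hLg r).le
  have := ge_of_tendsto' hlim hge
  norm_num at this

end H95.GN
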