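import Pool.Agent.H95.GN.Targets

/-!
# Board gn_modules, module UN: infinite unions
-/

set_option autoImplicit false

open Filter Topology Set MeasureTheory
open scoped ENNReal symmDiff

namespace H95.GN

theorem un_sub (b : ℕ → Set (ℕ → Bool)) (S : Set ℕ) (n : ℕ) :
    (⋃ j ∈ S, b j) ∆ (flip n ⁻¹' (⋃ j ∈ S, b j)) ⊆ ⋃ j, (b j) ∆ (flip n ⁻¹' (b j)) := by
  intro x hx
  simp only [mem_symmDiff, mem_preimage, mem_iUnion, exists_prop] at hx ⊢
  rcases hx with ⟨⟨j, hj, hx1⟩, hx2⟩ | ⟨⟨j, hj, hx1⟩, hx2⟩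
  · exact ⟨j, Or.inl ⟨hx1, fun h => hx2 ⟨j, hj, h⟩⟩⟩
  · exact ⟨j, Or.inr ⟨hx1, fun h => hx2 ⟨j, hj, h⟩⟩⟩

theorem un_le (b : ℕ → Set (ℕ → Bool))
    (hb : ∀ j (n : ℕ), (n : ℝ) * dn n (b j) ≤ (1 / 2) ^ j) (S : Set ℕ) (n : ℕ) (hn : 1 ≤ n) :
    (n : ℝ) * dn n (⋃ j ∈ S, b j) ≤ ∑' j, (n : ℝ) * dn n (b j) := by
  have hlam : IsProbabilityMeasure lam := by unfold lam; infer_instance
  have hn0 : (1 : ℝ) ≤ n := by exact_mod_cast hn
  have h0 : ∀ j, 0 ≤ dn n (b j) := fun j => ENNReal.toReal_nonneg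
  have hle : ∀ j, dn n (b j) ≤ (1 / 2) ^ j := fun j =>
    le_trans (le_mul_of_one_le_left (h0 j) hn0) (hb j n)
  have hsum : Summable (fun j => dn n (b j)) :=
    Summable.of_nonneg_of_le h0 hle summable_geometric_two
  have h1 : lam ((⋃ j ∈ S, b j) ∆ (flip n ⁻¹' (⋃ j ∈ S, b j))) ≤
      ENNReal.ofReal (∑' j, dn n (b j)) := by
    rw [ENNReal.ofReal_tsum_of_nonneg h0 hsum]
    refine le_trans (measure_mono (un_sub b S n)) (le_trans (measure_iUnion_le _) ?_)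
    refine ENNReal.tsum_le_tsum fun j => ?_
    unfold dn
    rw [ENNReal.ofReal_toReal (measure_ne_top _ _)]
  have h2 : dn n (⋃ j ∈ S, b j) ≤ ∑' j, dn n (b j) := by
    unfold dn at *
    exact ENNReal.toReal_le_of_le_ofReal (tsum_nonneg h0) h1
  rw [tsum_mul_left]
  exact mul_le_mul_of_nonneg_left h2 (by linarith)

theorem pf_UN : T_UN := by
  intro b hb hle S
  refine ⟨MeasurableSet.biUnion (Set.to_countable S) fun j _ => (hb j).1, ?_⟩
  have h0 : ∀ n B, 0 ≤ dn n B := fun n B => ENNReal.toReal_nonneg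
  have hlim : Tendsto (fun n : ℕ => ∑' j, (n : ℝ) * dn n (b j)) atTop (𝓝 (∑' _j : ℕ, (0 : ℝ))) := by
    refine tendsto_tsum_of_dominated_convergence (bound := fun j : ℕ => (1 / 2 : ℝ) ^ j)
      summable_geometric_two (fun j => (hb j).2) ?_
    refine Filter.Eventually.of_forall fun n j => ?_
    rw [Real.norm_of_nonneg (mul_nonneg (Nat.cast_nonneg n) (h0 n _))]
    exact hle j n
  rw [tsum_zero] at hlim
  refine squeeze_zero' (Filter.Eventually.of_forall fun n =>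
    mul_nonneg (Nat.cast_nonneg n) (h0 n _)) ?_ hlim
  filter_upwards [eventually_ge_atTop 1] with n hn
  exact un_le b hle S n hn

end H95.GN
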