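import Pool.Agent.H95.GN.Targets

open Filter Topology Set

namespace H95.GN

universe u

private lemma hom_bot {A : Type u} [BooleanAlgebra A] (p : St A) : p.1 ⊥ = false := by
  have h := p.2.2.2 ⊤
  rw [compl_top, p.2.1] at h
  simpa using h

private lemma hom_le {A : Type u} [BooleanAlgebra A] (p : St A) {a U : A} (h : a ≤ U)
    (hU : p.1 U = false) : p.1 a = false := by
  have h1 := p.2.2.1 a U
  rw [inf_eq_left.mpr h, hU, Bool.and_false] at h1
  exact h1

private lemma hom_disj {A : Type u} [BooleanAlgebra A] (p : St A) {a b : A} (h : Disjoint a b)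
    (ha : p.1 a = true) : p.1 b = false := by
  have h1 := p.2.2.1 a b
  rw [disjoint_iff.mp h, hom_bot, ha, Bool.true_and] at h1
  exact h1.symm

theorem pf_VW : T_VW := by
  intro A _ μ U C hV
  unfold VarLE at hV
  push Not at hV
  obtain ⟨s, hsU, hsd, hC⟩ := hV
  classical
  set ε : A → ℝ := fun a => if 0 ≤ μ a then 1 else -1 with hε
  have hεμ : ∀ a, ε a * μ a = |μ a| := by
    intro a
    by_cases h : 0 ≤ μ a
    · simp [hε, h, abs_of_nonneg h]
    · simp [hε, h, abs_of_neg (not_le.mp h)]
  have hε1 : ∀ a, |ε a| ≤ 1 := by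
    intro a
    by_cases h : 0 ≤ μ a <;> simp [hε, h]
  have hval : ∀ p : St A, (∑ a ∈ s, ε a • chi a : C(St A, ℝ)) p
      = ∑ a ∈ s, ε a * (if p.1 a = true then 1 else 0) := by
    intro p
    rw [ContinuousMap.coe_sum, Finset.sum_apply]
    rfl
  refine ⟨∑ a ∈ s, ε a • chi a, ?_, ?_, ?_, ?_⟩
  · rw [ContinuousMap.norm_le _ zero_le_one]
    intro p
    rw [hval]
    by_cases h : ∃ a ∈ s, p.1 a = true
    · obtain ⟨a, has, hpa⟩ := h
      rw [Finset.sum_eq_single a]
      · simp only [hpa, if_true, mul_one]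
        exact hε1 a
      · intro b hbs hba
        have := hom_disj p (hsd a has b hbs (Ne.symm hba)) hpa
        simp [this]
      · intro hn
        exact absurd has hn
    · push Not at h
      rw [Finset.sum_eq_zero]
      · simp
      · intro b hb
        simp [h b hb]
  · intro p hp
    rw [hval]
    refine Finset.sum_eq_zero fun b hb => ?_
    have := hom_le p (hsU b hb) hp
    simp [this]
  · intro L hL
    rw [map_sum]
    have : ∑ a ∈ s, L (ε a • chi a) = ∑ a ∈ s, |μ a| := by
      refine Finset.sum_congr rfl fun a ha => ?_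
      rw [map_smul, hL a (hsU a ha), smul_eq_mul, hεμ]
    rw [this]
    exact hC
  · intro L hL
    rw [map_sum]
    refine Finset.sum_eq_zero fun a ha => ?_
    rw [map_smul, hL a (hsU a ha), smul_zero]

end H95.GN
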