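import Pool.Agent.H95.GN.Targets

open Filter Topology Set

namespace H95.GN

universe u

/-- first pair of the list with first entry outside s -/
def yvFind (s : Finset ℕ) (L : List (ℕ × ℕ)) : Option (ℕ × ℕ) :=
  L.find? (fun q => decide (q.1 ∉ s))

/-- set of the first entries used before step t -/
def yvUsed (P : ℕ → List (ℕ × ℕ)) : ℕ → Finset ℕ
  | 0 => ∅
  | t + 1 => match yvFind (yvUsed P t) (P t) with
    | some q => insert q.1 (yvUsed P t)
    | none => yvUsed P t

lemma yvUsed_card (P : ℕ → List (ℕ × ℕ)) (t : ℕ) : (yvUsed P t).card ≤ t := by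
  induction t with
  | zero => simp [yvUsed]
  | succ t ih =>
    rw [yvUsed]
    cases h : yvFind (yvUsed P t) (P t) with
    | none => simp only; omega
    | some q =>
      simp only
      exact (Finset.card_insert_le _ _).trans (by omega)

lemma yvUsed_mono (P : ℕ → List (ℕ × ℕ)) : Monotone (yvUsed P) := by
  apply monotone_nat_of_le_succ
  intro t
  conv_rhs => rw [yvUsed]
  cases h : yvFind (yvUsed P t) (P t) with
  | none => simp
  | some q => exact Finset.subset_insert _ _

lemma yvFind_some {s : Finset ℕ} {L : List (ℕ × ℕ)} {q : ℕ × ℕ} (h : yvFind s L = some q) :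
    q ∈ L ∧ q.1 ∉ s := by
  unfold yvFind at h
  refine ⟨List.mem_of_find?_eq_some h, ?_⟩
  have := List.find?_some h
  simpa using this

lemma yvPick_ne (P : ℕ → List (ℕ × ℕ)) {t t' : ℕ} {q q' : ℕ × ℕ} (htt : t < t')
    (h : yvFind (yvUsed P t) (P t) = some q) (h' : yvFind (yvUsed P t') (P t') = some q') :
    q.1 ≠ q'.1 := by
  intro he
  have h1 : q.1 ∈ yvUsed P (t + 1) := by
    rw [yvUsed, h]
    exact Finset.mem_insert_self _ _
  have h2 := yvUsed_mono P (Nat.succ_le_of_lt htt) h1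
  rw [he] at h2
  exact (yvFind_some h').2 h2

lemma yvPick_ex (P : ℕ → List (ℕ × ℕ)) {t : ℕ} (h1 : ((P t).map Prod.fst).Nodup)
    (h2 : t < (P t).length) : ∃ q, yvFind (yvUsed P t) (P t) = some q := by
  by_contra hne
  have hn : yvFind (yvUsed P t) (P t) = none := by
    cases h : yvFind (yvUsed P t) (P t) with
    | none => rfl
    | some q => exact absurd ⟨q, h⟩ hne
  unfold yvFind at hn
  rw [List.find?_eq_none] at hn
  have hsub : ((P t).map Prod.fst).toFinset ⊆ yvUsed P t := by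
    intro y hy
    rw [List.mem_toFinset, List.mem_map] at hy
    obtain ⟨q, hq, rfl⟩ := hy
    have := hn q hq
    simpa using this
  have hc := Finset.card_le_card hsub
  rw [List.toFinset_card_of_nodup h1, List.length_map] at hc
  have := yvUsed_card P t
  omega

/-- sum of the bounds before k -/
def yvT (h : ℕ → ℕ) (k : ℕ) : ℕ := ∑ j ∈ Finset.range k, h j

lemma yvT_mono (h : ℕ → ℕ) : Monotone (yvT h) := by
  apply monotone_nat_of_le_succ
  intro k
  unfold yvT
  rw [Finset.sum_range_succ]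
  omega

/-- the list L is proposal number t of the slalom -/
def yvR (φ : ℕ → Finset ℕ) (h : ℕ → ℕ) (t : ℕ) (L : List (ℕ × ℕ)) : Prop :=
  ∃ k, ∃ s ∈ φ k, t = yvT h k + (φ k).toList.idxOf s ∧ Encodable.decode s = some L

lemma yv_idx {φ : ℕ → Finset ℕ} {h : ℕ → ℕ} (hc : ∀ k, (φ k).card ≤ h k) {k s : ℕ}
    (hs : s ∈ φ k) : yvT h k + (φ k).toList.idxOf s < yvT h (k + 1) := by
  have h1 : (φ k).toList.idxOf s < (φ k).toList.length :=
    List.idxOf_lt_length_of_mem (Finset.mem_toList.2 hs)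
  rw [Finset.length_toList] at h1
  have h2 : yvT h (k + 1) = yvT h k + h k := Finset.sum_range_succ _ _
  have := hc k
  omega

lemma yv_inj {φ : ℕ → Finset ℕ} {h : ℕ → ℕ} (hc : ∀ k, (φ k).card ≤ h k) {k s k' s' : ℕ}
    (hs : s ∈ φ k) (hs' : s' ∈ φ k')
    (he : yvT h k + (φ k).toList.idxOf s = yvT h k' + (φ k').toList.idxOf s') : k = k' ∧ s = s' := by
  have h1 := yv_idx hc hs
  have h2 := yv_idx hc hs'
  have hk : k = k' := by
    rcases lt_trichotomy k k' with hlt | heq | hgt
    · have := yvT_mono h (Nat.succ_le_of_lt hlt)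
      simp only [Nat.succ_eq_add_one] at this
      omega
    · exact heq
    · have := yvT_mono h (Nat.succ_le_of_lt hgt)
      simp only [Nat.succ_eq_add_one] at this
      omega
  subst hk
  refine ⟨rfl, ?_⟩
  have h3 : (φ k).toList.idxOf s = (φ k).toList.idxOf s' := by omega
  exact (List.idxOf_inj (Finset.mem_toList.2 hs)).1 h3

lemma yvR_unique {φ : ℕ → Finset ℕ} {h : ℕ → ℕ} (hc : ∀ k, (φ k).card ≤ h k) {t : ℕ}
    {L L' : List (ℕ × ℕ)} (h1 : yvR φ h t L) (h2 : yvR φ h t L') : L = L' := by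
  obtain ⟨k, s, hs, he, hd⟩ := h1
  obtain ⟨k', s', hs', he', hd'⟩ := h2
  obtain ⟨rfl, rfl⟩ := yv_inj hc hs hs' (he.symm.trans he')
  rw [hd] at hd'
  exact Option.some.inj hd'

open Classical in
/-- proposal number t -/
noncomputable def yvP (φ : ℕ → Finset ℕ) (h : ℕ → ℕ) (t : ℕ) : List (ℕ × ℕ) :=
  if hh : ∃ L, yvR φ h t L then hh.choose else []

lemma yvP_eq {φ : ℕ → Finset ℕ} {h : ℕ → ℕ} (hc : ∀ k, (φ k).card ≤ h k) {t : ℕ}
    {L : List (ℕ × ℕ)} (h1 : yvR φ h t L) : yvP φ h t = L := by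
  unfold yvP
  rw [dif_pos ⟨L, h1⟩]
  exact yvR_unique hc (Exists.choose_spec (⟨L, h1⟩ : ∃ L, yvR φ h t L)) h1

open Classical in
/-- the function of a slalom -/
noncomputable def yvF (φ : ℕ → Finset ℕ) (h : ℕ → ℕ) (y : ℕ) : ℕ :=
  if hh : ∃ v t, yvFind (yvUsed (yvP φ h) t) (yvP φ h t) = some (y, v) then hh.choose else 0

lemma yvF_eq {φ : ℕ → Finset ℕ} {h : ℕ → ℕ} {t : ℕ} {q : ℕ × ℕ}
    (hq : yvFind (yvUsed (yvP φ h) t) (yvP φ h t) = some q) : yvF φ h q.1 = q.2 := by
  unfold yvF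
  have hex : ∃ v t, yvFind (yvUsed (yvP φ h) t) (yvP φ h t) = some (q.1, v) := ⟨q.2, t, hq⟩
  rw [dif_pos hex]
  obtain ⟨t', ht'⟩ := hex.choose_spec
  generalize hex.choose = w at ht'
  rcases lt_trichotomy t t' with hlt | heq | hgt
  · exact absurd rfl (yvPick_ne (yvP φ h) (q := q) (q' := (q.1, w)) hlt hq ht')
  · subst heq
    rw [hq] at ht'
    have h2 := congrArg Prod.snd (Option.some.inj ht')
    exact h2.symm
  · exact absurd rfl (yvPick_ne (yvP φ h) (q := (q.1, w)) (q' := q) hgt ht' hq)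

theorem pf_YV : T_YV.{u} := by
  intro I φ h hc hx
  refine ⟨fun i => yvF (φ i) h, fun Y hY g => ?_⟩
  set y : ℕ → ℕ := Nat.nth (fun n => n ∈ Y) with hy
  have hYm : ∀ n, y n ∈ Y := fun n => Nat.nth_mem_of_infinite hY n
  have hYi : Function.Injective y := Nat.nth_injective hY
  set L : ℕ → List (ℕ × ℕ) := fun k => (List.range (yvT h (k + 1))).map (fun t => (y t, g (y t)))
    with hL
  obtain ⟨i, hi⟩ := hx (fun k => Encodable.encode (L k))
  refine ⟨i, ?_⟩
  have key : ∀ k ∈ {k | Encodable.encode (L k) ∈ φ i k}, ∃ q : ℕ × ℕ, q ∈ L k ∧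
      yvFind (yvUsed (yvP (φ i) h) (yvT h k + (φ i k).toList.idxOf (Encodable.encode (L k))))
        (yvP (φ i) h (yvT h k + (φ i k).toList.idxOf (Encodable.encode (L k)))) = some q := by
    intro k hk
    have hR : yvR (φ i) h (yvT h k + (φ i k).toList.idxOf (Encodable.encode (L k))) (L k) :=
      ⟨k, _, hk, rfl, Encodable.encodek _⟩
    have hP := yvP_eq (hc i) hR
    obtain ⟨q, hq⟩ := yvPick_ex (yvP (φ i) h)
      (t := yvT h k + (φ i k).toList.idxOf (Encodable.encode (L k))) (by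
        rw [hP, hL]
        simp only [List.map_map]
        exact (List.nodup_range).map hYi) (by
        rw [hP, hL]
        simp only [List.length_map, List.length_range]
        exact yv_idx (hc i) hk)
    refine ⟨q, ?_, hq⟩
    have := (yvFind_some hq).1
    rwa [hP] at this
  choose! Q hQ1 hQ2 using key
  apply Set.infinite_of_injOn_mapsTo (f := fun k => (Q k).1) ?_ ?_ hi
  · intro k hk k' hk' hkk
    by_contra hne
    have hk1 := hQ2 k hk
    have hk2 := hQ2 k' hk'
    rcases lt_trichotomy (yvT h k + (φ i k).toList.idxOf (Encodable.encode (L k)))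
      (yvT h k' + (φ i k').toList.idxOf (Encodable.encode (L k'))) with hlt | heq | hgt
    · exact yvPick_ne _ hlt hk1 hk2 hkk
    · exact hne (yv_inj (hc i) hk hk' heq).1
    · exact yvPick_ne _ hgt hk2 hk1 hkk.symm
  · intro k hk
    have h1 := yvF_eq (hQ2 k hk)
    have h2 := hQ1 k hk
    rw [hL] at h2
    simp only [List.mem_map, List.mem_range] at h2
    obtain ⟨t, _, ht⟩ := h2
    refine ⟨?_, ?_⟩
    · have : (Q k).1 = y t := by rw [← ht]
      show (Q k).1 ∈ Y
      rw [this]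
      exact hYm t
    · show yvF (φ i) h (Q k).1 = g (Q k).1
      rw [h1, ← ht]

end H95.GN
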